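import Pool.Agent.Y173.QA.DefsB

/-! Vector fields which are regular on a projective model. -/

set_option autoImplicit false
set_option linter.overlappingInstances false

universe u v

open FF Pool.Agent.W619.PQ

namespace Pool.Agent.Y173.QA

/-- The rational vector fields in `W` are regular on some projective model of the function field
`L`: there are homogeneous coordinates `z 0, ..., z N` (not zero) which generate `L`, and the vector
fields preserve the coordinate rings `k[z 0 / z i, ..., z N / z i]` of the affine charts. -/
def IsRegularOnModel {k : Type v} {L : Type u} [Field k] [Field L] [Algebra k L]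
    (W : Submodule k (Derivation k L L)) : Prop :=
  ∃ (N : ℕ) (z : Fin (N + 1) → L), (∀ i, z i ≠ 0) ∧
    (∀ i, IntermediateField.adjoin k (Set.range fun j => z j / z i) = ⊤) ∧
    ∀ D ∈ W, ∀ i j, D (z j / z i) ∈ Algebra.adjoin k (Set.range fun j => z j / z i)

end Pool.Agent.Y173.QA
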