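import Pool.Agent.Y173.QA.Phi

/-! The numerical dimension is at most the number of the base coordinates. -/

set_option autoImplicit false
set_option linter.overlappingInstances false
set_option linter.unusedSectionVars false

open FF IntermediateField Pool.Agent.W619.PQ Pool.Agent.W619.PL Pool.Agent.W619.TW
  Pool.Agent.W603.LV Pool.Agent.W619.Y Pool.Agent.TH122.AB MvPolynomial

namespace Pool.Agent.Y173.QA

variable {k : Type} [Field k] [CharZero k] {L : Type} [Field L] [Algebra k L]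

theorem dom_mul_reg {w : Place k L} {S : Finset L} {f c : L} (hf : Dom w S 1 f)
    (hc : w.Reg c) : Dom w S 1 (c * f) := by
  rcases hf with hf | ⟨s, hs, hs0, h⟩
  · left; rw [hf, mul_zero]
  · by_cases hc0 : c = 0
    · left; rw [hc0, zero_mul]
    by_cases hf0 : f = 0
    · left; rw [hf0, mul_zero]
    right
    refine ⟨s, hs, hs0, ?_⟩
    have := hc.resolve_left hc0
    rw [w.ord_mul hc0 hf0]
    linarith

theorem bdd_of_finite {α : Type*} {T : Set α} (hT : T.Finite) (p : α → ℕ → Prop)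
    (hmono : ∀ x c c', c ≤ c' → p x c → p x c') (h : ∀ x ∈ T, ∃ c, p x c) :
    ∃ c, ∀ x ∈ T, p x c := by
  classical
  induction T, hT using Set.Finite.induction_on with
  | empty => exact ⟨0, fun x hx => absurd hx (Set.notMem_empty x)⟩
  | @insert a s ha hs ih =>
    obtain ⟨c, hc⟩ := ih fun x hx => h x (Set.mem_insert_of_mem a hx)
    obtain ⟨c', hc'⟩ := h a (Set.mem_insert a s)
    refine ⟨max c c', fun x hx => ?_⟩
    rcases Set.mem_insert_iff.1 hx with rfl | hx
    · exact hmono _ _ _ (le_max_right _ _) hc'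
    · exact hmono _ _ _ (le_max_left _ _) (hc x hx)

theorem numLe_U {a r N : ℕ} (har : 0 < a + r) (htr : Algebra.trdeg k L = (a + r : ℕ))
    (hfin : ∀ y : Fin (a + r) → L, IsTranscendenceBasis k y →
      FiniteDimensional (IntermediateField.adjoin k (Set.range y)) L)
    {t : Fin a → L} (ht : AlgebraicIndependent k t) {z : Fin (N + 1) → L} (hz0 : ∀ i, z i ≠ 0)
    (htop : ∀ i, IntermediateField.adjoin k (Set.range fun j => z j / z i) = ⊤)
    {U : Fin r → Derivation k L L} (hUt : ∀ i j, U i (t j) = 0)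
    (hUB : ∀ l i j, U l (z j / z i) ∈ Algebra.adjoin k (Set.range fun j => z j / z i))
    (hUspan : ∀ D : Derivation k L L, (∀ j, D (t j) = 0) → ∃ c : Fin r → L, D = ∑ i, c i • U i) :
    NumLe k L (a + r) (fun _ => False) a := by
  classical
  intro S
  obtain ⟨x, hch⟩ := exists_chart htr ht (Set.finite_range fun j => z j / z 0) (htop 0)
  have hZ := hch.bas
  have hne : ∀ f : MvPolynomial (Fin (a + r)) k, f ≠ 0 → aeval (Fin.append t x) f ≠ 0 :=
    fun f hf h0 => hf ((injective_iff_map_eq_zero _).1 hZ.1 f h0)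
  obtain ⟨E, hE0⟩ := Pool.Agent.W602.GT.exists_dual hZ
  have hE : ∀ i j, E i (Fin.append t x j) = if i = j then 1 else 0 := by
    intro i j
    have h1 := congrFun (congrFun hE0 i) j
    rw [Matrix.of_apply, Matrix.one_apply] at h1
    exact h1
  obtain ⟨F, hFdef⟩ : ∃ F : Fin a → Derivation k L L, ∀ j, F j = E (Fin.castAdd r j) :=
    ⟨_, fun _ => rfl⟩
  have hF : ∀ j l, F j (t l) = if j = l then 1 else 0 := by
    intro j l
    have h1 := hE (Fin.castAdd r j) (Fin.castAdd r l)
    rw [Fin.append_left] at h1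
    rw [hFdef, h1]
    by_cases hjl : j = l
    · rw [if_pos hjl, if_pos (by rw [hjl])]
    · rw [if_neg hjl, if_neg fun h => hjl (Fin.castAdd_injective a r h)]
  obtain ⟨Φ, hΦdef⟩ : ∃ Φ : Fin (a + r) → Derivation k L L, Φ = Fin.append F U := ⟨_, rfl⟩
  have hΦspan : ∀ D : Derivation k L L, ∃ c : Fin (a + r) → L, D = ∑ i, c i • Φ i := by
    intro D
    obtain ⟨c, hc⟩ := hUspan (D - ∑ j, D (t j) • F j) fun l => by
      rw [Derivation.sub_apply, sum_der, Finset.sum_eq_single l]
      · rw [hF, if_pos rfl, mul_one, sub_self]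
      · intro j _ hj
        rw [hF, if_neg hj, mul_zero]
      · intro hl
        exact absurd (Finset.mem_univ _) hl
    refine ⟨Fin.append (fun j => D (t j)) c, ?_⟩
    rw [Fin.sum_univ_add, hΦdef]
    simp only [Fin.append_left, Fin.append_right]
    rw [← hc]
    abel
  -- clearing the poles of the frame
  choose Qc hQc0 hQc using fun i => exists_clear hZ (hfin _ hZ) (Φ i)
  obtain ⟨Q, hQ⟩ : ∃ Q, Q = ∏ i, Qc i := ⟨_, rfl⟩
  have hQ0 : Q ≠ 0 := by
    rw [hQ]
    exact Finset.prod_ne_zero_iff.2 fun i _ => hQc0 i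
  have hQpres : ∀ p : MvPolynomial (Fin (a + r)) k, Irreducible p → ∀ P : Place k L,
      Adic (Fin.append t x) p P → ∀ i, Pres P (aeval (Fin.append t x) Q • Φ i) := by
    intro p hp P hP i f hf
    rw [hQ, ← Finset.mul_prod_erase Finset.univ Qc (Finset.mem_univ i), map_mul,
      Derivation.smul_apply, smul_eq_mul, mul_comm (aeval _ (Qc i)), mul_assoc]
    refine P.reg_mul (adic_reg hP _) ?_
    have h1 := hQc i p hp P hP f hf
    rw [Derivation.smul_apply, smul_eq_mul] at h1
    exact h1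
  obtain ⟨r0, R', hr0, hQR, hR'⟩ := exists_vert_part hQ0
  have hr00 : r0 ≠ 0 := by
    rintro rfl
    exact hQ0 (by rw [hQR, zero_mul])
  have hR'0 : R' ≠ 0 := by
    rintro rfl
    exact hQ0 (by rw [hQR, mul_zero])
  obtain ⟨ρ, hρ⟩ : ∃ ρ : L, ρ = aeval (Fin.append t x) r0 ^ (a + r) := ⟨_, rfl⟩
  have hρ0 : ρ ≠ 0 := by
    rw [hρ]
    exact pow_ne_zero _ (hne _ hr00)
  -- the poles at the finite places
  have hfine : ∀ (m : ℕ) (ω : (Fin (a + r) → Derivation k L L) → L),
      IsSec k L (a + r) (fun _ => False) S m 1 ω → ∀ p : MvPolynomial (Fin (a + r)) k,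
      Irreducible p → ∀ P : Place k L, Adic (Fin.append t x) p P → Dom P S 1 (ρ ^ m * ω Φ) := by
    intro m ω hω p hp P hP
    by_cases hpv : Vert p
    · have h1 := hω.2.1 P (adic_div hZ.1 hp hP) (fun h => h)
        (fun i => aeval (Fin.append t x) Q • Φ i) (hQpres p hp P hP)
      rw [phi_smul hω.1] at h1
      have h2 : (aeval (Fin.append t x) Q ^ (a + r)) ^ m * ω Φ =
          (aeval (Fin.append t x) R' ^ (a + r)) ^ m * (ρ ^ m * ω Φ) := by
        rw [hQR, map_mul, hρ]
        ring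
      rw [h2] at h1
      have h3 : P.ord (aeval (Fin.append t x) R') = 0 := (hP R' hR'0).2.2 (hR' p hp hpv)
      have h4 : (aeval (Fin.append t x) R' ^ (a + r)) ^ m ≠ 0 :=
        pow_ne_zero _ (pow_ne_zero _ (hne R' hR'0))
      have h5 : P.Reg ((aeval (Fin.append t x) R' ^ (a + r)) ^ m)⁻¹ := by
        right
        rw [P.ord_inv, P.ord_pow, P.ord_pow, h3]
        simp
      have h6 := dom_mul_reg h1 h5
      rwa [← mul_assoc, inv_mul_cancel₀ h4, one_mul] at h6
    · have h1 := dom_hor htr hfin hch (htop 0) hUt (fun l b hb => by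
        obtain ⟨j, rfl⟩ := hb
        exact hUB l 0 j) hUspan hF hω hp hpv hP
      rw [← hΦdef] at h1
      refine dom_mul_reg h1 ?_
      rw [hρ, ← map_pow, ← map_pow]
      exact adic_reg hP _
  -- the infinite places
  obtain ⟨T, hTfin, hTdeg, C, c, hC⟩ := count_L har hZ (hfin _ hZ) S
  have hinf1 : ∀ j : Fin a, ∃ c1 : ℕ, ∀ P ∈ T (Fin.castAdd r j), ∀ (m : ℕ)
      (ω : (Fin (a + r) → Derivation k L L) → L), 1 ≤ m →
        IsSec k L (a + r) (fun _ => False) S m 1 ω →
          Ge P (-((c1 * m : ℕ) : ℤ)) (ρ ^ m * ω Φ) := by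
    intro j
    refine bdd_of_finite (hTfin _) (fun P c1 => ∀ (m : ℕ)
      (ω : (Fin (a + r) → Derivation k L L) → L), 1 ≤ m →
        IsSec k L (a + r) (fun _ => False) S m 1 ω →
          Ge P (-((c1 * m : ℕ) : ℤ)) (ρ ^ m * ω Φ)) ?_ ?_
    · intro P c1 c2 hle h m ω hm hω
      refine (h m ω hm hω).mono ?_
      have := Nat.mul_le_mul_right m hle
      push_cast
      have h1 : (c1 : ℤ) * m ≤ c2 * m := by exact_mod_cast this
      linarith
    · intro P hP
      obtain ⟨e, he, hdeg⟩ := hTdeg _ P hP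
      have hdiv : IsDivisorial P (a + r) := div_of_deg hZ.1 fun f hf hf0 => by
        rw [hdeg f hf, hf0]
        simp
      exact lin_bound htr hfin hdiv Φ S ρ
  have hinf2 : ∀ l : Fin r, ∃ c2 : ℕ, ∀ P ∈ T (Fin.natAdd a l), ∀ (m : ℕ)
      (ω : (Fin (a + r) → Derivation k L L) → L),
        IsSec k L (a + r) (fun _ => False) S m 1 ω → Ge P (-(c2 : ℤ)) (ρ ^ m * ω Φ) := by
    intro l
    refine bdd_of_finite (hTfin _) (fun P c2 => ∀ (m : ℕ)
      (ω : (Fin (a + r) → Derivation k L L) → L),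
        IsSec k L (a + r) (fun _ => False) S m 1 ω → Ge P (-(c2 : ℤ)) (ρ ^ m * ω Φ)) ?_ ?_
    · intro P c1 c2 hle h m ω hω
      refine (h m ω hω).mono ?_
      have : (c1 : ℤ) ≤ c2 := by exact_mod_cast hle
      linarith
    · intro P hP
      obtain ⟨e, he, hdeg⟩ := hTdeg _ P hP
      have hvert : ∀ f : MvPolynomial (Fin (a + r)) k, f ≠ 0 → Vert f →
          P.ord (aeval (Fin.append t x) f) = 0 := by
        intro f hf hfv
        rw [hdeg f hf, degreeOf_vert hfv]
        simp
      obtain ⟨c2, hc2⟩ := x_inf htr hfin ht hz0 htop hUt hUB hUspan hF S P (fun q hq => by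
        rw [← aeval_append_vert t x]
        exact hvert _ ((map_ne_zero_iff _
          (rename_injective _ (Fin.castAdd_injective a r))).2 hq) ⟨q, rfl⟩)
      refine ⟨c2, fun m ω hω => ?_⟩
      have h1 := hc2 m ω hω
      rw [← hΦdef] at h1
      have h2 : Ge P 0 (ρ ^ m) := by
        right
        rw [hρ, P.ord_pow, P.ord_pow, hvert r0 hr00 hr0]
        simp
      have h3 := h2.mul h1
      rwa [zero_add] at h3
  choose c1 hc1 using hinf1
  choose c2 hc2 using hinf2
  -- the count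
  refine ⟨C * ((∏ j, (c1 j + c)) * ∏ l, (c2 l + c)), fun m N' hm hind => ?_⟩
  obtain ⟨ω, hlin, hsec⟩ := hind
  have h1 := hC (Fin.append (fun j => c1 j * m) c2) N' (fun l => ρ ^ m * ω l Φ)
    (lin_frame hΦspan hlin (fun l => (hsec l).1) (pow_ne_zero _ hρ0))
    (fun l p hp P hP => hfine m (ω l) (hsec l) p hp P hP) (by
      intro l b
      refine Fin.addCases (fun j P hP => ?_) (fun j P hP => ?_) b
      · rw [Fin.append_left]
        exact hc1 j P hP m (ω l) hm (hsec l)
      · rw [Fin.append_right]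
        exact hc2 j P hP m (ω l) (hsec l))
  refine h1.trans ?_
  rw [Fin.prod_univ_add]
  simp only [Fin.append_left, Fin.append_right]
  have h2 : ∏ j, (c1 j * m + c) ≤ (∏ j, (c1 j + c)) * m ^ a := by
    have h3 : (∏ j, (c1 j + c)) * m ^ a = ∏ j : Fin a, ((c1 j + c) * m) := by
      rw [Finset.prod_mul_distrib, Finset.prod_const, Finset.card_univ, Fintype.card_fin]
    rw [h3]
    refine Finset.prod_le_prod' fun j _ => ?_
    have := Nat.le_mul_of_pos_right c hm
    nlinarith
  calc C * ((∏ j, (c1 j * m + c)) * ∏ l, (c2 l + c))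
      ≤ C * (((∏ j, (c1 j + c)) * m ^ a) * ∏ l, (c2 l + c)) :=
        Nat.mul_le_mul_left _ (Nat.mul_le_mul_right _ h2)
    _ = C * ((∏ j, (c1 j + c)) * ∏ l, (c2 l + c)) * m ^ a := by ring

end Pool.Agent.Y173.QA
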