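import Pool.Agent.Y173.QA.MainB
import Pool.Agent.Y173.QA.NumU
import Pool.Agent.Y173.QA.DefsU

/-! Kodaira dimension and numerical dimension of quotients of varieties with many closed 1-forms
whose constant vector fields are regular on a projective model. -/

set_option autoImplicit false
set_option linter.overlappingInstances false
set_option linter.unusedSectionVars false

open FF IntermediateField Pool.Agent.W619.PQ Pool.Agent.W619.PL Pool.Agent.W619.TW
  Pool.Agent.W603.LV Pool.Agent.W619.Y

namespace Pool.Agent.Y173.QA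

theorem numLe_point {k L : Type} [Field k] [CharZero k] [IsAlgClosed k] [Field L] [Algebra k L]
    (hn : Algebra.trdeg k L = (0 : ℕ)) : NumLe k L 0 (fun _ => False) 0 := by
  classical
  have hinj : Function.Injective (algebraMap k L) := (algebraMap k L).injective
  have halg : Algebra.IsAlgebraic k L := by
    rw [← trdeg_eq_zero_iff, hn, Nat.cast_zero]
  have hint : Algebra.IsIntegral k L := inferInstance
  have hbij := IsAlgClosed.algebraMap_bijective_of_isIntegral (k := k) (K := L)
  have hfd : Module.Finite k L := Module.Finite.of_surjective (Algebra.linearMap k L) hbij.2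
  intro S
  refine ⟨Module.finrank k L, fun m N hm hind => ?_⟩
  obtain ⟨ω, hlin, hsec⟩ := hind
  have h1 := lin_frame (n := 0) (Φ := Fin.elim0) (c := 1) (fun D => ⟨Fin.elim0, by
    rw [Finset.univ_eq_empty, Finset.sum_empty]
    ext z
    obtain ⟨c, rfl⟩ := hbij.2 z
    rw [D.map_algebraMap]
    rfl⟩) hlin (fun l => (hsec l).1) one_ne_zero
  have h2 := h1.fintype_card_le_finrank
  rw [Fintype.card_fin] at h2
  simpa using h2

theorem mainU {k L : Type} [Field k] [CharZero k] [IsAlgClosed k] [Field L] [Algebra k L]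
    [Algebra.EssFiniteType k L] {n : ℕ} (hn : Algebra.trdeg k L = n)
    (G : Subgroup (L ≃ₐ[k] L)) [Finite G] (V : Submodule k (Derivation k L L →ₗ[L] L))
    (hreg : ∀ θ ∈ V, IsRegForm n θ) (hcl : ∀ θ ∈ V, IsClosedForm θ)
    (hstab : ∀ g ∈ G, ∀ θ ∈ V, ∃ θ' ∈ V, IsImage g θ θ')
    (hgen : ∃ (θ : Fin n → Derivation k L L →ₗ[L] L) (D : Fin n → Derivation k L L),
      (∀ i, θ i ∈ V) ∧ (Matrix.of fun i j => θ i (D j)).det ≠ 0)
    (hRT : ReidTai n G V 0) :
    ∃ a : ℕ, a + Module.finrank k (constFields V) = n ∧ KodTr k (fixedField G) n a ∧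
      (IsRegularOnModel (constFields V) → NumLe k (fixedField G) n (fun _ => False) a) := by
  obtain ⟨θ, D0, hθ, hD0⟩ := hgen
  obtain ⟨a, r, t, P, U, har, ht, hP1, hP2, htS, hU, hUt, hUspan, hUlin, hr⟩ :=
    structure_thm hn (fun y hy => fin_adj y hy) V hreg hcl hθ hD0
  refine ⟨a, by rw [hr, har], kodB G V hn hreg hstab hRT hθ hP1 ht htS, ?_⟩
  rintro ⟨N, z, hz0, htop, hUB⟩
  refine (down n hn G).2.2 a ?_
  subst har
  rcases Nat.eq_zero_or_pos (a + r) with h0 | h0
  · obtain ⟨rfl, rfl⟩ : a = 0 ∧ r = 0 := by omega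
    exact numLe_point hn
  · exact numLe_U h0 hn (fun y hy => fin_adj y hy) ht hz0 htop hUt
      (fun l i j => hUB (U l) (hU l) i j) hUspan

end Pool.Agent.Y173.QA
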