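import Pool.Agent.Y173.QA.KodB

/-! Lower bound for the Kodaira dimension of the quotient in terms of the constant vector fields. -/

set_option autoImplicit false
set_option linter.overlappingInstances false
set_option linter.unusedSectionVars false

open FF IntermediateField Pool.Agent.W619.PQ Pool.Agent.W619.PL Pool.Agent.W619.TW
  Pool.Agent.W603.LV Pool.Agent.W619.Y

namespace Pool.Agent.Y173.QA

theorem fin_adj {k L : Type} [Field k] [Field L] [Algebra k L] [Algebra.EssFiniteType k L] {n : ℕ}
    (y : Fin n → L) (hy : IsTranscendenceBasis k y) :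
    FiniteDimensional (IntermediateField.adjoin k (Set.range y)) L := by
  have halg1 : Algebra.IsAlgebraic (IntermediateField.adjoin k (Set.range y)) L :=
    hy.isAlgebraic_field
  have hess : Algebra.EssFiniteType (IntermediateField.adjoin k (Set.range y)) L :=
    Algebra.EssFiniteType.of_comp k _ L
  obtain ⟨s, hs⟩ := IntermediateField.fg_top (IntermediateField.adjoin k (Set.range y)) L
  have h1 : FiniteDimensional (IntermediateField.adjoin k (Set.range y))
      (IntermediateField.adjoin (IntermediateField.adjoin k (Set.range y)) (s : Set L)) :=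
    IntermediateField.finiteDimensional_adjoin fun x _ =>
      (halg1.isAlgebraic x).isIntegral
  rw [hs] at h1
  exact (IntermediateField.topEquiv (F := IntermediateField.adjoin k (Set.range y))
    (E := L)).toLinearEquiv.finiteDimensional

theorem mainB {k L : Type} [Field k] [CharZero k] [IsAlgClosed k] [Field L] [Algebra k L]
    [Algebra.EssFiniteType k L] {n : ℕ} (hn : Algebra.trdeg k L = n)
    (G : Subgroup (L ≃ₐ[k] L)) [Finite G] (V : Submodule k (Derivation k L L →ₗ[L] L))
    (hreg : ∀ θ ∈ V, IsRegForm n θ) (hcl : ∀ θ ∈ V, IsClosedForm θ)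
    (hstab : ∀ g ∈ G, ∀ θ ∈ V, ∃ θ' ∈ V, IsImage g θ θ')
    (hgen : ∃ (θ : Fin n → Derivation k L L →ₗ[L] L) (D : Fin n → Derivation k L L),
      (∀ i, θ i ∈ V) ∧ (Matrix.of fun i j => θ i (D j)).det ≠ 0)
    (hRT : ReidTai n G V 0) :
    ∃ a : ℕ, a + Module.finrank k (constFields V) = n ∧ KodTr k (fixedField G) n a := by
  obtain ⟨θ, D0, hθ, hD0⟩ := hgen
  obtain ⟨a, r, t, P, U, har, ht, hP1, hP2, htS, hU, hUt, hUspan, hUlin, hr⟩ :=
    structure_thm hn (fun y hy => fin_adj y hy) V hreg hcl hθ hD0
  exact ⟨a, by rw [hr, har], kodB G V hn hreg hstab hRT hθ hP1 ht htS⟩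

end Pool.Agent.Y173.QA
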