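import Pool.Agent.Y173.QA.Inf1

/-! The count of functions with bounded poles, in terms of the places of the field itself. -/

set_option autoImplicit false
set_option linter.overlappingInstances false
set_option linter.unusedSectionVars false

open FF IntermediateField Pool.Agent.W619.PQ Pool.Agent.W619.PL Pool.Agent.W619.TW
  Pool.Agent.W603.LV Pool.Agent.W619.Y Pool.Agent.TH122.AB MvPolynomial

namespace Pool.Agent.Y173.QA

variable {k : Type} [Field k] [CharZero k] {L : Type} [Field L] [Algebra k L]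

/-- the place `P` lies over the place of the degree in the variable `b` -/
def DegPl {d : ℕ} (Z : Fin d → L) (b : Fin d) (P : Place k L) : Prop :=
  ∃ e : ℕ, 0 < e ∧ ∀ f : MvPolynomial (Fin d) k, f ≠ 0 →
    P.ord (aeval Z f) = - ((e : ℤ) * degreeOf b f)

theorem over_ge {K K' : Type} [Field K] [Field K'] [Algebra k K] [Algebra k K'] [Algebra K K']
    {v : Place k K} {w : Place k K'} {e E D : ℕ} (h : Over w v e) (he : e ≤ E) {x : K}
    (hx : Ge v (-(D : ℤ)) x) : Ge w (-((E * D : ℕ) : ℤ)) (algebraMap K K' x) := by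
  rcases hx with hx | hx
  · left; rw [hx, map_zero]
  · right
    rw [h.2]
    have h1 : (e : ℤ) * (-(D : ℤ)) ≤ e * v.ord x := mul_le_mul_of_nonneg_left hx (by positivity)
    have h2 : (e : ℤ) * D ≤ E * D := by
      have : (e : ℤ) ≤ E := by exact_mod_cast he
      exact mul_le_mul_of_nonneg_right this (by positivity)
    push_cast
    linarith

theorem count_L {d : ℕ} (hd : 0 < d) {Z : Fin d → L} (hZ : IsTranscendenceBasis k Z)
    (hfd : FiniteDimensional (IntermediateField.adjoin k (Set.range Z)) L) (S : Finset L) :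
    ∃ T : Fin d → Set (Place k L), (∀ b, (T b).Finite) ∧ (∀ b, ∀ P ∈ T b, DegPl Z b P) ∧
      ∃ C c : ℕ, ∀ (D : Fin d → ℕ) (N : ℕ) (f : Fin N → L), LinearIndependent k f →
        (∀ l, ∀ p : MvPolynomial (Fin d) k, Irreducible p → ∀ P : Place k L, Adic Z p P →
          Dom P S 1 (f l)) →
        (∀ l b, ∀ P ∈ T b, Ge P (-(D b : ℤ)) (f l)) → N ≤ C * ∏ b, (D b + c) := by
  classical
  obtain ⟨K', iF, iA, iK, hT, G, hfin, iG, hT1, hT2, hfd', X, hX, hXZ, hbas⟩ :=
    Pool.Agent.TH756.PN.exists_closure hZ hfd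
  have hfintype := Fintype.ofFinite G
  have hXZ' : (fun j => algebraMap (fixedField G) L (X j)) = Z := funext hXZ
  have hae : ∀ f : MvPolynomial (Fin d) k, algebraMap (fixedField G) L (aeval X f) = aeval Z f := by
    intro f
    rw [← hXZ']
    exact (MvPolynomial.aeval_algebraMap_apply L X f).symm
  choose v0 hv0 using fun b => exists_deg_place hX b
  choose w0 e0 I0 h0 hI1 hI2 using fun b => exists_inertia G (v0 b)
  have hover : ∀ b (g : G), Over ((w0 b).comp (g : K' ≃ₐ[k] K')) (v0 b) (e0 b) :=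
    fun b g => over_comp (h0 b) g
  choose PP e1 e2 hP1 hP2 hP3 using fun b (g : G) =>
    Pool.Agent.TH756.PN.exists_restr (K := L) (hover b g)
  obtain ⟨C, c, hC⟩ := fin_bound1 hd G hX hbas hv0 h0 (S.image (algebraMap L K'))
  obtain ⟨E, hE⟩ : ∃ E : ℕ, E = 1 + ∑ b, ∑ g, e1 b g := ⟨_, rfl⟩
  have hE1 : 1 ≤ E := by omega
  have hEe : ∀ b g, e1 b g ≤ E := by
    intro b g
    have h1 : e1 b g ≤ ∑ g, e1 b g :=
      Finset.single_le_sum (f := fun g => e1 b g) (fun _ _ => Nat.zero_le _) (Finset.mem_univ g)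
    have h2 : ∑ g, e1 b g ≤ ∑ b, ∑ g, e1 b g :=
      Finset.single_le_sum (f := fun b => ∑ g, e1 b g) (fun _ _ => Nat.zero_le _)
        (Finset.mem_univ b)
    omega
  refine ⟨fun b => Set.range (PP b), fun b => Set.finite_range _, ?_, C * E ^ d, c, ?_⟩
  · rintro b _ ⟨g, rfl⟩
    refine ⟨e2 b g, (hP2 b g).1, fun f hf => ?_⟩
    rw [← hae, (hP2 b g).2, hv0 b f hf, mul_neg]
  · intro D N f hf hdom hinf
    have hlin : LinearIndependent k fun l => algebraMap L K' (f l) :=
      hf.map' (IsScalarTower.toAlgHom k L K').toLinearMap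
        (LinearMap.ker_eq_bot.2 (algebraMap L K').injective)
    have h1 := hC (fun b => E * D b) N (fun l => algebraMap L K' (f l)) hlin ?_ ?_
    · refine h1.trans ?_
      rw [mul_assoc]
      refine Nat.mul_le_mul_left C ?_
      calc ∏ b, (E * D b + c) ≤ ∏ b, (E * (D b + c)) := by
            refine Finset.prod_le_prod' fun b _ => ?_
            rw [Nat.mul_add]
            have := Nat.le_mul_of_pos_left c hE1
            omega
        _ = E ^ d * ∏ b, (D b + c) := by
            rw [Finset.prod_mul_distrib, Finset.prod_const, Finset.card_univ, Fintype.card_fin]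
    · intro l p hp v hv1 hv2
      obtain ⟨w, e, I, hwv, -, -⟩ := exists_inertia G v
      refine ⟨w, e, hwv, fun g hg => ?_⟩
      have h2 : Over (w.comp g) v e := over_comp hwv ⟨g, hg⟩
      obtain ⟨P, f1, f2, h3, h4, -⟩ := Pool.Agent.TH756.PN.exists_restr (K := L) h2
      have hP : Adic Z p P := by
        intro f hf
        rw [← hae, h4.2]
        obtain ⟨h5, h6⟩ := hv2 f hf
        have h7 : (0 : ℤ) < f2 := by exact_mod_cast h4.1
        refine ⟨mul_nonneg h7.le h5, ?_⟩
        rw [← h6]
        constructor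
        · intro h8
          rcases mul_eq_zero.1 h8 with h9 | h9
          · omega
          · exact h9
        · intro h8
          rw [h8, mul_zero]
      rcases hdom l p hp P hP with h5 | ⟨s, hs, hs0, h5⟩
      · left
        rw [h5, map_zero]
      · right
        refine ⟨algebraMap L K' s, Finset.mem_image_of_mem _ hs, (map_ne_zero _).2 hs0, ?_⟩
        rw [← Place.comp_ord, ← Place.comp_ord, h3.2, h3.2]
        refine mul_le_mul_of_nonneg_left ?_ (by positivity)
        simpa using h5
    · intro l b g hg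
      have h2 := over_ge (hP1 b ⟨g, hg⟩) (hEe b ⟨g, hg⟩) (hinf l b _ ⟨⟨g, hg⟩, rfl⟩)
      exact (ge_comp (w0 b) g _ _).1 h2

end Pool.Agent.Y173.QA
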