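import Pool.Agent.Y173.QA.Clr
import Pool.Agent.Y173.QA.Cnt

/-! The function attached to a pluricanonical form by the constant vector fields and the base
coordinates, and its poles. -/

set_option autoImplicit false
set_option linter.overlappingInstances false
set_option linter.unusedSectionVars false

open FF IntermediateField Pool.Agent.W619.PQ Pool.Agent.W619.PL Pool.Agent.W619.TW
  Pool.Agent.W603.LV Pool.Agent.W619.Y Pool.Agent.TH122.AB MvPolynomial

namespace Pool.Agent.Y173.QA

variable {k : Type} [Field k] [CharZero k] {L : Type} [Field L] [Algebra k L]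

theorem phi_eq {a r m : ℕ} {t : Fin a → L} {U : Fin r → Derivation k L L}
    (hUspan : ∀ D : Derivation k L L, (∀ j, D (t j) = 0) → ∃ c : Fin r → L, D = ∑ i, c i • U i)
    {ω : (Fin (a + r) → Derivation k L L) → L} (hω : IsPluriForm k L (a + r) m ω)
    {F F' : Fin a → Derivation k L L} (h : ∀ j l, F j (t l) = F' j (t l)) :
    ω (Fin.append F U) = ω (Fin.append F' U) := by
  classical
  choose c hc using fun j => hUspan (F' j - F j) (fun l => by
    rw [Derivation.sub_apply, h, sub_self])
  obtain ⟨M, hM⟩ : ∃ M : Matrix (Fin (a + r)) (Fin (a + r)) L,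
      M = Matrix.reindex finSumFinEquiv finSumFinEquiv
        (Matrix.fromBlocks (1 : Matrix (Fin a) (Fin a) L) (Matrix.of c) 0
          (1 : Matrix (Fin r) (Fin r) L)) := ⟨_, rfl⟩
  have hdet : M.det = 1 := by
    rw [hM, Matrix.det_reindex_self, Matrix.det_fromBlocks_zero₂₁, Matrix.det_one, Matrix.det_one,
      mul_one]
  have h1 := hω M (Fin.append F U)
  rw [hdet, one_pow, one_mul] at h1
  rw [← h1]
  congr 1
  funext i
  rw [Fin.sum_univ_add]
  refine Fin.addCases (fun i => ?_) (fun i => ?_) i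
  · have e1 : ∑ j : Fin a, M (Fin.castAdd r i) (Fin.castAdd r j) •
        Fin.append F U (Fin.castAdd r j) = F i := by
      rw [Finset.sum_eq_single i]
      · simp [hM]
      · intro j _ hj
        simp [hM, Matrix.one_apply_ne (Ne.symm hj)]
      · intro hi
        exact absurd (Finset.mem_univ _) hi
    have e2 : ∑ l : Fin r, M (Fin.castAdd r i) (Fin.natAdd a l) •
        Fin.append F U (Fin.natAdd a l) = F' i - F i := by
      rw [hc i]
      refine Finset.sum_congr rfl fun l _ => ?_
      simp [hM]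
    rw [e1, e2, Fin.append_left]
    abel
  · have e1 : ∑ j : Fin a, M (Fin.natAdd a i) (Fin.castAdd r j) •
        Fin.append F U (Fin.castAdd r j) = 0 := by
      refine Finset.sum_eq_zero fun j _ => ?_
      simp [hM]
    have e2 : ∑ l : Fin r, M (Fin.natAdd a i) (Fin.natAdd a l) •
        Fin.append F U (Fin.natAdd a l) = U i := by
      rw [Finset.sum_eq_single i]
      · simp [hM]
      · intro j _ hj
        simp [hM, Matrix.one_apply_ne (Ne.symm hj)]
      · intro hi
        exact absurd (Finset.mem_univ _) hi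
    rw [e1, e2, Fin.append_right, zero_add]

theorem phi_smul {n m : ℕ} {ω : (Fin n → Derivation k L L) → L} (hω : IsPluriForm k L n m ω)
    (c : L) (D : Fin n → Derivation k L L) : ω (fun i => c • D i) = (c ^ n) ^ m * ω D := by
  classical
  have h1 := hω (Matrix.diagonal fun _ => c) D
  rw [Matrix.det_diagonal, Finset.prod_const, Finset.card_univ, Fintype.card_fin] at h1
  rw [← h1]
  congr 1
  funext i
  rw [Finset.sum_eq_single i]
  · rw [Matrix.diagonal_apply_eq]
  · intro j _ hj
    rw [Matrix.diagonal_apply_ne _ (Ne.symm hj), zero_smul]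
  · intro hi
    exact absurd (Finset.mem_univ _) hi

/-- linearly independent forms have linearly independent values on a frame -/
theorem lin_frame {n N m : ℕ} {Φ : Fin n → Derivation k L L}
    (hΦ : ∀ D : Derivation k L L, ∃ c : Fin n → L, D = ∑ i, c i • Φ i)
    {ω : Fin N → (Fin n → Derivation k L L) → L} (hlin : LinearIndependent k ω)
    (hω : ∀ l, IsPluriForm k L n m (ω l)) {c : L} (hc : c ≠ 0) :
    LinearIndependent k fun l => c * ω l Φ := by
  rw [Fintype.linearIndependent_iff] at hlin ⊢
  intro a ha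
  apply hlin a
  have h0 : ∑ l, a l • ω l Φ = 0 := by
    have h1 : c * (∑ l, a l • ω l Φ) = 0 := by
      rw [Finset.mul_sum, ← ha]
      refine Finset.sum_congr rfl fun l _ => ?_
      rw [mul_smul_comm]
    exact (mul_eq_zero.1 h1).resolve_left hc
  funext D'
  choose M hM using fun i => hΦ (D' i)
  rw [Finset.sum_apply, Pi.zero_apply]
  have h2 : ∀ l, (a l • ω l) D' = (Matrix.of M).det ^ m * (a l • ω l Φ) := by
    intro l
    rw [Pi.smul_apply]
    have h3 := hω l (Matrix.of M) Φ
    simp only [Matrix.of_apply] at h3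
    have h4 : D' = fun i => ∑ j, M i j • Φ j := funext hM
    conv_lhs => rw [h4]
    rw [h3, mul_smul_comm]
  rw [Finset.sum_congr rfl fun l _ => h2 l, ← Finset.mul_sum, h0, mul_zero]

theorem dom_hor {a r : ℕ} (htr : Algebra.trdeg k L = (a + r : ℕ))
    (hfin : ∀ y : Fin (a + r) → L, IsTranscendenceBasis k y →
      FiniteDimensional (IntermediateField.adjoin k (Set.range y)) L)
    {t : Fin a → L} {B : Set L} {x : Fin r → L} (hch : Chart k t B x)
    (htop : IntermediateField.adjoin k B = ⊤) {U : Fin r → Derivation k L L}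
    (hUt : ∀ i j, U i (t j) = 0) (hUB : ∀ i, ∀ b ∈ B, U i b ∈ Algebra.adjoin k B)
    (hUspan : ∀ D : Derivation k L L, (∀ j, D (t j) = 0) → ∃ c : Fin r → L, D = ∑ i, c i • U i)
    {F : Fin a → Derivation k L L} (hF : ∀ j l, F j (t l) = if j = l then 1 else 0)
    {S : Finset L} {m : ℕ} {ω : (Fin (a + r) → Derivation k L L) → L}
    (hω : IsSec k L (a + r) (fun _ => False) S m 1 ω)
    {p : MvPolynomial (Fin (a + r)) k} (hp : Irreducible p) (hpv : ¬ Vert p) {P : Place k L}
    (hP : Adic (Fin.append t x) p P) : Dom P S 1 (ω (Fin.append F U)) := by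
  obtain ⟨l0, hl0⟩ := exists_of_not_vert hpv
  obtain ⟨hdiv, hU, F', hF', hF't⟩ := hor htr hfin hch htop hUt hUB hp hl0 hP
  rw [phi_eq hUspan hω.1 (F := F) (F' := F') fun j l => by rw [hF, hF't]]
  refine hω.2.1 P hdiv (fun h => h) _ fun l => ?_
  refine Fin.addCases (fun j => ?_) (fun j => ?_) l
  · rw [Fin.append_left]
    exact hF' j
  · rw [Fin.append_right]
    exact hU j

theorem div_of_deg {d : ℕ} {Z : Fin d → L} (hZ : AlgebraicIndependent k Z) {b : Fin d}
    {P : Place k L}
    (h : ∀ f : MvPolynomial (Fin d) k, f ≠ 0 → degreeOf b f = 0 → P.ord (aeval Z f) = 0) :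
    IsDivisorial P d := by
  classical
  obtain ⟨d', rfl⟩ := Nat.exists_eq_succ_of_ne_zero (show d ≠ 0 by
    rintro rfl
    exact b.elim0)
  have hy : ∀ q : MvPolynomial (Fin d') k, q ≠ 0 →
      aeval (fun j => Z (b.succAbove j)) q ≠ 0 ∧
        P.ord (aeval (fun j => Z (b.succAbove j)) q) = 0 := by
    intro q hq
    have h0 : rename b.succAbove q ≠ 0 :=
      (map_ne_zero_iff _ (rename_injective _ Fin.succAbove_right_injective)).2 hq
    have h1 : aeval Z (rename b.succAbove q) = aeval (fun j => Z (b.succAbove j)) q := by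
      rw [aeval_rename]
      rfl
    rw [← h1]
    exact ⟨fun h2 => h0 ((injective_iff_map_eq_zero _).1 hZ _ h2),
      h _ h0 (degreeOf_rename_succAbove b q)⟩
  exact ⟨fun j => Z (b.succAbove j), hy⟩

theorem adic_div {d : ℕ} {Z : Fin d → L} (hZ : AlgebraicIndependent k Z)
    {p : MvPolynomial (Fin d) k} (hp : Irreducible p) {P : Place k L} (hP : Adic Z p P) :
    IsDivisorial P d := by
  obtain ⟨b, hb0, -⟩ := exists_pderiv hp
  have hb : degreeOf b p ≠ 0 := by
    intro h0
    apply hb0
    apply pderiv_eq_zero_of_notMem_vars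
    intro h1
    exact mem_vars_of h1 h0
  exact div_of_deg hZ (b := b) fun f hf hf0 => (hP f hf).2.2 (not_dvd_of_degreeOf hb hf0 hf)

/-- the poles at the places which are trivial on the base coordinates are bounded -/
theorem x_inf {a r N : ℕ} (htr : Algebra.trdeg k L = (a + r : ℕ))
    (hfin : ∀ y : Fin (a + r) → L, IsTranscendenceBasis k y →
      FiniteDimensional (IntermediateField.adjoin k (Set.range y)) L)
    {t : Fin a → L} (ht : AlgebraicIndependent k t) {z : Fin (N + 1) → L} (hz0 : ∀ i, z i ≠ 0)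
    (htop : ∀ i, IntermediateField.adjoin k (Set.range fun j => z j / z i) = ⊤)
    {U : Fin r → Derivation k L L} (hUt : ∀ i j, U i (t j) = 0)
    (hUB : ∀ l i j, U l (z j / z i) ∈ Algebra.adjoin k (Set.range fun j => z j / z i))
    (hUspan : ∀ D : Derivation k L L, (∀ j, D (t j) = 0) → ∃ c : Fin r → L, D = ∑ i, c i • U i)
    {F : Fin a → Derivation k L L} (hF : ∀ j l, F j (t l) = if j = l then 1 else 0)
    (S : Finset L) (w : Place k L)
    (hq : ∀ q : MvPolynomial (Fin a) k, q ≠ 0 → w.ord (aeval t q) = 0) :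
    ∃ c : ℕ, ∀ (m : ℕ) (ω : (Fin (a + r) → Derivation k L L) → L),
      IsSec k L (a + r) (fun _ => False) S m 1 ω → Ge w (-(c : ℤ)) (ω (Fin.append F U)) := by
  classical
  obtain ⟨i, hi⟩ := Finite.exists_min fun i => w.ord (z i)
  obtain ⟨x, hch⟩ := exists_chart htr ht (Set.finite_range fun j => z j / z i) (htop i)
  have hZ := hch.bas
  have hBw : ∀ b ∈ Set.range (fun j => z j / z i), w.Reg b := by
    rintro _ ⟨j, rfl⟩
    right
    change 0 ≤ w.ord (z j / z i)
    rw [w.ord_div (hz0 j) (hz0 i)]
    have := hi j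
    linarith
  have hxw' : ∀ y ∈ Algebra.adjoin (IntermediateField.adjoin k (Set.range t))
      (Set.range fun j => z j / z i), w.Reg y := by
    intro y hy
    induction hy using Algebra.adjoin_induction with
    | mem y hy => exact hBw y hy
    | algebraMap c => exact Or.inr (ord_base hq c.2).ge
    | add y y' _ _ hy hy' => exact w.reg_add hy hy'
    | mul y y' _ _ hy hy' => exact w.reg_mul hy hy'
  have hxw : ∀ l, w.Reg (x l) := fun l => hxw' _ (hch.mem l)
  -- the common denominator of `S`
  choose q hq0 hqi using fun s : L => exists_mult hZ s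
  obtain ⟨Q, hQ⟩ : ∃ Q, Q = ∏ s ∈ S, q s := ⟨_, rfl⟩
  have hQ0 : Q ≠ 0 := by
    rw [hQ]
    exact Finset.prod_ne_zero_iff.2 fun s _ => hq0 _
  have hQZ : aeval (Fin.append t x) Q ≠ 0 := fun h0 =>
    hQ0 ((injective_iff_map_eq_zero _).1 hZ.1 _ h0)
  have hQS : ∀ s ∈ S, ∀ P : Place k L,
      (∀ f : MvPolynomial (Fin (a + r)) k, P.Reg (aeval (Fin.append t x) f)) →
      P.Reg (aeval (Fin.append t x) Q * s) := by
    intro s hs P hP
    rw [hQ, ← Finset.mul_prod_erase S q hs, map_mul, mul_comm (aeval _ (q s)), mul_assoc]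
    exact P.reg_mul (hP _) (reg_of_int hP (hqi s))
  refine ⟨(w.ord (aeval (Fin.append t x) Q)).natAbs, fun m ω hω => ?_⟩
  have h1 : w.Reg (aeval (Fin.append t x) Q * ω (Fin.append F U)) := by
    refine hartogs hZ (hfin _ hZ) (fun p hp hpv P hP => ?_) hq hxw
    have h2 := dom_hor htr hfin hch (htop i) hUt (fun l b hb => by
      obtain ⟨j, rfl⟩ := hb
      exact hUB l i j) hUspan hF hω hp hpv hP
    rcases h2 with h2 | ⟨s, hs, hs0, h2⟩
    · rw [h2, mul_zero]
      exact P.reg_zero
    · by_cases h0 : ω (Fin.append F U) = 0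
      · rw [h0, mul_zero]
        exact P.reg_zero
      have h3 := (hQS s hs P (adic_reg hP)).resolve_left (mul_ne_zero hQZ hs0)
      right
      rw [P.ord_mul hQZ hs0] at h3
      rw [P.ord_mul hQZ h0]
      push_cast at h2
      linarith
  by_cases h0 : ω (Fin.append F U) = 0
  · exact Or.inl h0
  right
  have h2 := h1.resolve_left (mul_ne_zero hQZ h0)
  rw [w.ord_mul hQZ h0] at h2
  omega

end Pool.Agent.Y173.QA
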