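import Pool.Agent.Y173.QA.Hart

/-! Every derivation is regular at all places over the irreducible polynomials after multiplication
by a polynomial. -/

set_option autoImplicit false
set_option linter.overlappingInstances false
set_option linter.unusedSectionVars false

open FF IntermediateField Pool.Agent.W619.PQ Pool.Agent.W619.PL Pool.Agent.W619.TW
  Pool.Agent.W603.LV Pool.Agent.W619.Y Pool.Agent.TH122.AB MvPolynomial

namespace Pool.Agent.Y173.QA

variable {k : Type} [Field k] [CharZero k] {L : Type} [Field L] [Algebra k L]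

/-- a common denominator for finitely many elements of the field of the coordinates -/
theorem exists_den {d : ℕ} {Z : Fin d → L} (T : Finset L)
    (hT : ∀ z ∈ T, z ∈ IntermediateField.adjoin k (Set.range Z)) :
    ∃ Q : MvPolynomial (Fin d) k, aeval Z Q ≠ 0 ∧
      ∀ z ∈ T, ∃ P : MvPolynomial (Fin d) k, aeval Z Q * z = aeval Z P := by
  classical
  induction T using Finset.induction_on with
  | empty => exact ⟨1, by rw [map_one]; exact one_ne_zero, fun z hz => absurd hz (Finset.notMem_empty z)⟩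
  | insert z T hzT ih =>
    obtain ⟨Q, hQ, hQT⟩ := ih fun z hz => hT z (Finset.mem_insert_of_mem hz)
    have hz := hT z (Finset.mem_insert_self z T)
    rw [IntermediateField.mem_adjoin_range_iff] at hz
    obtain ⟨f, g, hfg⟩ := hz
    by_cases hg : aeval Z g = 0
    · refine ⟨Q, hQ, fun y hy => ?_⟩
      rcases Finset.mem_insert.1 hy with rfl | hy
      · exact ⟨0, by rw [hfg, hg, div_zero, mul_zero, map_zero]⟩
      · exact hQT y hy
    · refine ⟨g * Q, by rw [map_mul]; exact mul_ne_zero hg hQ, fun y hy => ?_⟩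
      rcases Finset.mem_insert.1 hy with rfl | hy
      · refine ⟨f * Q, ?_⟩
        rw [map_mul, map_mul, hfg]
        field_simp
      · obtain ⟨P, hP⟩ := hQT y hy
        exact ⟨g * P, by rw [map_mul, map_mul, mul_assoc, hP]⟩

theorem exists_clear {d : ℕ} {Z : Fin d → L} (hZ : IsTranscendenceBasis k Z)
    (hfd : FiniteDimensional (IntermediateField.adjoin k (Set.range Z)) L)
    (D : Derivation k L L) :
    ∃ Q : MvPolynomial (Fin d) k, Q ≠ 0 ∧ ∀ p : MvPolynomial (Fin d) k, Irreducible p →
      ∀ P : Place k L, Adic Z p P → Pres P (aeval Z Q • D) := by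
  classical
  let K : IntermediateField k L := IntermediateField.adjoin k (Set.range Z)
  have hfdK : FiniteDimensional K L := hfd
  let b := Module.finBasis K L
  let δ := Module.finrank K L
  have hZ0 : ∀ f : MvPolynomial (Fin d) k, f ≠ 0 → aeval Z f ≠ 0 := fun f hf h0 =>
    hf ((injective_iff_map_eq_zero _).1 hZ.1 _ h0)
  have hZK : ∀ f : MvPolynomial (Fin d) k, aeval Z f ∈ K := by
    intro f
    refine IntermediateField.algebra_adjoin_le_adjoin k _ ?_
    rw [Algebra.adjoin_range_eq_range_aeval]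
    exact ⟨f, rfl⟩
  -- the integral basis
  choose q hq0 hq using fun z : L => exists_mult hZ z
  obtain ⟨Q1, hQ1⟩ : ∃ Q1, Q1 = ∏ s, q (b s) := ⟨_, rfl⟩
  have hQ10 : Q1 ≠ 0 := by
    rw [hQ1]
    exact Finset.prod_ne_zero_iff.2 fun s _ => hq0 _
  obtain ⟨α, hαdef⟩ : ∃ α : Fin δ → L, ∀ s, α s = aeval Z Q1 * b s := ⟨_, fun _ => rfl⟩
  have hα : ∀ s, ∀ w : Place k L, (∀ f : MvPolynomial (Fin d) k, w.Reg (aeval Z f)) →
      w.Reg (α s) := by
    intro s w hw
    rw [hαdef, hQ1, ← Finset.mul_prod_erase Finset.univ (fun s => q (b s)) (Finset.mem_univ s),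
      map_mul, mul_comm (aeval Z (q (b s))), mul_assoc]
    exact w.reg_mul (hw _) (reg_of_int hw (hq (b s)))
  have hexp : ∀ z : L, ∃ c : Fin δ → L, (∀ s, c s ∈ K) ∧ z = ∑ s, c s * α s := by
    intro z
    refine ⟨fun s => (b.repr z s : L) / aeval Z Q1, fun s => K.div_mem (b.repr z s).2 (hZK Q1), ?_⟩
    conv_lhs => rw [← b.sum_repr z]
    refine Finset.sum_congr rfl fun s _ => ?_
    rw [hαdef, div_mul_eq_mul_div, mul_comm (aeval Z Q1), ← mul_assoc,
      mul_div_cancel_right₀ _ (hZ0 _ hQ10)]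
    rfl
  choose c hcK hc using hexp
  obtain ⟨Q, hQ, hQT⟩ := exists_den (k := k) (Z := Z)
    ((Finset.univ.biUnion fun j : Fin d => Finset.univ.image (c (D (Z j)))) ∪
      (Finset.univ.biUnion fun s : Fin δ => Finset.univ.image (c (D (α s))))) (by
    intro z hz
    rcases Finset.mem_union.1 hz with hz | hz
    · obtain ⟨j, -, hz⟩ := Finset.mem_biUnion.1 hz
      obtain ⟨s, -, rfl⟩ := Finset.mem_image.1 hz
      exact hcK _ s
    · obtain ⟨j, -, hz⟩ := Finset.mem_biUnion.1 hz
      obtain ⟨s, -, rfl⟩ := Finset.mem_image.1 hz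
      exact hcK _ s)
  have hQ1' : ∀ j s, ∃ P : MvPolynomial (Fin d) k, aeval Z Q * c (D (Z j)) s = aeval Z P :=
    fun j s => hQT _ (Finset.mem_union_left _ (Finset.mem_biUnion.2 ⟨j, Finset.mem_univ j,
      Finset.mem_image_of_mem _ (Finset.mem_univ s)⟩))
  have hQ2' : ∀ j s, ∃ P : MvPolynomial (Fin d) k, aeval Z Q * c (D (α j)) s = aeval Z P :=
    fun j s => hQT _ (Finset.mem_union_right _ (Finset.mem_biUnion.2 ⟨j, Finset.mem_univ j,
      Finset.mem_image_of_mem _ (Finset.mem_univ s)⟩))
  refine ⟨Q, fun h => hQ (by rw [h, map_zero]), fun p hp P hP => ?_⟩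
  -- the place below
  let X' : Fin d → K := fun j => ⟨Z j, IntermediateField.subset_adjoin k _ ⟨j, rfl⟩⟩
  have hX' : Gens (k := k) X' := gens_of (Z := Z) hZ.1 (E := K) rfl fun j => rfl
  have halg : Algebra.IsAlgebraic K L := inferInstance
  obtain ⟨e, v, hPv⟩ := Pool.Agent.W73.PG.PULL.exists_over' (K := K) P
  have hae : ∀ f : MvPolynomial (Fin d) k, algebraMap K L (aeval X' f) = aeval Z f :=
    fun f => (MvPolynomial.aeval_algebraMap_apply L X' f).symm
  have he : (0 : ℤ) < e := by exact_mod_cast hPv.1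
  have hv : ∀ f : MvPolynomial (Fin d) k, f ≠ 0 →
      0 ≤ v.ord (aeval X' f) ∧ (v.ord (aeval X' f) = 0 ↔ ¬ p ∣ f) := by
    intro f hf
    obtain ⟨h1, h2⟩ := hP f hf
    rw [← hae, hPv.2] at h1 h2
    refine ⟨nonneg_of_mul_nonneg_right h1 he, ?_⟩
    rw [← h2]
    constructor
    · intro h3
      rw [h3, mul_zero]
    · intro h3
      rcases mul_eq_zero.1 h3 with h4 | h4
      · omega
      · exact h4
  let A : Subring L := Subring.closure ((algebraMap K L) '' {z | v.Reg z} ∪ Set.range α)
  have hOA : ∀ z : K, v.Reg z → algebraMap K L z ∈ A := fun z hz =>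
    Subring.subset_closure (Or.inl ⟨z, hz, rfl⟩)
  have hαA : ∀ s, α s ∈ A := fun s => Subring.subset_closure (Or.inr ⟨s, rfl⟩)
  have hpolyA : ∀ f : MvPolynomial (Fin d) k, aeval Z f ∈ A := by
    intro f
    rw [← hae]
    refine hOA _ ?_
    by_cases hf : f = 0
    · rw [hf, map_zero]; exact v.reg_zero
    · exact Or.inr (hv f hf).1
  have hsum : ∀ z : L, (∀ s, ∃ P : MvPolynomial (Fin d) k, aeval Z Q * c z s = aeval Z P) →
      aeval Z Q * z ∈ A := by
    intro z hz
    have h1 : aeval Z Q * z = ∑ s, aeval Z Q * c z s * α s := by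
      conv_lhs => rw [hc z]
      rw [Finset.mul_sum]
      exact Finset.sum_congr rfl fun s _ => (mul_assoc _ _ _).symm
    rw [h1]
    refine A.sum_mem fun s _ => ?_
    obtain ⟨P, hP⟩ := hz s
    rw [hP]
    exact A.mul_mem (hpolyA P) (hαA s)
  have hUZ : ∀ j, (aeval Z Q • D) (Z j) ∈ A := by
    intro j
    rw [Derivation.smul_apply, smul_eq_mul]
    exact hsum _ (hQ1' j)
  have hUα : ∀ j, (aeval Z Q • D) (α j) ∈ A := by
    intro j
    rw [Derivation.smul_apply, smul_eq_mul]
    exact hsum _ (hQ2' j)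
  have hUpoly := der_poly (aeval Z Q • D) A hpolyA hUZ
  refine sei hPv (aeval Z Q • D) A hOA ?_ ?_ ?_
  · intro z hz
    induction hz using Subring.closure_induction with
    | mem z hz =>
      rcases hz with ⟨z, hz, rfl⟩ | ⟨s, rfl⟩
      · exact hPv.reg.2 hz
      · exact hα s P (adic_reg hP)
    | zero => exact P.reg_zero
    | one => exact P.reg_one
    | add y z _ _ hy hz => exact P.reg_add hy hz
    | neg z _ hz =>
      have : Ge P 0 z := hz
      exact this.neg
    | mul y z _ _ hy hz => exact P.reg_mul hy hz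
  · intro z hz
    induction hz using Subring.closure_induction with
    | mem z hz =>
      rcases hz with ⟨z, hz, rfl⟩ | ⟨s, rfl⟩
      · obtain ⟨f, g, hg, hpg, rfl⟩ := frac_of_reg hX' hp hv hz
        have hginv : (aeval Z g)⁻¹ ∈ A := by
          rw [← hae, ← map_inv₀]
          apply hOA
          right
          rw [v.ord_inv, (hv g hg).2.2 hpg]
          simp
        rw [map_div₀, hae, hae, div_eq_mul_inv, Derivation.leibniz, Derivation.leibniz_inv]
        simp only [smul_eq_mul]
        refine A.add_mem (A.mul_mem (hpolyA f) (A.mul_mem (A.neg_mem (A.pow_mem hginv 2))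
          (hUpoly g))) (A.mul_mem hginv (hUpoly f))
      · exact hUα s
    | zero => rw [map_zero]; exact A.zero_mem
    | one => rw [Derivation.map_one_eq_zero]; exact A.zero_mem
    | add y z _ _ hy hz => rw [map_add]; exact A.add_mem hy hz
    | neg z _ hz => rw [map_neg]; exact A.neg_mem hz
    | mul y z hy' hz' hy hz =>
      rw [Derivation.leibniz, smul_eq_mul, smul_eq_mul]
      exact A.add_mem (A.mul_mem hy' hz) (A.mul_mem hz' hy)
  · intro z
    obtain ⟨g, hg, hgT⟩ := exists_den (k := k) (Z := Z) (Finset.univ.image (c z)) (by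
      intro y hy
      obtain ⟨s, -, rfl⟩ := Finset.mem_image.1 hy
      exact hcK _ s)
    refine ⟨aeval Z g, hpolyA g, hg, ?_⟩
    have h1 : aeval Z g * z = ∑ s, aeval Z g * c z s * α s := by
      conv_lhs => rw [hc z]
      rw [Finset.mul_sum]
      exact Finset.sum_congr rfl fun s _ => (mul_assoc _ _ _).symm
    rw [h1]
    refine A.sum_mem fun s _ => ?_
    obtain ⟨P, hP⟩ := hgT _ (Finset.mem_image_of_mem _ (Finset.mem_univ s))
    rw [hP]
    exact A.mul_mem (hpolyA P) (hαA s)

end Pool.Agent.Y173.QA
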