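import Pool.Agent.W619.Y.Parts
import Pool.Agent.W619.TW.Rot

/-! Pluricanonical forms on a Galois cover, on the vector fields of the quotient which are regular
at a place. -/

set_option autoImplicit false
set_option linter.overlappingInstances false
set_option linter.unusedSectionVars false

universe u v

open FF IntermediateField Pool.Agent.W619.PQ Pool.Agent.W619.PL Pool.Agent.W619.TW
  Pool.Agent.W603.LV Pool.Agent.W619.Y

namespace Pool.Agent.Y173.QA

section

variable {k : Type v} {L : Type u} [Field k] [CharZero k] [Field L] [Algebra k L]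

theorem over_comp {G : Subgroup (L ≃ₐ[k] L)} {v : Place k (fixedField G)} {w : Place k L} {e : ℕ}
    (h : Over w v e) (g : G) : Over (w.comp (g : L ≃ₐ[k] L)) v e := by
  refine ⟨h.1, fun f => ?_⟩
  rw [Place.comp_ord]
  have h1 : (g : L ≃ₐ[k] L) (algebraMap (fixedField G) L f) = algebraMap (fixedField G) L f :=
    f.2 g
  rw [h1, h.2]

theorem ge_comp (w : Place k L) (g : L ≃ₐ[k] L) (N : ℤ) (f : L) :
    Ge (w.comp g) N f ↔ Ge w N (g f) := by
  unfold Ge
  rw [Place.comp_ord, map_eq_zero_iff g g.injective]

theorem fd_fixed (G : Subgroup (L ≃ₐ[k] L)) [Finite G] : FiniteDimensional (fixedField G) L := by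
  have hGal : IsGaloisGroup G (fixedField G) L := isGaloisGroup_fixed G
  exact IsGaloisGroup.finiteDimensional G (fixedField G) L

theorem trdeg_fixed (G : Subgroup (L ≃ₐ[k] L)) [Finite G] {n : ℕ} (h : Algebra.trdeg k L = n) :
    Algebra.trdeg k (fixedField G) = n := by
  have hfd := fd_fixed G
  have halg : Algebra.IsAlgebraic (fixedField G) L := inferInstance
  exact (Pool.Agent.W721.PG.EFF2.exists_basis (fixedField G) n h).1

/-- the extension of a derivation of the quotient commutes with the group -/
theorem ext_comm (G : Subgroup (L ≃ₐ[k] L)) [Finite G] {n : ℕ} (h : Algebra.trdeg k L = n)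
    (E : Derivation k (fixedField G) (fixedField G)) (E' : Derivation k L L)
    (hE : ∀ f : fixedField G, E' (f : L) = (E f : L)) (g : G) (z : L) :
    (g : L ≃ₐ[k] L) (E' z) = E' ((g : L ≃ₐ[k] L) z) := by
  have hfd := fd_fixed G
  have halg : Algebra.IsAlgebraic (fixedField G) L := inferInstance
  obtain ⟨E0, hE0, huniq, hg⟩ := pEXT k (fixedField G) L n (trdeg_fixed G h) E
  have h5 : E' = E0 := huniq E' hE
  rw [h5]
  exact hg g (fun f => f.2 g) z

/-- a pluricanonical form on a changed family of vector fields -/
theorem pluri_change {n m : ℕ} {ω : (Fin n → Derivation k L L) → L} (hω : IsPluriForm k L n m ω)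
    (D' : Fin n → Derivation k L L) (j0 : Fin n) (c u : Fin n → L) (hc : c j0 = 0) :
    ω (fun j => u j • (D' j + c j • D' j0)) = (∏ j, u j) ^ m * ω D' := by
  classical
  have h1 := hω (Matrix.of fun i j => u i * ((if i = j then 1 else 0) + c i * if j = j0 then 1 else 0)) D'
  have h2 : (fun i => ∑ j, (Matrix.of fun i j => u i * ((if i = j then (1 : L) else 0) +
      c i * if j = j0 then 1 else 0)) i j • D' j) = fun j => u j • (D' j + c j • D' j0) := by
    funext i
    simp only [Matrix.of_apply]
    have h3 : ∀ j, (u i * ((if i = j then (1 : L) else 0) + c i * if j = j0 then 1 else 0)) • D' j =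
        u i • ((if i = j then D' j else 0) + c i • (if j = j0 then D' j else 0)) := by
      intro j
      rw [mul_smul, add_smul, mul_smul]
      congr 2
      · split_ifs <;> simp
      · split_ifs <;> simp
    rw [Finset.sum_congr rfl fun j _ => h3 j, ← Finset.smul_sum, Finset.sum_add_distrib,
      ← Finset.smul_sum, Finset.sum_ite_eq, Finset.sum_ite_eq', if_pos (Finset.mem_univ _),
      if_pos (Finset.mem_univ _)]
  rw [h2] at h1
  rw [h1]
  congr 2
  have h4 : (Matrix.of fun i j => u i * ((if i = j then (1 : L) else 0) +
      c i * if j = j0 then 1 else 0)) = Matrix.of fun i j => u i *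
        (Matrix.of fun i j => ((if i = j then (1 : L) else 0) + c i * if j = j0 then 1 else 0)) i j := by
    rfl
  rw [h4, Matrix.det_mul_column]
  have h5 : (Matrix.of fun i j => ((if i = j then (1 : L) else 0) +
      c i * if j = j0 then 1 else 0)).det = (1 : Matrix (Fin n) (Fin n) L).det := by
    refine Matrix.det_eq_of_forall_row_eq_smul_add_const c j0 hc fun i j => ?_
    rw [Matrix.of_apply, Matrix.one_apply, Matrix.one_apply]
    congr 2
    simp [eq_comm]
  rw [h5, Matrix.det_one, mul_one]

/-- **The local estimate.** A pluricanonical form `ω` on the cover has order at least `N` on the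
vector fields of the quotient which are regular at the place `v`, if this holds for regular vector
fields at unramified places, and `ω` has order at least `N + m e` on the invariant logarithmic
vector fields at ramified places. -/
theorem core (G : Subgroup (L ≃ₐ[k] L)) [Finite G] {n m : ℕ} (htr : Algebra.trdeg k L = n)
    {v : Place k (fixedField G)} {w : Place k L} {e : ℕ} (hwv : Over w v e) (h : G)
    {ω : (Fin n → Derivation k L L) → L} (hω : IsPluriForm k L n m ω) (N : ℤ)
    (hlog : 2 ≤ e → ∀ E' : Fin n → Derivation k L L, (∀ j z, w.Reg (E' j z / z)) →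
      (∀ j z, (h : L ≃ₐ[k] L) (E' j z) = E' j ((h : L ≃ₐ[k] L) z)) → Ge w (N + m * e) (ω E'))
    (hreg : e = 1 → ∀ E' : Fin n → Derivation k L L, (∀ j, Pres w (E' j)) → Ge w N (ω E'))
    (D : Fin n → Derivation k (fixedField G) (fixedField G))
    (D' : Fin n → Derivation k L L) (hD : ∀ j, Pres v (D j))
    (hDD : ∀ j (f : fixedField G), D' j (f : L) = (D j f : L)) : Ge w N (ω D') := by
  classical
  have hfd := fd_fixed G
  by_cases he1 : e = 1
  · refine hreg he1 D' fun j => ?_
    refine pPRES k (fixedField G) L v w e hwv (D' j) ?_ (Or.inl he1)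
    intro f hf
    have h5 : D' j (algebraMap (fixedField G) L f) = algebraMap (fixedField G) L (D j f) :=
      hDD j f
    rw [h5]
    exact hwv.reg.2 (hD j f hf)
  have he2 : 2 ≤ e := by
    have := hwv.1
    omega
  obtain ⟨s, hs0, hs⟩ := v.surj
  have hsL : algebraMap (fixedField G) L s ≠ 0 := by simpa using hs0
  have hlogcase : ∀ (E : Fin n → Derivation k (fixedField G) (fixedField G))
      (E' : Fin n → Derivation k L L), (∀ j, Pres v (E j)) →
      (∀ j (f : fixedField G), E' j (f : L) = (E j f : L)) →
      (∀ j, v.Reg (E j s / s)) → Ge w (N + m * e) (ω E') := by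
    intro E E' hE hEE hEs
    refine hlog he2 E' ?_ ?_
    · intro j
      refine pLOG k (fixedField G) L v w e hwv (E' j) ?_
      intro f
      have h5 : v.Reg (E j f / f) := log_of_pres v (E j) (hE j) hs0 hs (hEs j) f
      have h6 : E' j (algebraMap (fixedField G) L f) / algebraMap (fixedField G) L f =
          algebraMap (fixedField G) L (E j f / f) := by
        rw [map_div₀]
        congr 1
        exact hEE j f
      rw [h6]
      exact hwv.reg.2 h5
    · intro j z
      exact ext_comm G htr (E j) (E' j) (hEE j) h z
  by_cases hlg : ∀ j, v.Reg (D j s / s)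
  · exact (hlogcase D D' hD hDD hlg).mono (by
      have : (0 : ℤ) ≤ m * e := by positivity
      linarith)
  push Not at hlg
  obtain ⟨j0, hj0⟩ := hlg
  have h5 : v.Reg (D j0 s) := hD j0 s (Or.inr (by omega))
  have h6 : D j0 s ≠ 0 := by
    intro h6
    apply hj0
    left
    rw [h6, zero_div]
  have h7 : v.ord (D j0 s) = 0 := by
    have h8 : 0 ≤ v.ord (D j0 s) := h5.resolve_left h6
    by_contra h9
    apply hj0
    right
    rw [v.ord_div h6 hs0, hs]
    omega
  let c : Fin n → fixedField G := fun j => if j = j0 then 0 else -(D j s / D j0 s)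
  let u : Fin n → fixedField G := fun j => if j = j0 then s else 1
  let E : Fin n → Derivation k (fixedField G) (fixedField G) := fun j =>
    u j • (D j + c j • D j0)
  let E' : Fin n → Derivation k L L := fun j =>
    (u j : L) • (D' j + (c j : L) • D' j0)
  have hinv : Ge v 0 (D j0 s)⁻¹ := Or.inr (by rw [v.ord_inv, h7]; simp)
  have hc : ∀ j, Ge v 0 (c j) := by
    intro j
    by_cases hj : j = j0
    · left; simp [c, hj]
    · simp only [c, hj, if_false]
      have h8 : Ge v 0 (D j s) := hD j s (Or.inr (by omega))
      rw [div_eq_mul_inv]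
      simpa using (h8.mul hinv).neg
  have hu : ∀ j, Ge v 0 (u j) := by
    intro j
    by_cases hj : j = j0
    · simp only [u, hj, if_true]; exact Or.inr (by omega)
    · simp only [u, hj, if_false]; exact Ge.one
  have hE : ∀ j, Pres v (E j) := by
    intro j f hf
    change Ge v 0 (u j * (D j f + c j * D j0 f))
    have h8 : Ge v 0 (D j f) := hD j f hf
    have h9 : Ge v 0 (D j0 f) := hD j0 f hf
    have h10 := (hc j).mul h9
    rw [add_zero] at h10
    simpa using (hu j).mul (h8.add h10)
  have hEE : ∀ j (f : fixedField G), E' j (f : L) = (E j f : L) := by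
    intro j f
    change (u j : L) * (D' j (f : L) + (c j : L) * D' j0 (f : L)) = _
    rw [hDD, hDD]
    rfl
  have hEs : ∀ j, v.Reg (E j s / s) := by
    intro j
    change v.Reg (u j * (D j s + c j * D j0 s) / s)
    by_cases hj : j = j0
    · have h8 : u j * (D j s + c j * D j0 s) / s = D j0 s := by
        simp only [u, c, hj, if_true, zero_mul, add_zero]
        field_simp
      rw [h8]
      exact h5
    · have h8 : u j * (D j s + c j * D j0 s) / s = 0 := by
        simp only [u, c, hj, if_false]
        field_simp
        ring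
      rw [h8]
      exact Or.inl rfl
  have hdet : ω E' = (s : L) ^ m * ω D' := by
    have h8 := pluri_change hω D' j0 (fun j => (c j : L)) (fun j => (u j : L)) (by simp [c])
    have h9 : ∏ j, (u j : L) = (s : L) := by
      have h10 : ∀ j, (u j : L) = if j = j0 then (s : L) else 1 := by
        intro j
        simp only [u]
        split_ifs <;> rfl
      rw [Finset.prod_congr rfl fun j _ => h10 j]
      simp
    rw [h9] at h8
    exact h8
  have h10 := hlogcase E E' hE hEE hEs
  rw [hdet] at h10
  have hsL' : (s : L) ≠ 0 := hsL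
  have hsord : w.ord (s : L) = e := by
    have h12 := hwv.2 s
    rw [hs, mul_one] at h12
    exact h12
  refine Ge.of_mul' (P := w) (N := N) (m := m * e) (pow_ne_zero m hsL') ?_ h10
  rw [w.ord_pow, hsord]

end

end Pool.Agent.Y173.QA
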