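import Pool.Agent.W619.Y.Stm6

/-! Regular 1-forms on a function field with a finite group of automorphisms, and the condition of
Reid-Tai type on their eigenvalues. -/

set_option autoImplicit false
set_option linter.overlappingInstances false
set_option linter.unusedSectionVars false

universe u v

open FF Pool.Agent.W619.PQ

namespace Pool.Agent.Y173.QA

section

variable {k : Type v} {L : Type u} [Field k] [Field L] [Algebra k L]

/-- `θ'` is the image `g θ` of the rational `1`-form `θ` (a linear function on the rational vector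
fields) under the automorphism `g`. -/
def IsImage (g : L ≃ₐ[k] L) (θ θ' : Derivation k L L →ₗ[L] L) : Prop :=
  ∀ D D' : Derivation k L L, (∀ z, D' (g z) = g (D z)) → θ' D' = g (θ D)

/-- The rational `1`-form `θ` is regular along all prime divisors over the variety: it takes vector
fields which are regular along a divisor `w` to functions regular along `w`. -/
def IsRegForm (n : ℕ) (θ : Derivation k L L →ₗ[L] L) : Prop :=
  ∀ w : Place k L, IsDivisorial w n → ∀ D : Derivation k L L, (∀ f, w.Reg f → w.Reg (D f)) →
    w.Reg (θ D)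

/-- The condition of Reid-Tai type on the space `V` of `1`-forms: if `g ≠ 1` in `G` fixes a prime
divisor `w` pointwise and acts on the elements `θ 1, ..., θ n` of `V`, whose exterior product is
not zero, by `ζ ^ a 1, ..., ζ ^ a n` with `0 ≤ a i < d`, where `d` is the order of `g` and `ζ` is a
primitive `d`-th root of unity, then `∑ a i ≥ d + s`. -/
def ReidTai (n : ℕ) (G : Subgroup (L ≃ₐ[k] L)) (V : Submodule k (Derivation k L L →ₗ[L] L))
    (s : ℕ) : Prop :=
  ∀ g ∈ G, g ≠ 1 → ∀ w : Place k L, IsDivisorial w n →
    (∀ z, w.Reg z → g z - z = 0 ∨ 1 ≤ w.ord (g z - z)) →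
    ∀ ζ : k, IsPrimitiveRoot ζ (orderOf g) →
    ∀ (θ : Fin n → Derivation k L L →ₗ[L] L) (a : Fin n → ℕ),
      (∀ i, θ i ∈ V ∧ a i < orderOf g ∧ IsImage g (θ i) (ζ ^ a i • θ i)) →
      (∃ D : Fin n → Derivation k L L, (Matrix.of fun i j => θ i (D j)).det ≠ 0) →
      orderOf g + s ≤ ∑ i, a i

end

end Pool.Agent.Y173.QA
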