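import Pool.Agent.Y173.QA.Defs

/-! Closed 1-forms, and the vector fields on which all forms of a space are constant. -/

set_option autoImplicit false
set_option linter.overlappingInstances false
set_option linter.unusedSectionVars false

universe u v

open FF Pool.Agent.W619.PQ

namespace Pool.Agent.Y173.QA

section

variable {k : Type v} {L : Type u} [Field k] [Field L] [Algebra k L]

/-- The rational `1`-form `θ` is closed: `dθ = 0`. -/
def IsClosedForm (θ : Derivation k L L →ₗ[L] L) : Prop :=
  ∀ D D' : Derivation k L L, θ ⁅D, D'⁆ = D (θ D') - D' (θ D)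

/-- The space of all rational vector fields `D` such that `θ (D)` is constant for all `1`-forms `θ`
in `V`. -/
def constFields (V : Submodule k (Derivation k L L →ₗ[L] L)) :
    Submodule k (Derivation k L L) where
  carrier := {D | ∀ θ ∈ V, ∃ c : k, θ D = algebraMap k L c}
  zero_mem' := fun θ _ => ⟨0, by simp⟩
  add_mem' := by
    intro D D' h h' θ hθ
    obtain ⟨c, hc⟩ := h θ hθ
    obtain ⟨c', hc'⟩ := h' θ hθ
    exact ⟨c + c', by rw [map_add, map_add, hc, hc']⟩
  smul_mem' := by
    intro a D h θ hθ
    obtain ⟨c, hc⟩ := h θ hθ
    refine ⟨a * c, ?_⟩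
    have h1 : a • D = (algebraMap k L a) • D := by
      ext z
      simp [Algebra.smul_def]
    rw [h1, map_smul, hc, map_mul, smul_eq_mul]

end

end Pool.Agent.Y173.QA
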