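import Pool.Agent.Y173.QA.Defs
import Pool.Agent.W619.PQ.Ram

/-! Eigenforms and the local estimate at a fixed divisor. -/

set_option autoImplicit false
set_option linter.overlappingInstances false
set_option linter.unusedSectionVars false

universe u v

open FF Pool.Agent.W619.PQ Pool.Agent.W603.LV

namespace Pool.Agent.Y173.QA

section lin

variable {k : Type*} [Field k] [CharZero k] {M : Type*} [AddCommGroup M] [Module k M]

/-- decomposition into eigenvectors of an endomorphism of finite order -/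
theorem eig_decomp {e : ℕ} (he : 0 < e) {ζ : k} (hζ : IsPrimitiveRoot ζ e) (T : M →ₗ[k] M)
    (hT : ∀ x, (T ^ e) x = x) (V : Submodule k M) (hV : ∀ x ∈ V, T x ∈ V) (x : M) (hx : x ∈ V) :
    ∃ c : Fin e → M, (∀ a, c a ∈ V) ∧ (∀ a, T (c a) = ζ ^ (a : ℕ) • c a) ∧ ∑ a, c a = x := by
  have hζ0 : ζ ≠ 0 := hζ.ne_zero he.ne'
  have he0 : (e : k) ≠ 0 := Nat.cast_ne_zero.2 he.ne'
  have hTV : ∀ s : ℕ, (T ^ s) x ∈ V := by
    intro s
    induction s with
    | zero => simpa using hx
    | succ s ih => rw [pow_succ', Module.End.mul_apply]; exact hV _ ih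
  refine ⟨fun a => (e : k)⁻¹ • ∑ s ∈ Finset.range e, (ζ⁻¹) ^ ((a : ℕ) * s) • (T ^ s) x, ?_, ?_, ?_⟩
  · intro a
    exact V.smul_mem _ (V.sum_mem fun s _ => V.smul_mem _ (hTV s))
  · intro a
    simp only []
    rw [map_smul, smul_comm (ζ ^ (a : ℕ))]
    congr 1
    rw [map_sum, Finset.smul_sum]
    have h1 : ∀ s, T ((ζ⁻¹) ^ ((a : ℕ) * s) • (T ^ s) x) =
        ζ ^ (a : ℕ) • ((ζ⁻¹) ^ ((a : ℕ) * (s + 1)) • (T ^ (s + 1)) x) := by
      intro s
      rw [map_smul, smul_smul, pow_succ' T s, Module.End.mul_apply]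
      congr 1
      rw [mul_add, mul_one, pow_add]
      have : ζ ^ (a : ℕ) * (ζ⁻¹) ^ (a : ℕ) = 1 := by
        rw [← mul_pow, mul_inv_cancel₀ hζ0, one_pow]
      linear_combination (-(ζ⁻¹ ^ ((a : ℕ) * s))) * this
    rw [Finset.sum_congr rfl fun s _ => h1 s]
    have h2 : ∑ s ∈ Finset.range e, ζ ^ (a : ℕ) • ((ζ⁻¹) ^ ((a : ℕ) * (s + 1)) • (T ^ (s + 1)) x) +
        ζ ^ (a : ℕ) • ((ζ⁻¹) ^ ((a : ℕ) * 0) • (T ^ 0) x) =
        ∑ s ∈ Finset.range e, ζ ^ (a : ℕ) • ((ζ⁻¹) ^ ((a : ℕ) * s) • (T ^ s) x) +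
        ζ ^ (a : ℕ) • ((ζ⁻¹) ^ ((a : ℕ) * e) • (T ^ e) x) := by
      rw [← Finset.sum_range_succ' (fun s => ζ ^ (a : ℕ) • ((ζ⁻¹) ^ ((a : ℕ) * s) • (T ^ s) x)) e,
        Finset.sum_range_succ]
    have h3 : (ζ⁻¹) ^ ((a : ℕ) * e) = 1 := by
      rw [mul_comm, pow_mul, inv_pow, hζ.pow_eq_one, inv_one, one_pow]
    rw [mul_zero, pow_zero, pow_zero, h3, hT, Module.End.one_apply] at h2
    exact add_right_cancel h2
  · simp only []
    rw [← Finset.smul_sum, Finset.sum_comm]
    have h1 : ∀ s ∈ Finset.range e, ∑ a : Fin e, (ζ⁻¹) ^ ((a : ℕ) * s) • (T ^ s) x =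
        if s = 0 then (e : k) • x else 0 := by
      intro s hs
      rw [← Finset.sum_smul]
      by_cases h0 : s = 0
      · subst h0
        simp
      · rw [if_neg h0]
        have h2 : ∑ a : Fin e, (ζ⁻¹) ^ ((a : ℕ) * s) = 0 := by
          rw [Fin.sum_univ_eq_sum_range (fun a => (ζ⁻¹) ^ (a * s)) e]
          have h3 : ∀ a, (ζ⁻¹) ^ (a * s) = ((ζ⁻¹) ^ s) ^ a := fun a => by
            rw [mul_comm, pow_mul]
          rw [Finset.sum_congr rfl fun a _ => h3 a]
          have h4 : (ζ⁻¹) ^ s ≠ 1 := by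
            intro h4
            have h5 := hζ.inv.pow_eq_one_iff_dvd s |>.1 h4
            exact h0 (Nat.eq_zero_of_dvd_of_lt h5 (Finset.mem_range.1 hs))
          have h5 := mul_geom_sum ((ζ⁻¹) ^ s) e
          have h6 : ((ζ⁻¹) ^ s) ^ e = 1 := by
            rw [← pow_mul, mul_comm, pow_mul, hζ.inv.pow_eq_one, one_pow]
          rw [h6, sub_self] at h5
          exact (mul_eq_zero.1 h5).resolve_left (sub_ne_zero.2 h4)
        rw [h2, zero_smul]
    rw [Finset.sum_congr rfl h1, Finset.sum_ite_eq' (Finset.range e) 0 (fun _ => (e : k) • x),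
      if_pos (Finset.mem_range.2 he), smul_smul, inv_mul_cancel₀ he0, one_smul]

end lin

section act

variable {k : Type v} {L : Type u} [Field k] [Field L] [Algebra k L]

/-- the conjugate `g D g⁻¹` of a derivation -/
noncomputable def conj (g : L ≃ₐ[k] L) (D : Derivation k L L) : Derivation k L L :=
  Derivation.mk' (g.toLinearMap ∘ₗ (D : L →ₗ[k] L) ∘ₗ g.symm.toLinearMap) (by
    intro a b
    simp only [LinearMap.comp_apply, AlgEquiv.toLinearMap_apply, map_mul, Derivation.coeFn_coe,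
      Derivation.leibniz, smul_eq_mul, map_add, AlgEquiv.apply_symm_apply])

theorem conj_apply (g : L ≃ₐ[k] L) (D : Derivation k L L) (z : L) :
    conj g D z = g (D (g.symm z)) := rfl

theorem conj_symm_conj (g : L ≃ₐ[k] L) (D : Derivation k L L) : conj g (conj g.symm D) = D := by
  ext z
  rw [conj_apply, conj_apply]
  simp

theorem conj_conj_symm (g : L ≃ₐ[k] L) (D : Derivation k L L) : conj g.symm (conj g D) = D := by
  ext z
  rw [conj_apply, conj_apply]
  simp

/-- the action of an automorphism on the rational `1`-forms -/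
noncomputable def act (g : L ≃ₐ[k] L) :
    (Derivation k L L →ₗ[L] L) →ₗ[k] (Derivation k L L →ₗ[L] L) where
  toFun θ :=
    { toFun := fun D => g (θ (conj g.symm D))
      map_add' := by
        intro D D'
        rw [← map_add, ← map_add]
        congr 2
        ext z
        simp [conj_apply]
      map_smul' := by
        intro c D
        have h1 : conj g.symm (c • D) = g.symm c • conj g.symm D := by
          ext z
          simp [conj_apply]
        rw [h1, map_smul, smul_eq_mul, map_mul]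
        simp }
  map_add' := by
    intro θ θ'
    ext D
    simp
  map_smul' := by
    intro c θ
    ext D
    simp

theorem act_apply (g : L ≃ₐ[k] L) (θ : Derivation k L L →ₗ[L] L) (D : Derivation k L L) :
    act g θ D = g (θ (conj g.symm D)) := rfl

theorem isImage_act (g : L ≃ₐ[k] L) (θ : Derivation k L L →ₗ[L] L) : IsImage g θ (act g θ) := by
  intro D D' h
  rw [act_apply]
  congr 2
  ext z
  rw [conj_apply, AlgEquiv.symm_symm, h]
  simp

theorem isImage_iff (g : L ≃ₐ[k] L) (θ θ' : Derivation k L L →ₗ[L] L) :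
    IsImage g θ θ' ↔ θ' = act g θ := by
  constructor
  · intro h
    ext D
    rw [h (conj g.symm D) D fun z => ?_, act_apply]
    rw [conj_apply, AlgEquiv.symm_symm]
    simp
  · rintro rfl
    exact isImage_act g θ

theorem act_pow (g : L ≃ₐ[k] L) (s : ℕ) (θ : Derivation k L L →ₗ[L] L) :
    ((act g) ^ s) θ = act (g ^ s) θ := by
  induction s with
  | zero =>
    ext D
    rw [pow_zero, pow_zero, Module.End.one_apply, act_apply]
    change θ D = θ (conj (AlgEquiv.symm 1) D)
    congr 1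
  | succ s ih =>
    rw [pow_succ', Module.End.mul_apply, ih]
    ext D
    rw [act_apply, act_apply, act_apply, pow_succ']
    rfl

theorem act_comm (g : L ≃ₐ[k] L) (θ : Derivation k L L →ₗ[L] L) (D : Derivation k L L)
    (hD : ∀ z, g (D z) = D (g z)) : act g θ D = g (θ D) :=
  isImage_act g θ D D fun z => (hD z).symm

end act

section loc

variable {k : Type v} {L : Type u} [Field k] [CharZero k] [Field L] [Algebra k L]

theorem ge_det_row {ι : Type*} [Fintype ι] [DecidableEq ι] (v : Place k L) (A : Matrix ι ι L)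
    (a : ι → ℤ) (hA : ∀ i j, Ge v (a i) (A i j)) : Ge v (∑ i, a i) A.det := by
  rw [Matrix.det_apply']
  refine Ge.sum _ _ fun σ _ => ?_
  have h1 : Ge v (∑ i, a (σ i)) (∏ i, A (σ i) i) := Ge.prod _ _ _ fun i _ => hA _ _
  rw [Equiv.sum_comp σ a] at h1
  have h2 := (Ge.intCast (P := v) (Equiv.Perm.sign σ : ℤ)).mul h1
  rwa [zero_add] at h2

/-- order of an eigenfunction -/
theorem eig_ord {e : ℕ} {ζ : k} (hζ : IsPrimitiveRoot ζ e) (w : Place k L)
    (h : L ≃ₐ[k] L) (hrot : ∀ z : L, z ≠ 0 → Ge w (w.ord z + 1)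
      (h z - algebraMap k L (ζ ^ (w.ord z)) * z)) {a : ℕ} (ha : a < e) {z : L} (hz : w.Reg z)
    (hh : h z = ζ ^ a • z) : Ge w a z := by
  rcases hz with hz | hz
  · exact Or.inl hz
  by_cases hz0 : z = 0
  · exact Or.inl hz0
  right
  have h1 := hrot z hz0
  rw [hh, Algebra.smul_def, ← sub_mul, ← map_sub] at h1
  have h2 : ζ ^ a = ζ ^ (w.ord z) := by
    by_contra hne
    have h3 : ζ ^ a - ζ ^ (w.ord z) ≠ 0 := sub_ne_zero.2 hne
    have h4 : algebraMap k L (ζ ^ a - ζ ^ (w.ord z)) ≠ 0 := (map_ne_zero (algebraMap k L)).2 h3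
    rcases h1 with h1 | h1
    · exact (mul_ne_zero h4 hz0) h1
    · rw [w.ord_mul h4 hz0, w.ord_const h3] at h1
      omega
  obtain ⟨r, hr⟩ := Int.eq_ofNat_of_zero_le hz
  rw [hr] at h2 ⊢
  rw [zpow_natCast] at h2
  have h3 : ζ ^ r = ζ ^ (r % e) := by
    conv_lhs => rw [← Nat.div_add_mod r e, pow_add, pow_mul, hζ.pow_eq_one, one_pow, one_mul]
  have h4 : a = r % e := hζ.pow_inj ha (Nat.mod_lt _ (by omega)) (h2.trans h3)
  have h5 : a ≤ r := by
    rw [h4]
    exact Nat.mod_le _ _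
  exact_mod_cast h5

/-- **The local estimate at a ramified divisor.** -/
theorem rt_local {n s : ℕ} {G : Subgroup (L ≃ₐ[k] L)} {V : Submodule k (Derivation k L L →ₗ[L] L)}
    (hreg : ∀ θ ∈ V, IsRegForm n θ)
    (hstab : ∀ g ∈ G, ∀ θ ∈ V, ∃ θ' ∈ V, IsImage g θ θ')
    (hRT : ReidTai n G V s) (w : Place k L) (hw : IsDivisorial w n) (h : L ≃ₐ[k] L) (hG : h ∈ G)
    {e : ℕ} (he : orderOf h = e) (he2 : 2 ≤ e) {ζ : k} (hζ : IsPrimitiveRoot ζ e)
    (hrot : ∀ z : L, z ≠ 0 → Ge w (w.ord z + 1) (h z - algebraMap k L (ζ ^ (w.ord z)) * z))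
    (θ : Fin n → Derivation k L L →ₗ[L] L) (hθ : ∀ i, θ i ∈ V)
    (E : Fin n → Derivation k L L) (hE : ∀ j z, w.Reg (E j z / z))
    (hEh : ∀ j z, h (E j z) = E j (h z)) :
    Ge w (e + s) (Matrix.of fun i j => θ i (E j)).det := by
  classical
  have hact : ∀ θ ∈ V, act h θ ∈ V := by
    intro θ hθ
    obtain ⟨θ', h1, h2⟩ := hstab h hG θ hθ
    rw [isImage_iff] at h2
    rwa [← h2]
  have hT : ∀ x, ((act h) ^ e) x = x := by
    intro x
    rw [act_pow, ← he, pow_orderOf_eq_one]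
    have := act_pow (1 : L ≃ₐ[k] L) 0 x
    rw [pow_zero, pow_zero, Module.End.one_apply] at this
    exact this.symm
  have hfix : ∀ z, w.Reg z → h z - z = 0 ∨ 1 ≤ w.ord (h z - z) := by
    intro z hz
    by_cases hz0 : z = 0
    · left; rw [hz0, map_zero, sub_zero]
    have hz' : 0 ≤ w.ord z := hz.resolve_left hz0
    have h1 : Ge w 1 (h z - algebraMap k L (ζ ^ (w.ord z)) * z) :=
      (hrot z hz0).mono (by omega)
    have h2 : Ge w 1 (algebraMap k L (ζ ^ (w.ord z)) * z - z) := by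
      rcases hz'.eq_or_lt with h3 | h3
      · rw [← h3, zpow_zero, map_one, one_mul, sub_self]
        exact Ge.zero
      · have h4 : Ge w 1 z := Or.inr (by omega)
        have h5 := (Ge.const (P := w) (ζ ^ (w.ord z))).mul h4
        rw [zero_add] at h5
        exact h5.sub h4
    have h3 := h1.add h2
    rw [sub_add_sub_cancel] at h3
    exact h3
  have hPres : ∀ j, ∀ f, w.Reg f → w.Reg (E j f) := by
    intro j f hf
    by_cases hf0 : f = 0
    · rw [hf0, map_zero]; exact w.reg_zero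
    · have h1 := w.reg_mul (hE j f) hf
      rwa [div_mul_cancel₀ _ hf0] at h1
  choose c hcV hcT hcs using fun i => eig_decomp (by omega : 0 < e) hζ (act h) hT V hact (θ i) (hθ i)
  have hM : (Matrix.of fun i j => θ i (E j)) = Matrix.of fun i j => (∑ a, c i a (E j)) := by
    ext i j
    rw [Matrix.of_apply, Matrix.of_apply]
    conv_lhs => rw [← hcs i]
    rw [LinearMap.sum_apply]
  have hdet : (Matrix.of fun i j => (∑ a, c i a (E j))).det =
      ∑ r : Fin n → Fin e, (Matrix.of fun i j => c i (r i) (E j)).det := by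
    have h1 := (Matrix.detRowAlternating (R := L) (n := Fin n)).toMultilinearMap.map_sum
      (fun (i : Fin n) (a : Fin e) => (fun j => c i a (E j)))
    have h2 : (fun i => ∑ a : Fin e, (fun j => c i a (E j))) =
        Matrix.of fun i j => (∑ a, c i a (E j)) := by
      ext i j
      rw [Finset.sum_apply, Matrix.of_apply]
    rw [h2] at h1
    exact h1
  rw [hM, hdet]
  refine Ge.sum _ _ fun r _ => ?_
  by_cases h0 : (Matrix.of fun i j => c i (r i) (E j)).det = 0
  · rw [h0]; exact Ge.zero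
  have h1 := hRT h hG (fun h1 => by rw [h1, orderOf_one] at he; omega) w hw hfix ζ (he ▸ hζ)
    (fun i => c i (r i)) (fun i => (r i : ℕ)) (fun i => ⟨hcV i _, he ▸ (r i).2, ?_⟩) ⟨E, h0⟩
  · have h2 : Ge w (∑ i, ((r i : ℕ) : ℤ)) (Matrix.of fun i j => c i (r i) (E j)).det := by
      refine ge_det_row w _ _ fun i j => ?_
      rw [Matrix.of_apply]
      refine eig_ord hζ w h hrot (r i).2 (hreg _ (hcV i _) w hw (E j) (hPres j)) ?_
      have h3 := act_comm h (c i (r i)) (E j) (hEh j)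
      rw [← h3, hcT]
      rfl
    refine h2.mono ?_
    rw [he] at h1
    exact_mod_cast h1
  · rw [isImage_iff, hcT]

end loc

end Pool.Agent.Y173.QA
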