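import Pool.Agent.Y173.QA.Hor

/-! Functions which are regular at all horizontal places of a chart are regular on the chart. -/

set_option autoImplicit false
set_option linter.overlappingInstances false
set_option linter.unusedSectionVars false

open FF IntermediateField Pool.Agent.W619.PQ Pool.Agent.W619.PL Pool.Agent.W619.TW
  Pool.Agent.W603.LV Pool.Agent.W619.Y Pool.Agent.TH122.AB MvPolynomial

namespace Pool.Agent.Y173.QA

variable {k : Type} [Field k] [CharZero k] {L : Type} [Field L] [Algebra k L]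

/-- a function which is regular at all places over the irreducible polynomials is integral over the
polynomials -/
theorem int_of_reg {d : ℕ} {Z : Fin d → L} (hZ : IsTranscendenceBasis k Z)
    (hfd : FiniteDimensional (IntermediateField.adjoin k (Set.range Z)) L) {g : L}
    (hg : ∀ p : MvPolynomial (Fin d) k, Irreducible p → ∀ P : Place k L, Adic Z p P → P.Reg g) :
    IsIntegral (Algebra.adjoin k (Set.range Z)) g := by
  classical
  obtain ⟨K', iF, iA, iK, hT, G, hfin, iG, hT1, hT2, hfd', X, hX, hXZ, hbas⟩ :=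
    Pool.Agent.TH756.PN.exists_closure hZ hfd
  have hfintype := Fintype.ofFinite G
  have hXZ' : (fun j => algebraMap (fixedField G) L (X j)) = Z := funext hXZ
  have hae : ∀ f : MvPolynomial (Fin d) k, algebraMap (fixedField G) L (aeval X f) = aeval Z f := by
    intro f
    rw [← hXZ']
    exact (MvPolynomial.aeval_algebraMap_apply L X f).symm
  let g' : K' := algebraMap L K' g
  let Fp : Polynomial K' := ∏ γ : G, (Polynomial.X - Polynomial.C ((γ : K' ≃ₐ[k] K') g'))
  have hFpm : Fp.Monic := Polynomial.monic_prod_of_monic _ _ fun γ _ => Polynomial.monic_X_sub_C _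
  have hFpfix : ∀ i, Fp.coeff i ∈ fixedField G := by
    intro i σ
    change (σ : K' ≃ₐ[k] K') (Fp.coeff i) = Fp.coeff i
    have h1 : Fp.map ((σ : K' ≃ₐ[k] K') : K' →+* K') = Fp := by
      change (∏ γ : G, (Polynomial.X - Polynomial.C ((γ : K' ≃ₐ[k] K') g'))).map _ = _
      rw [Polynomial.map_prod]
      refine Fintype.prod_equiv (Equiv.mulLeft σ) _ _ fun γ => ?_
      rw [Polynomial.map_sub, Polynomial.map_X, Polynomial.map_C]
      rfl
    conv_rhs => rw [← h1]
    rw [Polynomial.coeff_map]
    rfl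
  have hlift : Fp ∈ Polynomial.lifts (algebraMap (fixedField G) K') := by
    rw [Polynomial.lifts_iff_coeff_lifts]
    intro i
    exact ⟨⟨Fp.coeff i, hFpfix i⟩, rfl⟩
  obtain ⟨Fp0, hFp0, -, hFp0m⟩ := Polynomial.lifts_and_natDegree_eq_and_monic hlift hFpm
  have hcoef : ∀ i, ∃ f : MvPolynomial (Fin d) k, Fp0.coeff i = aeval X f := by
    intro i
    refine poly_of_reg hX fun p hp v hv1 hv2 => ?_
    obtain ⟨w, e, I, hwv, -, -⟩ := exists_inertia G v
    have hreg : ∀ γ : G, w.Reg ((γ : K' ≃ₐ[k] K') g') := by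
      intro γ
      have h1 : Over (w.comp (γ : K' ≃ₐ[k] K')) v e := over_comp hwv γ
      obtain ⟨P, e1, e2, h2, h3, -⟩ := Pool.Agent.TH756.PN.exists_restr (K := L) h1
      have hP : Adic Z p P := by
        intro f hf
        rw [← hae, h3.2]
        obtain ⟨h4, h5⟩ := hv2 f hf
        have h6 : (0 : ℤ) < e2 := by exact_mod_cast h3.1
        refine ⟨mul_nonneg h6.le h4, ?_⟩
        rw [← h5]
        constructor
        · intro h7
          rcases mul_eq_zero.1 h7 with h8 | h8
          · omega
          · exact h8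
        · intro h7
          rw [h7, mul_zero]
      have h4 : (w.comp (γ : K' ≃ₐ[k] K')).Reg g' := h2.reg.2 (hg p hp P hP)
      have h5 := (ge_comp w (γ : K' ≃ₐ[k] K') 0 g').1 h4
      exact h5
    rw [← hwv.reg]
    have h1 : algebraMap (fixedField G) K' (Fp0.coeff i) = Fp.coeff i := by
      rw [← hFp0, Polynomial.coeff_map]
    rw [h1]
    have h2 : Fp ∈ Polynomial.lifts w.O.subtype := by
      refine Subsemiring.prod_mem _ fun γ _ => ?_
      rw [Polynomial.lifts_iff_coeff_lifts]
      intro j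
      have h3 : (Polynomial.X - Polynomial.C ((γ : K' ≃ₐ[k] K') g')) =
          (Polynomial.X - Polynomial.C (⟨(γ : K' ≃ₐ[k] K') g', hreg γ⟩ : w.O)).map
            w.O.subtype := by
        rw [Polynomial.map_sub, Polynomial.map_X, Polynomial.map_C]
        rfl
      rw [h3, Polynomial.coeff_map]
      exact ⟨_, rfl⟩
    rw [Polynomial.lifts_iff_coeff_lifts] at h2
    obtain ⟨z, hz⟩ := h2 i
    rw [← hz]
    exact z.2
  -- the equation over `L`
  obtain ⟨FpL, hFpL⟩ : ∃ FpL, FpL = Fp0.map (algebraMap (fixedField G) L) := ⟨_, rfl⟩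
  have hFpLm : FpL.Monic := by rw [hFpL]; exact hFp0m.map _
  have hFpLl : FpL ∈ Polynomial.lifts (algebraMap (Algebra.adjoin k (Set.range Z)) L) := by
    rw [Polynomial.lifts_iff_coeff_lifts]
    intro i
    obtain ⟨f, hf⟩ := hcoef i
    rw [hFpL, Polynomial.coeff_map, hf, hae]
    have h1 : aeval Z f ∈ Algebra.adjoin k (Set.range Z) := by
      rw [Algebra.adjoin_range_eq_range_aeval]
      exact ⟨f, rfl⟩
    exact ⟨⟨_, h1⟩, rfl⟩
  obtain ⟨q, hq, -, hqm⟩ := Polynomial.lifts_and_natDegree_eq_and_monic hFpLl hFpLm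
  refine ⟨q, hqm, ?_⟩
  rw [← Polynomial.eval_map, hq]
  apply (algebraMap L K').injective
  rw [map_zero, ← Polynomial.eval₂_at_apply, ← Polynomial.eval_map, hFpL, Polynomial.map_map,
    ← IsScalarTower.algebraMap_eq (fixedField G) L K', hFp0]
  change Polynomial.eval g' Fp = 0
  rw [Polynomial.eval_prod]
  refine Finset.prod_eq_zero (Finset.mem_univ (1 : G)) ?_
  rw [Polynomial.eval_sub, Polynomial.eval_X, Polynomial.eval_C]
  change g' - (1 : K' ≃ₐ[k] K') g' = 0
  rw [AlgEquiv.one_apply, sub_self]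

theorem reg_aeval {d : ℕ} {Z : Fin d → L} {w : Place k L} (hZ : ∀ j, w.Reg (Z j))
    (f : MvPolynomial (Fin d) k) : w.Reg (aeval Z f) := by
  induction f using MvPolynomial.induction_on with
  | C c => rw [aeval_C]; exact w.reg_const c
  | add f g hf hg => rw [map_add]; exact w.reg_add hf hg
  | mul_X f j hf => rw [map_mul, aeval_X]; exact w.reg_mul hf (hZ j)

/-- **Regularity on the chart.** -/
theorem hartogs {a r : ℕ} {t : Fin a → L} {x : Fin r → L}
    (hZ : IsTranscendenceBasis k (Fin.append t x))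
    (hfd : FiniteDimensional (IntermediateField.adjoin k (Set.range (Fin.append t x))) L) {g : L}
    (hg : ∀ p : MvPolynomial (Fin (a + r)) k, Irreducible p → ¬ Vert p →
      ∀ P : Place k L, Adic (Fin.append t x) p P → P.Reg g)
    {w : Place k L} (hq : ∀ q : MvPolynomial (Fin a) k, q ≠ 0 → w.ord (aeval t q) = 0)
    (hx : ∀ l, w.Reg (x l)) : w.Reg g := by
  classical
  obtain ⟨R, hR0, hR⟩ := exists_mult hZ g
  obtain ⟨r0, R', hr0, hRR, hR'⟩ := exists_vert_part hR0
  have hr00 : r0 ≠ 0 := by
    rintro rfl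
    exact hR0 (by rw [hRR, zero_mul])
  have hR'0 : R' ≠ 0 := by
    rintro rfl
    exact hR0 (by rw [hRR, mul_zero])
  have hne : ∀ f : MvPolynomial (Fin (a + r)) k, f ≠ 0 → aeval (Fin.append t x) f ≠ 0 :=
    fun f hf h0 => hf ((injective_iff_map_eq_zero _).1 hZ.1 f h0)
  have h1 : IsIntegral (Algebra.adjoin k (Set.range (Fin.append t x)))
      (aeval (Fin.append t x) r0 * g) := by
    refine int_of_reg hZ hfd fun p hp P hP => ?_
    by_cases hv : Vert p
    · have h2 : P.Reg (aeval (Fin.append t x) R * g) := reg_of_int (adic_reg hP) hR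
      have h3 := (hP R' hR'0).2.2 (hR' p hp hv)
      have h4 : aeval (Fin.append t x) R * g =
          aeval (Fin.append t x) R' * (aeval (Fin.append t x) r0 * g) := by
        rw [hRR, map_mul]
        ring
      rw [h4] at h2
      have h5 : Ge P (0 + 0) (aeval (Fin.append t x) R' * (aeval (Fin.append t x) r0 * g)) := h2
      exact Ge.of_mul' (hne R' hR'0) h3 h5
    · exact P.reg_mul (adic_reg hP r0) (hg p hp hv P hP)
  have hZw : ∀ j, w.Reg (Fin.append t x j) := by
    intro j
    refine Fin.addCases (fun j => ?_) (fun l => ?_) j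
    · rw [Fin.append_left]
      have h2 := hq (X j) (X_ne_zero j)
      rw [aeval_X] at h2
      exact Or.inr h2.ge
    · rw [Fin.append_right]
      exact hx l
  have h2 : w.Reg (aeval (Fin.append t x) r0 * g) := reg_of_int (reg_aeval hZw) h1
  obtain ⟨q, hqr⟩ := hr0
  have hq0 : q ≠ 0 := by
    rintro rfl
    exact hr00 (by rw [hqr, map_zero])
  have h3 : w.ord (aeval (Fin.append t x) r0) = 0 := by
    rw [hqr, aeval_append_vert]
    exact hq q hq0
  have h4 : Ge w (0 + 0) (aeval (Fin.append t x) r0 * g) := h2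
  exact Ge.of_mul' (hne r0 hr00) h3 h4

end Pool.Agent.Y173.QA
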