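import Pool.Agent.W762.PG.PRES

/-! Derivations which preserve a ring preserve the valuation rings of its normalization (after
Seidenberg). -/

set_option autoImplicit false
set_option linter.overlappingInstances false
set_option linter.unusedSectionVars false

open Polynomial FF IsDedekindDomain

namespace Pool.Agent.Y173.QA

open Pool.Agent.W603.LV Pool.Agent.W619.PQ

section

variable {k K L : Type*} [Field k] [Field K] [Field L] [Algebra k K] [Algebra k L] [Algebra K L]
  [IsScalarTower k K L]

/-- commutator with the multiplication by `b` -/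
def dl (b : L) (T : L → L) : L → L := fun x => T (x * b) - b * T x

theorem dl_iter (D : Derivation k L L) (b : L) (Q : L → L) (j : ℕ) (x : L) :
    ((dl b)^[j + 1] (fun x => D (Q x))) x =
      D (((dl b)^[j + 1] Q) x) + (j + 1 : ℕ) * (D b * ((dl b)^[j] Q) x) := by
  induction j generalizing x with
  | zero =>
    simp only [Function.iterate_succ, Function.iterate_zero, Function.comp_apply, id_eq, dl]
    rw [map_sub, D.leibniz, smul_eq_mul, smul_eq_mul]
    push_cast
    ring
  | succ j ih =>
    have e1 : ∀ (T : L → L) (x : L), ((dl b)^[j + 1 + 1] T) x =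
        ((dl b)^[j + 1] T) (x * b) - b * ((dl b)^[j + 1] T) x := by
      intro T x
      rw [Function.iterate_succ', Function.comp_apply]
      rfl
    rw [e1, e1, ih, ih, map_sub, D.leibniz, smul_eq_mul, smul_eq_mul]
    have h1 : ((dl b)^[j + 1] Q) x = ((dl b)^[j] Q) (x * b) - b * ((dl b)^[j] Q) x := by
      rw [Function.iterate_succ', Function.comp_apply]
      rfl
    rw [h1]
    push_cast
    ring

theorem dl_pow (D : Derivation k L L) (b : L) (n : ℕ) (x : L) :
    ((dl b)^[n] (fun x => D^[n] x)) x = (n.factorial : L) * (D b) ^ n * x := by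
  induction n generalizing x with
  | zero => simp
  | succ n ih =>
    have h1 : (fun x => D^[n + 1] x) = fun x => D ((fun x => D^[n] x) x) := by
      funext x
      rw [Function.iterate_succ', Function.comp_apply]
    rw [h1, dl_iter]
    have h2 : ((dl b)^[n + 1] (fun x => D^[n] x)) x = 0 := by
      rw [Function.iterate_succ', Function.comp_apply]
      change ((dl b)^[n] (fun x => D^[n] x)) (x * b) - b * ((dl b)^[n] (fun x => D^[n] x)) x = 0
      rw [ih, ih]
      ring
    rw [h2, map_zero, ih, Nat.factorial_succ]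
    push_cast
    ring

/-- an integral element has bounded denominators -/
theorem pow_mem {A : Subring L} {p : L[X]} (hp : p.Monic) (hpA : ∀ i, p.coeff i ∈ A) {b : L}
    (hb : p.eval b = 0) {a : L} (ha : a ∈ A) (hab : a * b ∈ A) (i : ℕ) :
    a ^ p.natDegree * b ^ i ∈ A := by
  induction i using Nat.strong_induction_on with
  | _ i ih =>
    by_cases hi : i ≤ p.natDegree
    · have h1 : a ^ p.natDegree * b ^ i = a ^ (p.natDegree - i) * (a * b) ^ i := by
        conv_lhs => rw [← Nat.sub_add_cancel hi, pow_add]
        rw [mul_pow]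
        ring
      rw [h1]
      exact A.mul_mem (A.pow_mem ha _) (A.pow_mem hab _)
    · push Not at hi
      have h1 : b ^ p.natDegree = -∑ j ∈ Finset.range p.natDegree, p.coeff j * b ^ j := by
        rw [Polynomial.eval_eq_sum_range, Finset.sum_range_succ, hp.coeff_natDegree, one_mul] at hb
        rw [eq_neg_iff_add_eq_zero, add_comm, ← hb]
      have h2 : a ^ p.natDegree * b ^ i = -∑ j ∈ Finset.range p.natDegree,
          p.coeff j * (a ^ p.natDegree * b ^ (j + (i - p.natDegree))) := by
        have h3 : b ^ i = b ^ p.natDegree * b ^ (i - p.natDegree) := by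
          rw [← pow_add]
          congr 1
          omega
        rw [h3, h1, neg_mul, mul_neg, Finset.sum_mul, Finset.mul_sum]
        congr 1
        refine Finset.sum_congr rfl fun j _ => ?_
        rw [pow_add]
        ring
      rw [h2]
      refine A.neg_mem (A.sum_mem fun j hj => A.mul_mem (hpA j) (ih _ ?_))
      have := Finset.mem_range.1 hj
      omega

theorem sei [CharZero k] [FiniteDimensional K L] {v : Place k K} {w : Place k L} {e : ℕ}
    (h : Over w v e) (D : Derivation k L L) (A : Subring L)
    (hO : ∀ x : K, v.Reg x → algebraMap K L x ∈ A) (hreg : ∀ a ∈ A, w.Reg a)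
    (hD : ∀ a ∈ A, D a ∈ A) (hfrac : ∀ z : L, ∃ a ∈ A, a ≠ 0 ∧ a * z ∈ A) : Pres w D := by
  classical
  let iA : Algebra v.O L := algO v
  let ik : Algebra k v.O := algk v
  have : IsDiscreteValuationRing v.O := v.isDVR
  have : CharZero K := charZero_of_injective_algebraMap (algebraMap k K).injective
  have hcL : CharZero L := charZero_of_injective_algebraMap (algebraMap k L).injective
  have : IsScalarTower v.O K L := IsScalarTower.of_algebraMap_eq fun _ => rfl
  have : IsScalarTower k v.O L := IsScalarTower.of_algebraMap_eq fun c => by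
    rw [IsScalarTower.algebraMap_apply k K L]
    rfl
  let B := integralClosure v.O L
  have : IsDedekindDomain B := integralClosure.isDedekindDomain v.O K L
  have : IsFractionRing B L := integralClosure.isFractionRing_of_finite_extension K L
  have hsc : IsScalarTower k B L := by
    refine IsScalarTower.of_algebraMap_eq fun c => ?_
    rw [IsScalarTower.algebraMap_apply k v.O B, ← IsScalarTower.algebraMap_apply v.O B L,
      ← IsScalarTower.algebraMap_apply k v.O L]
  have hBreg : ∀ b : B, w.Reg (algebraMap B L b) := fun b =>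
    w.reg_of_isIntegral (A := v.O) (fun a => h.reg.2 a.2) b.2
  -- the key step
  have hbd : ∀ b : B, w.Reg (D (b : L)) := by
    intro b
    obtain ⟨p0, hp0, hp1⟩ := b.2
    obtain ⟨p, hp⟩ : ∃ p : L[X], p = p0.map (algebraMap v.O L) := ⟨_, rfl⟩
    have hpm : p.Monic := by rw [hp]; exact hp0.map _
    have hpA : ∀ i, p.coeff i ∈ A := by
      intro i
      rw [hp, Polynomial.coeff_map]
      exact hO _ (p0.coeff i).2
    have hpb : p.eval (b : L) = 0 := by
      rw [hp, Polynomial.eval_map]
      exact hp1
    obtain ⟨a, ha, ha0, hab⟩ := hfrac (b : L)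
    obtain ⟨c, hc⟩ : ∃ c, c = a ^ p.natDegree := ⟨_, rfl⟩
    have hc0 : c ≠ 0 := by rw [hc]; exact pow_ne_zero _ ha0
    have hcA : ∀ i, c * (b : L) ^ i ∈ A := by
      intro i
      rw [hc]
      exact pow_mem hpm hpA hpb ha hab i
    have hDn : ∀ n i, D^[n] (c * (b : L) ^ i) ∈ A := by
      intro n i
      induction n with
      | zero => exact hcA i
      | succ n ih =>
        rw [Function.iterate_succ', Function.comp_apply]
        exact hD _ ih
    have hbr : w.Reg (b : L) := hBreg b
    have hR : ∀ n j i, w.Reg (((dl (b : L))^[j] (fun x => D^[n] x)) (c * (b : L) ^ i)) := by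
      intro n j
      induction j with
      | zero => exact fun i => hreg _ (hDn n i)
      | succ j ih =>
        intro i
        rw [Function.iterate_succ', Function.comp_apply]
        change w.Reg (((dl (b : L))^[j] (fun x => D^[n] x)) (c * (b : L) ^ i * b) -
          b * ((dl (b : L))^[j] (fun x => D^[n] x)) (c * (b : L) ^ i))
        have h1 : c * (b : L) ^ i * b = c * (b : L) ^ (i + 1) := by rw [pow_succ]; ring
        rw [h1]
        exact Ge.sub (P := w) (N := 0) (ih (i + 1)) (w.reg_mul hbr (ih i))
    by_contra hcon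
    unfold Place.Reg at hcon
    push Not at hcon
    obtain ⟨hDb0, hDb⟩ := hcon
    obtain ⟨n, hn⟩ : ∃ n : ℕ, w.ord c < n := ⟨(w.ord c).toNat + 1, by
      have := Int.self_le_toNat (w.ord c)
      push_cast
      omega⟩
    have h1 := hR n n 0
    rw [dl_pow, pow_zero, mul_one] at h1
    have hfac : ((n.factorial : ℕ) : L) ≠ 0 := Nat.cast_ne_zero.2 (Nat.factorial_ne_zero n)
    have hpw : (D (b : L)) ^ n ≠ 0 := pow_ne_zero _ hDb0
    have h2 := (w.reg_iff (mul_ne_zero (mul_ne_zero hfac hpw) hc0)).1 h1
    have hfac' : ((n.factorial : ℕ) : L) = algebraMap k L ((n.factorial : ℕ) : k) := by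
      rw [map_natCast]
    rw [w.ord_mul (mul_ne_zero hfac hpw) hc0, w.ord_mul hfac hpw, w.ord_pow, hfac',
      w.ord_const (Nat.cast_ne_zero.2 (Nat.factorial_ne_zero n))] at h2
    have h3 : (n : ℤ) * w.ord (D (b : L)) ≤ n * (-1) :=
      mul_le_mul_of_nonneg_left (by omega) (by positivity)
    omega
  intro z hz
  by_cases hz0 : z = 0
  · rw [hz0, map_zero]; exact w.reg_zero
  obtain ⟨P, hP⟩ := exists_placeOf_eq (k := k) (L := L) (B := B) w hBreg
  have h1 : 0 ≤ (placeOf (k := k) (L := L) P).ord z := by
    rw [hP]; exact (w.reg_iff hz0).1 hz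
  rw [placeOf_nonneg P hz0] at h1
  obtain ⟨n, d, hnd⟩ := P.exists_primeCompl_mul_eq_of_integer z h1
  have hd := placeOf_red_eq_zero (k := k) (L := L) P (d : B)
  have hd2 : ¬ (placeOf (k := k) (L := L) P).red (algebraMap B L d) = 0 := fun h => d.2 (hd.1 h)
  rw [Place.red_eq_zero_iff _ (placeOf_reg P _)] at hd2
  push Not at hd2
  rw [hP] at hd2
  have hdreg : w.Reg (algebraMap B L d) := hBreg _
  have hdord : w.ord (algebraMap B L d) = 0 := by
    have := (w.reg_iff hd2.1).1 hdreg
    omega
  have hd0 : algebraMap B L d ≠ 0 := hd2.1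
  have e1 : D z = (D (algebraMap B L n) - z * D (algebraMap B L d)) * (algebraMap B L d)⁻¹ := by
    rw [← hnd, D.leibniz, smul_eq_mul, smul_eq_mul]
    field_simp
    ring
  have hn' : Ge w 0 (D (algebraMap B L n)) := hbd n
  have hd' : Ge w 0 (D (algebraMap B L d)) := hbd d
  have hz' : Ge w 0 z := hz
  have hdi : Ge w 0 (algebraMap B L d)⁻¹ := Or.inr (by rw [w.ord_inv, hdord]; simp)
  rw [e1]
  have h3 : Ge w 0 (z * D (algebraMap B L d)) := by simpa using hz'.mul hd'
  have h4 := (hn'.sub h3).mul hdi
  rw [add_zero] at h4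
  exact h4

end

end Pool.Agent.Y173.QA
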