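import Pool.Agent.Y173.QA.Nn
import Pool.Agent.Y173.QA.Sei

/-! The horizontal places of a chart: the vector fields along the fibres are regular there. -/

set_option autoImplicit false
set_option linter.overlappingInstances false
set_option linter.unusedSectionVars false

open FF IntermediateField Pool.Agent.W619.PQ Pool.Agent.W619.PL Pool.Agent.W619.TW
  Pool.Agent.W603.LV Pool.Agent.W619.Y Pool.Agent.TH122.AB MvPolynomial

namespace Pool.Agent.Y173.QA

variable {k : Type} [Field k] [CharZero k] {L : Type} [Field L] [Algebra k L]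

theorem aeval_append_vert {a r : ℕ} (t : Fin a → L) (x : Fin r → L)
    (q : MvPolynomial (Fin a) k) :
    aeval (Fin.append t x) (rename (Fin.castAdd r) q) = aeval t q := by
  rw [aeval_rename]
  have h1 : Fin.append t x ∘ Fin.castAdd r = t := by
    funext j
    simp
  rw [h1]

/-- the elements of the base field are units at the horizontal places -/
theorem ord_base {a : ℕ} {t : Fin a → L} {P : Place k L}
    (hq : ∀ q : MvPolynomial (Fin a) k, q ≠ 0 → P.ord (aeval t q) = 0) {z : L}
    (hz : z ∈ IntermediateField.adjoin k (Set.range t)) : P.ord z = 0 := by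
  by_cases hz0 : z = 0
  · rw [hz0, P.ord_zero]
  rw [IntermediateField.mem_adjoin_range_iff] at hz
  obtain ⟨f, g, hfg⟩ := hz
  have hf0 : aeval t f ≠ 0 := by
    intro h1; apply hz0; rw [hfg, h1, zero_div]
  have hg0 : aeval t g ≠ 0 := by
    intro h1; apply hz0; rw [hfg, h1, div_zero]
  have hf : f ≠ 0 := by rintro rfl; exact hf0 (map_zero _)
  have hg : g ≠ 0 := by rintro rfl; exact hg0 (map_zero _)
  rw [hfg, P.ord_div hf0 hg0, hq f hf, hq g hg, sub_zero]

theorem ord_vert {a r : ℕ} {t : Fin a → L} {x : Fin r → L}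
    {p : MvPolynomial (Fin (a + r)) k} {l0 : Fin r} (hl0 : degreeOf (Fin.natAdd a l0) p ≠ 0)
    {P : Place k L} (hP : Adic (Fin.append t x) p P) (q : MvPolynomial (Fin a) k) (hq : q ≠ 0) :
    P.ord (aeval t q) = 0 := by
  rw [← aeval_append_vert t x]
  have h0 : rename (Fin.castAdd r) q ≠ 0 :=
    (map_ne_zero_iff _ (rename_injective _ (Fin.castAdd_injective a r))).2 hq
  exact (hP _ h0).2.2 (not_dvd_vert hl0 ⟨q, rfl⟩ h0)

theorem adic_reg {d : ℕ} {Z : Fin d → L} {p : MvPolynomial (Fin d) k} {P : Place k L}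
    (hP : Adic Z p P) (f : MvPolynomial (Fin d) k) : P.Reg (aeval Z f) := by
  by_cases hf : f = 0
  · rw [hf, map_zero]; exact P.reg_zero
  · exact Or.inr (hP f hf).1

theorem adic_var {d : ℕ} {Z : Fin d → L} {p : MvPolynomial (Fin d) k} {P : Place k L}
    (hP : Adic Z p P) (j : Fin d) : P.Reg (Z j) := by
  have := adic_reg hP (X j)
  rwa [aeval_X] at this

/-- the derivative of a polynomial expression -/
theorem der_poly {d : ℕ} {Z : Fin d → L} (D : Derivation k L L) (A : Subring L)
    (hA : ∀ f : MvPolynomial (Fin d) k, aeval Z f ∈ A) (hDZ : ∀ j, D (Z j) ∈ A)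
    (f : MvPolynomial (Fin d) k) : D (aeval Z f) ∈ A := by
  induction f using MvPolynomial.induction_on with
  | C c => rw [aeval_C, D.map_algebraMap]; exact A.zero_mem
  | add f g hf hg => rw [map_add, map_add]; exact A.add_mem hf hg
  | mul_X f j hf =>
    rw [map_mul, aeval_X, D.leibniz, smul_eq_mul, smul_eq_mul]
    have h1 := hA (X j)
    rw [aeval_X] at h1
    exact A.add_mem (A.mul_mem (hA f) (hDZ j)) (A.mul_mem h1 hf)

theorem div_of_top {B : Set L} (htop : IntermediateField.adjoin k B = ⊤) (z : L) :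
    ∃ f ∈ Algebra.adjoin k B, ∃ g ∈ Algebra.adjoin k B, g ≠ 0 ∧ z = f / g := by
  have hz : z ∈ IntermediateField.adjoin k B := by rw [htop]; trivial
  rw [IntermediateField.mem_adjoin_iff_div] at hz
  obtain ⟨f, hf, g, hg, hfg⟩ := hz
  by_cases hg0 : g = 0
  · refine ⟨0, Subalgebra.zero_mem _, 1, Subalgebra.one_mem _, one_ne_zero, ?_⟩
    rw [hfg, hg0, div_zero, zero_div]
  · exact ⟨f, hf, g, hg, hg0, hfg⟩

/-- regularity of the chart functions -/
theorem chart_reg {a r : ℕ} {t : Fin a → L} {B : Set L} {x : Fin r → L} (hch : Chart k t B x)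
    {P : Place k L} (hq : ∀ q : MvPolynomial (Fin a) k, q ≠ 0 → P.ord (aeval t q) = 0)
    (hx : ∀ l, P.Reg (x l)) : ∀ b ∈ B, P.Reg b := by
  intro b hb
  refine P.reg_of_isIntegral (A := Algebra.adjoin (IntermediateField.adjoin k (Set.range t))
    (Set.range x)) (fun z => ?_) (hch.int b hb)
  obtain ⟨z, hz⟩ := z
  change P.Reg z
  induction hz using Algebra.adjoin_induction with
  | mem z hz =>
    obtain ⟨l, rfl⟩ := hz
    exact hx l
  | algebraMap c => exact Or.inr (ord_base hq c.2).ge
  | add y z _ _ hy hz => exact P.reg_add hy hz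
  | mul y z _ _ hy hz => exact P.reg_mul hy hz

theorem hor {a r : ℕ} (htr : Algebra.trdeg k L = (a + r : ℕ))
    (hfin : ∀ y : Fin (a + r) → L, IsTranscendenceBasis k y →
      FiniteDimensional (IntermediateField.adjoin k (Set.range y)) L)
    {t : Fin a → L} {B : Set L} {x : Fin r → L} (hch : Chart k t B x)
    (htop : IntermediateField.adjoin k B = ⊤) {U : Fin r → Derivation k L L}
    (hUt : ∀ i j, U i (t j) = 0) (hUB : ∀ i, ∀ b ∈ B, U i b ∈ Algebra.adjoin k B)
    {p : MvPolynomial (Fin (a + r)) k} (hp : Irreducible p) {l0 : Fin r}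
    (hl0 : degreeOf (Fin.natAdd a l0) p ≠ 0) {P : Place k L}
    (hP : Adic (Fin.append t x) p P) :
    IsDivisorial P (a + r) ∧ (∀ i, Pres P (U i)) ∧ ∃ F : Fin a → Derivation k L L,
      (∀ j, Pres P (F j)) ∧ ∀ j l, F j (t l) = if j = l then 1 else 0 := by
  classical
  have hq := ord_vert hl0 hP
  -- the frame
  have hframe : IsDivisorial P (a + r) ∧ ∃ F : Fin a → Derivation k L L,
      (∀ j, Pres P (F j)) ∧ ∀ j l, F j (t l) = if j = l then 1 else 0 := by
    obtain ⟨r', rfl⟩ : ∃ r', r = r' + 1 := Nat.exists_eq_succ_of_ne_zero (by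
      rintro rfl
      exact l0.elim0)
    let b0 : Fin ((a + r') + 1) := Fin.natAdd a l0
    let Z : Fin ((a + r') + 1) → L := (Fin.append t x : Fin (a + (r' + 1)) → L)
    let y : Fin (a + r') → L := fun j => Z (b0.succAbove j)
    have hy : ∀ q : MvPolynomial (Fin (a + r')) k, q ≠ 0 →
        aeval y q ≠ 0 ∧ P.ord (aeval y q) = 0 := by
      intro q hq
      have h0 : rename b0.succAbove q ≠ 0 :=
        (map_ne_zero_iff _ (rename_injective _ Fin.succAbove_right_injective)).2 hq
      have h1 : aeval Z (rename b0.succAbove q) = aeval y q := by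
        rw [aeval_rename]
        rfl
      have h2 := (hP (rename b0.succAbove q) h0).2.2 (not_dvd_succAbove (b := b0) hl0 hq)
      change P.ord (aeval Z (rename b0.succAbove q)) = 0 at h2
      rw [h1] at h2
      refine ⟨?_, h2⟩
      rw [← h1]
      intro h3
      exact h0 ((injective_iff_map_eq_zero _).1 hch.bas.1 _ h3)
    obtain ⟨s, hs0, hs⟩ := P.surj
    obtain ⟨-, E, hE1, hE2⟩ := frame_of (m := a + r') htr hfin P hs hy
    have hne : ∀ j : Fin a, (Fin.castAdd (r' + 1) j : Fin ((a + r') + 1)) ≠ b0 := by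
      intro j h
      have h1 := congrArg Fin.val h
      change (j : ℕ) = a + (l0 : ℕ) at h1
      have := j.2
      omega
    choose j' hj' using fun j : Fin a => Fin.exists_succAbove_eq (hne j)
    refine ⟨⟨y, hy⟩, fun j => E (j' j).succ, fun j => hE2 _, fun j l => ?_⟩
    have h1 := hE1 (j' j).succ (j' l).succ
    rw [Fin.cons_succ] at h1
    have h2 : y (j' l) = t l := by
      change Z (b0.succAbove (j' l)) = t l
      rw [hj']
      exact Fin.append_left t x l
    rw [h2] at h1
    rw [h1]
    have h3 : (j' j).succ = (j' l).succ ↔ j = l := by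
      rw [Fin.succ_inj]
      constructor
      · intro h4
        have h5 := congrArg b0.succAbove h4
        rw [hj', hj'] at h5
        exact Fin.castAdd_injective a (r' + 1) h5
      · rintro rfl
        rfl
    by_cases hjl : j = l
    · rw [if_pos hjl, if_pos (h3.2 hjl)]
    · rw [if_neg hjl, if_neg (fun h => hjl (h3.1 h))]
  refine ⟨hframe.1, ?_, hframe.2⟩
  -- the place below
  let Z : Fin (a + r) → L := Fin.append t x
  let K : IntermediateField k L := IntermediateField.adjoin k (Set.range Z)
  have hfd : FiniteDimensional K L := hfin Z hch.bas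
  let X' : Fin (a + r) → K := fun j => ⟨Z j, IntermediateField.subset_adjoin k _ ⟨j, rfl⟩⟩
  have hX' : Gens (k := k) X' := gens_of (Z := Z) hch.bas.1 (E := K) rfl fun j => rfl
  have halg : Algebra.IsAlgebraic K L := inferInstance
  obtain ⟨e, v, hPv⟩ := Pool.Agent.W73.PG.PULL.exists_over' (K := K) P
  have hae : ∀ f : MvPolynomial (Fin (a + r)) k, algebraMap K L (aeval X' f) = aeval Z f :=
    fun f => (MvPolynomial.aeval_algebraMap_apply L X' f).symm
  have he : (0 : ℤ) < e := by exact_mod_cast hPv.1
  have hv : ∀ f : MvPolynomial (Fin (a + r)) k, f ≠ 0 →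
      0 ≤ v.ord (aeval X' f) ∧ (v.ord (aeval X' f) = 0 ↔ ¬ p ∣ f) := by
    intro f hf
    obtain ⟨h1, h2⟩ := hP f hf
    change 0 ≤ P.ord (aeval Z f) at h1
    change P.ord (aeval Z f) = 0 ↔ _ at h2
    rw [← hae, hPv.2] at h1 h2
    refine ⟨nonneg_of_mul_nonneg_right h1 he, ?_⟩
    rw [← h2]
    constructor
    · intro h3
      rw [h3, mul_zero]
    · intro h3
      rcases mul_eq_zero.1 h3 with h4 | h4
      · omega
      · exact h4
  have hBreg : ∀ b ∈ B, P.Reg b := chart_reg hch hq fun l => by
    have := adic_var hP (Fin.natAdd a l)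
    rwa [Fin.append_right] at this
  let A : Subring L := Subring.closure ((algebraMap K L) '' {z | v.Reg z} ∪ B)
  have hOA : ∀ z : K, v.Reg z → algebraMap K L z ∈ A := fun z hz =>
    Subring.subset_closure (Or.inl ⟨z, hz, rfl⟩)
  have hBA : ∀ b ∈ B, b ∈ A := fun b hb => Subring.subset_closure (Or.inr hb)
  have hkA : ∀ c : k, algebraMap k L c ∈ A := by
    intro c
    rw [IsScalarTower.algebraMap_apply k K L]
    exact hOA _ (v.reg_const c)
  have hBkA : ∀ z ∈ Algebra.adjoin k B, z ∈ A := by
    intro z hz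
    induction hz using Algebra.adjoin_induction with
    | mem z hz => exact hBA z hz
    | algebraMap c => exact hkA c
    | add y z _ _ hy hz => exact A.add_mem hy hz
    | mul y z _ _ hy hz => exact A.mul_mem hy hz
  have hpolyA : ∀ f : MvPolynomial (Fin (a + r)) k, aeval Z f ∈ A := by
    intro f
    rw [← hae]
    refine hOA _ ?_
    by_cases hf : f = 0
    · rw [hf, map_zero]; exact v.reg_zero
    · exact Or.inr (hv f hf).1
  have hF0A : ∀ z ∈ IntermediateField.adjoin k (Set.range t), z ∈ A := by
    intro z hz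
    have hle : IntermediateField.adjoin k (Set.range t) ≤ K := by
      apply IntermediateField.adjoin.mono
      rintro _ ⟨j, rfl⟩
      exact ⟨Fin.castAdd r j, Fin.append_left t x j⟩
    have h1 : algebraMap K L ⟨z, hle hz⟩ = z := rfl
    rw [← h1]
    apply hOA
    rw [← hPv.reg, h1]
    exact Or.inr (ord_base hq hz).ge
  intro i
  have hUF0 : ∀ z ∈ IntermediateField.adjoin k (Set.range t), U i z = 0 := by
    intro z hz
    induction hz using IntermediateField.adjoin_induction with
    | mem z hz =>
      obtain ⟨j, rfl⟩ := hz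
      exact hUt i j
    | algebraMap c => exact (U i).map_algebraMap c
    | add y z _ _ hy hz => rw [map_add, hy, hz, add_zero]
    | inv z _ hz => rw [Derivation.leibniz_inv, hz, smul_zero]
    | mul y z _ _ hy hz => rw [(U i).leibniz, hy, hz, smul_zero, smul_zero, add_zero]
  have hUBA : ∀ z ∈ Algebra.adjoin (IntermediateField.adjoin k (Set.range t)) B,
      z ∈ A ∧ U i z ∈ A := by
    intro z hz
    induction hz using Algebra.adjoin_induction with
    | mem z hz => exact ⟨hBA z hz, hBkA _ (hUB i z hz)⟩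
    | algebraMap c => exact ⟨hF0A _ c.2, by
        have h1 := hUF0 _ c.2
        change U i (c : L) ∈ A
        rw [h1]
        exact A.zero_mem⟩
    | add y z _ _ hy hz =>
      rw [map_add]
      exact ⟨A.add_mem hy.1 hz.1, A.add_mem hy.2 hz.2⟩
    | mul y z _ _ hy hz =>
      rw [(U i).leibniz, smul_eq_mul, smul_eq_mul]
      exact ⟨A.mul_mem hy.1 hz.1, A.add_mem (A.mul_mem hy.1 hz.2) (A.mul_mem hz.1 hy.2)⟩
  have hUZ : ∀ j, U i (Z j) ∈ A := by
    intro j
    refine Fin.addCases (fun j => ?_) (fun l => ?_) j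
    · change U i (Fin.append t x (Fin.castAdd r j)) ∈ A
      rw [Fin.append_left, hUt]
      exact A.zero_mem
    · change U i (Fin.append t x (Fin.natAdd a l)) ∈ A
      rw [Fin.append_right]
      exact (hUBA _ (hch.mem l)).2
  have hUpoly := der_poly (U i) A hpolyA hUZ
  refine sei hPv (U i) A hOA ?_ ?_ ?_
  · intro z hz
    induction hz using Subring.closure_induction with
    | mem z hz =>
      rcases hz with ⟨z, hz, rfl⟩ | hz
      · exact hPv.reg.2 hz
      · exact hBreg z hz
    | zero => exact P.reg_zero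
    | one => exact P.reg_one
    | add y z _ _ hy hz => exact P.reg_add hy hz
    | neg z _ hz =>
      have : Ge P 0 z := hz
      exact this.neg
    | mul y z _ _ hy hz => exact P.reg_mul hy hz
  · intro z hz
    induction hz using Subring.closure_induction with
    | mem z hz =>
      rcases hz with ⟨z, hz, rfl⟩ | hz
      · obtain ⟨f, g, hg, hpg, rfl⟩ := frac_of_reg hX' hp hv hz
        have hgL : aeval Z g ≠ 0 := by
          rw [← hae]
          exact (map_ne_zero _).2 (hX'.ne hg)
        have hginv : (aeval Z g)⁻¹ ∈ A := by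
          rw [← hae, ← map_inv₀]
          apply hOA
          right
          rw [v.ord_inv, (hv g hg).2.2 hpg]
          simp
        rw [map_div₀, hae, hae, div_eq_mul_inv, (U i).leibniz, Derivation.leibniz_inv]
        simp only [smul_eq_mul]
        refine A.add_mem (A.mul_mem (hpolyA f) (A.mul_mem (A.neg_mem (A.pow_mem hginv 2))
          (hUpoly g))) (A.mul_mem hginv (hUpoly f))
      · exact hBkA _ (hUB i z hz)
    | zero => rw [map_zero]; exact A.zero_mem
    | one => rw [Derivation.map_one_eq_zero]; exact A.zero_mem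
    | add y z _ _ hy hz => rw [map_add]; exact A.add_mem hy hz
    | neg z _ hz => rw [map_neg]; exact A.neg_mem hz
    | mul y z hy' hz' hy hz =>
      rw [(U i).leibniz, smul_eq_mul, smul_eq_mul]
      exact A.add_mem (A.mul_mem hy' hz) (A.mul_mem hz' hy)
  · intro z
    obtain ⟨f, hf, g, hg, hg0, hfg⟩ := div_of_top htop z
    refine ⟨g, hBkA g hg, hg0, ?_⟩
    rw [hfg, mul_div_cancel₀ _ hg0]
    exact hBkA f hf

end Pool.Agent.Y173.QA
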