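import Pool.Agent.Y173.QA.Hart

/-! Places at infinity in one variable, and the count of functions with bounded poles. -/

set_option autoImplicit false
set_option linter.overlappingInstances false
set_option linter.unusedSectionVars false

open FF IntermediateField Pool.Agent.W619.PQ Pool.Agent.W619.PL Pool.Agent.W619.TW
  Pool.Agent.W603.LV Pool.Agent.W619.Y Pool.Agent.TH122.AB MvPolynomial

namespace Pool.Agent.Y173.QA

variable {k : Type} [Field k] [CharZero k]

theorem degB_single {n : ℕ} (b : Fin (n + 1)) (P : MvPolynomial (Fin (n + 1)) k) :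
    Pool.Agent.TH756.PN.degB {b} P = degreeOf b P := by
  classical
  rw [degreeOf_eq_sup]
  unfold Pool.Agent.TH756.PN.degB
  simp

/-- the count, with degrees in the single variables -/
theorem fin_bound1 {K' : Type} [Field K'] [Algebra k K'] {d : ℕ} (hd : 0 < d)
    (G : Subgroup (K' ≃ₐ[k] K')) [Finite G] {X : Fin d → fixedField G}
    (hX : Gens (k := k) X) (hZ : IsTranscendenceBasis k fun j => (X j : K'))
    {v0 : Fin d → Place k (fixedField G)}
    (hv0 : ∀ b, ∀ P : MvPolynomial (Fin d) k, P ≠ 0 →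
      (v0 b).ord (aeval X P) = - (degreeOf b P : ℤ))
    {w0 : Fin d → Place k K'} {e0 : Fin d → ℕ} (h0 : ∀ b, Over (w0 b) (v0 b) (e0 b))
    (S : Finset K') :
    ∃ C c : ℕ, ∀ (D : Fin d → ℕ) (N : ℕ) (f : Fin N → K'), LinearIndependent k f →
      (∀ l, Fine G X S (f l)) → (∀ l b, ∀ g ∈ G, Ge (w0 b) (- (D b : ℤ)) (g (f l))) →
        N ≤ C * ∏ b, (D b + c) := by
  obtain ⟨d', rfl⟩ := Nat.exists_eq_succ_of_ne_zero hd.ne'
  exact Pool.Agent.TH756.PN.fin_bound G hX hZ (fun b => {b})
    (fun b P hP => by rw [hv0 b P hP, degB_single]) h0 id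
    (fun b => Finset.mem_singleton_self b) S

/-- the place at infinity in one variable -/
theorem exists_deg_place {F : Type} [Field F] [Algebra k F] {d : ℕ} {X : Fin d → F}
    (hX : Gens (k := k) X) (b : Fin d) :
    ∃ v : Place k F, ∀ P : MvPolynomial (Fin d) k, P ≠ 0 →
      v.ord (aeval X P) = - (degreeOf b P : ℤ) := by
  classical
  refine exists_place hX (ν := fun P => - (degreeOf b P : ℤ)) ⟨?_, ?_, ?_⟩
    ⟨1, MvPolynomial.X b, one_ne_zero, X_ne_zero _, ?_⟩
  · intro P Q hP hQ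
    rw [degreeOf_mul_eq hP hQ]
    push_cast
    ring
  · intro P Q hP hQ hPQ
    have h1 := degreeOf_add_le b P Q
    rcases le_max_iff.1 h1 with h2 | h2
    · exact le_trans (min_le_left _ _) (by omega)
    · exact le_trans (min_le_right _ _) (by omega)
  · intro c hc
    rw [degreeOf_C]
    rfl
  · rw [degreeOf_one, degreeOf_X, if_pos rfl]
    rfl

theorem degreeOf_rename_succAbove {m : ℕ} (b : Fin (m + 1)) (q : MvPolynomial (Fin m) k) :
    degreeOf b (rename b.succAbove q) = 0 := by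
  classical
  apply degreeOf_notMem
  intro h
  have h1 := vars_rename b.succAbove q h
  rw [Finset.mem_image] at h1
  obtain ⟨j, -, hj⟩ := h1
  exact Fin.succAbove_ne b j hj

/-- the place at infinity in one variable is divisorial -/
theorem div_deg {F : Type} [Field F] [Algebra k F] {d : ℕ} {X : Fin d → F}
    (hX : Gens (k := k) X) {b : Fin d} {v : Place k F}
    (hv : ∀ P : MvPolynomial (Fin d) k, P ≠ 0 → v.ord (aeval X P) = - (degreeOf b P : ℤ)) :
    IsDivisorial v d := by
  classical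
  obtain ⟨d', rfl⟩ := Nat.exists_eq_succ_of_ne_zero (show d ≠ 0 by
    rintro rfl
    exact b.elim0)
  have hy : ∀ q : MvPolynomial (Fin d') k, q ≠ 0 →
      aeval (fun j => X (b.succAbove j)) q ≠ 0 ∧
        v.ord (aeval (fun j => X (b.succAbove j)) q) = 0 := by
    intro q hq
    have h0 : rename b.succAbove q ≠ 0 :=
      (map_ne_zero_iff _ (rename_injective _ Fin.succAbove_right_injective)).2 hq
    have h1 : aeval X (rename b.succAbove q) = aeval (fun j => X (b.succAbove j)) q := by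
      rw [aeval_rename]
      rfl
    rw [← h1, hv _ h0]
    exact ⟨hX.ne h0, by rw [degreeOf_rename_succAbove]; rfl⟩
  exact ⟨fun j => X (b.succAbove j), hy⟩

/-- linear lower bound for the orders of the sections at a divisorial place -/
theorem lin_bound {K' : Type} [Field K'] [Algebra k K'] {n : ℕ} (htr : Algebra.trdeg k K' = n)
    (hfin : ∀ y : Fin n → K', IsTranscendenceBasis k y →
      FiniteDimensional (IntermediateField.adjoin k (Set.range y)) K')
    {w : Place k K'} (hw : IsDivisorial w n) (E : Fin n → Derivation k K' K') (S : Finset K')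
    (c : K') :
    ∃ C : ℕ, ∀ (m : ℕ) (ω : (Fin n → Derivation k K' K') → K'), 1 ≤ m →
      IsSec k K' n (fun _ => False) S m 1 ω → Ge w (-((C * m : ℕ) : ℤ)) (c ^ m * ω E) := by
  classical
  obtain ⟨y, F, i0, hy, hFy, hi0, hyreg, hF⟩ := pFRAME k K' n htr hfin w hw
  obtain ⟨M, hM⟩ : ∃ M : Matrix (Fin n) (Fin n) K', M = Matrix.of fun b c => E b (y c) := ⟨_, rfl⟩
  have hEF : E = fun b => ∑ c, M b c • F c := by
    funext b
    rw [der_expand hy hFy (E b), hM]
    rfl
  obtain ⟨C, hC⟩ : ∃ C : ℕ, (w.ord c).natAbs + (w.ord M.det).natAbs +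
    ∑ s ∈ S, (w.ord s).natAbs ≤ C := ⟨_, le_rfl⟩
  refine ⟨C, fun m ω hm hω => ?_⟩
  have h1 := hω.1 M F
  rw [← hEF] at h1
  rw [h1]
  by_cases hc0 : c = 0
  · left
    rw [hc0, zero_pow (by omega), zero_mul]
  by_cases hM0 : M.det = 0
  · left
    rw [hM0, zero_pow (by omega), zero_mul, mul_zero]
  by_cases hF0 : ω F = 0
  · left
    rw [hF0, mul_zero, mul_zero]
  obtain ⟨s, hs, hs0, hle⟩ := (hω.2.1 w hw (fun h => h) F hF).resolve_left hF0
  right
  rw [w.ord_mul (pow_ne_zero _ hc0) (mul_ne_zero (pow_ne_zero _ hM0) hF0),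
    w.ord_mul (pow_ne_zero _ hM0) hF0, w.ord_pow, w.ord_pow]
  have h2 : (w.ord s).natAbs ≤ ∑ s ∈ S, (w.ord s).natAbs :=
    Finset.single_le_sum (f := fun s => (w.ord s).natAbs) (fun _ _ => Nat.zero_le _) hs
  have h3 : ((w.ord c).natAbs : ℤ) + (w.ord M.det).natAbs + (w.ord s).natAbs ≤ C := by
    exact_mod_cast (by omega : (w.ord c).natAbs + (w.ord M.det).natAbs + (w.ord s).natAbs ≤ C)
  have h4 : -((w.ord c).natAbs : ℤ) ≤ w.ord c := by omega
  have h5 : -((w.ord M.det).natAbs : ℤ) ≤ w.ord M.det := by omega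
  have h6 : -((w.ord s).natAbs : ℤ) ≤ w.ord s := by omega
  have hm' : (1 : ℤ) ≤ m := by exact_mod_cast hm
  push_cast at hle ⊢
  have h7 : (C : ℤ) * m ≥ (((w.ord c).natAbs : ℤ) + (w.ord M.det).natAbs +
      (w.ord s).natAbs) * m := mul_le_mul_of_nonneg_right h3 (by linarith)
  have h8 : (m : ℤ) * (-((w.ord c).natAbs : ℤ)) ≤ m * w.ord c :=
    mul_le_mul_of_nonneg_left h4 (by linarith)
  have h9 : (m : ℤ) * (-((w.ord M.det).natAbs : ℤ)) ≤ m * w.ord M.det :=
    mul_le_mul_of_nonneg_left h5 (by linarith)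
  have h10 : ((w.ord s).natAbs : ℤ) * 1 ≤ ((w.ord s).natAbs : ℤ) * m :=
    mul_le_mul_of_nonneg_left hm' (by positivity)
  nlinarith

end Pool.Agent.Y173.QA
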