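import Pool.Agent.Y173.QA.Desc
import Pool.Agent.W619.Y.Down

/-! The Kodaira dimension of the quotient and of the cover. -/

set_option autoImplicit false
set_option linter.overlappingInstances false
set_option linter.unusedSectionVars false

universe u v

open FF IntermediateField Pool.Agent.W619.PQ Pool.Agent.W619.PL Pool.Agent.W619.TW
  Pool.Agent.W603.LV Pool.Agent.W619.Y Pool.Agent.W672.PG

namespace Pool.Agent.Y173.QA

section

variable {k : Type v} {L : Type u} [Field k] [CharZero k] [Field L] [Algebra k L]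

/-- the exterior product of `n` rational `1`-forms -/
noncomputable def eta {n : ℕ} (θ : Fin n → Derivation k L L →ₗ[L] L)
    (D : Fin n → Derivation k L L) : L := (Matrix.of fun i j => θ i (D j)).det

theorem eta_pluri {n : ℕ} (θ : Fin n → Derivation k L L →ₗ[L] L) :
    IsPluriForm k L n 1 (eta θ) := by
  intro A D
  unfold eta
  have h1 : (Matrix.of fun i j => θ i (∑ l, A j l • D l)) =
      (Matrix.of fun i j => θ i (D j)) * A.transpose := by
    ext i j
    rw [Matrix.mul_apply, Matrix.of_apply, map_sum]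
    refine Finset.sum_congr rfl fun l _ => ?_
    rw [map_smul, smul_eq_mul, Matrix.of_apply, Matrix.transpose_apply, mul_comm]
  rw [h1, Matrix.det_mul, Matrix.det_transpose, pow_one, mul_comm]

theorem eta_reg {n : ℕ} {θ : Fin n → Derivation k L L →ₗ[L] L} (hθ : ∀ i, IsRegForm n (θ i))
    {w : Place k L} (hw : IsDivisorial w n) {D : Fin n → Derivation k L L}
    (hD : ∀ j, Pres w (D j)) : Ge w 0 (eta θ D) :=
  Pool.Agent.W619.PQ.ge_det w _ fun i j => hθ i w hw (D j) (hD j)

theorem pres_of_log {w : Place k L} {D : Derivation k L L} (hD : ∀ z, w.Reg (D z / z)) :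
    Pres w D := by
  intro f hf
  by_cases hf0 : f = 0
  · rw [hf0, map_zero]; exact w.reg_zero
  · have h1 := w.reg_mul (hD f) hf
    rwa [div_mul_cancel₀ _ hf0] at h1

theorem pluri_mul {n m m' : ℕ} {ω ω' : (Fin n → Derivation k L L) → L}
    (h : IsPluriForm k L n m ω) (h' : IsPluriForm k L n m' ω') :
    IsPluriForm k L n (m + m') (fun D => ω D * ω' D) := by
  intro A D
  simp only []
  rw [h A D, h' A D, pow_add]
  ring

theorem pluri_pow {n m : ℕ} {ω : (Fin n → Derivation k L L) → L}
    (h : IsPluriForm k L n m ω) (r : ℕ) :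
    IsPluriForm k L n (m * r) (fun D => ω D ^ r) := by
  intro A D
  simp only []
  rw [h A D, mul_pow, pow_mul]

theorem pluri_smul {n m : ℕ} {ω : (Fin n → Derivation k L L) → L}
    (h : IsPluriForm k L n m ω) (b : L) :
    IsPluriForm k L n m (fun D => b * ω D) := by
  intro A D
  simp only []
  rw [h A D]
  ring

section data

variable {n s : ℕ} (G : Subgroup (L ≃ₐ[k] L)) [Finite G]
  {V : Submodule k (Derivation k L L →ₗ[L] L)}

/-- the estimate for `ω η ^ M`, strict version -/
theorem est_strict (htr : Algebra.trdeg k L = n)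
    (hreg : ∀ θ ∈ V, IsRegForm n θ)
    (hstab : ∀ g ∈ G, ∀ θ ∈ V, ∃ θ' ∈ V, IsImage g θ θ')
    (hRT : ReidTai n G V 1)
    {v : Place k (fixedField G)} {w : Place k L} {e : ℕ} (hwv : Over w v e)
    (hw : IsDivisorial w n) {h : G} {ζ : k} (hord : orderOf (h : L ≃ₐ[k] L) = e)
    (hζ : IsPrimitiveRoot ζ e) (hrot : Rot w (h : L ≃ₐ[k] L) ζ)
    {θ : Fin n → Derivation k L L →ₗ[L] L} (hθ : ∀ i, θ i ∈ V)
    {m : ℕ} {ω : (Fin n → Derivation k L L) → L} (hω : IsPluriForm k L n m ω) (N : ℤ)
    (hN : ∀ E' : Fin n → Derivation k L L, (∀ j, Pres w (E' j)) → Ge w N (ω E'))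
    {D : Fin n → Derivation k (fixedField G) (fixedField G)}
    {D' : Fin n → Derivation k L L} (hD : ∀ j, Pres v (D j))
    (hDD : ∀ j (f : fixedField G), D' j (f : L) = (D j f : L)) :
    Ge w N (ω D' * eta θ D' ^ (Nat.card G * m)) := by
  have hM : e ≤ Nat.card G := by
    rw [← hord, Subgroup.orderOf_coe]
    exact orderOf_le_card
  have hpl := pluri_mul hω (pluri_pow (eta_pluri θ) (Nat.card G * m))
  rw [one_mul] at hpl
  refine core G htr hwv h hpl N ?_ ?_ D D' hD hDD
  · intro he2 E' hlog hcomm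
    have h1 : Ge w N (ω E') := hN E' fun j => pres_of_log (hlog j)
    have h2 : Ge w ((e : ℤ) + (1 : ℕ)) (eta θ E') :=
      rt_local hreg hstab hRT w hw h h.2 hord he2 hζ hrot θ hθ E' hlog hcomm
    have h3 := h1.mul (h2.pow (Nat.card G * m))
    refine h3.mono ?_
    have h4 : (m : ℤ) * e ≤ m * Nat.card G := by
      have : (e : ℤ) ≤ Nat.card G := by exact_mod_cast hM
      exact mul_le_mul_of_nonneg_left this (by positivity)
    push_cast
    nlinarith
  · intro _ E' hE'
    have h1 := (hN E' hE').mul ((eta_reg (fun i => hreg _ (hθ i)) hw hE').pow (Nat.card G * m))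
    simpa using h1

/-- the estimate for the exterior product of `n` forms -/
theorem est_eta (htr : Algebra.trdeg k L = n)
    (hreg : ∀ θ ∈ V, IsRegForm n θ)
    (hstab : ∀ g ∈ G, ∀ θ ∈ V, ∃ θ' ∈ V, IsImage g θ θ')
    (hRT : ReidTai n G V 0)
    {v : Place k (fixedField G)} {w : Place k L} {e : ℕ} (hwv : Over w v e)
    (hw : IsDivisorial w n) {h : G} {ζ : k} (hord : orderOf (h : L ≃ₐ[k] L) = e)
    (hζ : IsPrimitiveRoot ζ e) (hrot : Rot w (h : L ≃ₐ[k] L) ζ)
    {θ : Fin n → Derivation k L L →ₗ[L] L} (hθ : ∀ i, θ i ∈ V)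
    {D : Fin n → Derivation k (fixedField G) (fixedField G)}
    {D' : Fin n → Derivation k L L} (hD : ∀ j, Pres v (D j))
    (hDD : ∀ j (f : fixedField G), D' j (f : L) = (D j f : L)) :
    Ge w 0 (eta θ D') := by
  refine core G htr hwv h (eta_pluri θ) 0 ?_ ?_ D D' hD hDD
  · intro he2 E' hlog hcomm
    have h2 : Ge w ((e : ℤ) + (0 : ℕ)) (eta θ E') :=
      rt_local hreg hstab hRT w hw h h.2 hord he2 hζ hrot θ hθ E' hlog hcomm
    simpa using h2
  · intro _ E' hE'
    exact eta_reg (fun i => hreg _ (hθ i)) hw hE'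

include G in
theorem eta_ne_of_pluri {m : ℕ} {ω : (Fin n → Derivation k L L) → L}
    (htr : Algebra.trdeg k L = n) (hm : 1 ≤ m) (hω : IsPluriForm k L n m ω)
    {D1 D2 : Fin n → Derivation k L L} (h1 : ω D1 ≠ 0)
    {θ : Fin n → Derivation k L L →ₗ[L] L} (h2 : eta θ D2 ≠ 0) : eta θ D1 ≠ 0 := by
  have halgK := Pool.Agent.W721.PG.EFF2.alg_fixed G
  obtain ⟨-, z, hz⟩ := Pool.Agent.W721.PG.EFF2.exists_basis (fixedField G) n htr
  have hzL : IsTranscendenceBasis k (fun j => (z j : L)) := hz.algebraMap_comp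
  choose E hE using fun j => exists_dual _ hzL j
  have hdual : ∀ i j, E i (z j : L) = if i = j then 1 else 0 := by
    intro i j
    rw [hE i j]
    by_cases hij : i = j
    · rw [if_pos hij, if_pos hij.symm]
    · rw [if_neg hij, if_neg (Ne.symm hij)]
  have e1 := pluri_zero (K := fixedField G) hω hzL hdual D1
  have e2 := pluri_zero (K := fixedField G) (eta_pluri θ) hzL hdual D2
  have e3 := pluri_zero (K := fixedField G) (eta_pluri θ) hzL hdual D1
  rw [e1] at h1
  rw [e2] at h2
  rw [e3]
  refine mul_ne_zero (pow_ne_zero _ ?_) (right_ne_zero_of_mul h2)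
  intro h3
  rw [h3, zero_pow (by omega), zero_mul] at h1
  exact h1 rfl

/-- Kodaira dimension: from the cover to the quotient. -/
theorem kod_down [IsAlgClosed k] (htr : Algebra.trdeg k L = n)
    (hreg : ∀ θ ∈ V, IsRegForm n θ)
    (hstab : ∀ g ∈ G, ∀ θ ∈ V, ∃ θ' ∈ V, IsImage g θ θ')
    (hRT : ReidTai n G V 1)
    {θ : Fin n → Derivation k L L →ₗ[L] L} (hθ : ∀ i, θ i ∈ V)
    {D0 : Fin n → Derivation k L L} (hD0 : eta θ D0 ≠ 0) {a : ℕ} (hkod : KodTr k L n a) :
    KodTr k (fixedField G) n a := by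
  obtain ⟨m, hm, ω, hω, D1, h0, hind⟩ := hkod
  have hη : eta θ D1 ≠ 0 := eta_ne_of_pluri G htr hm (hω 0).1 (h0 0) hD0
  have hηM : eta θ D1 ^ (Nat.card G * m) ≠ 0 := pow_ne_zero _ hη
  refine kod_descent G htr (m := m + Nat.card G * m) (by omega)
    (fun l D => ω l D * eta θ D ^ (Nat.card G * m)) ?_ ?_ D1 ?_ ?_
  · intro l
    have h1 := pluri_mul (hω l).1 (pluri_pow (eta_pluri θ) (Nat.card G * m))
    rwa [one_mul] at h1
  · intro v hv
    obtain ⟨w, e, hwv, hg⟩ := exists_rot G v hv
    refine ⟨w, e, hwv, fun D D' hD hDD l g => ?_⟩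
    obtain ⟨h1, h2, h, ζ, hord, hζ, hrot⟩ := hg g
    rw [← ge_comp]
    refine est_strict G htr hreg hstab hRT h1 h2 hord hζ hrot hθ (hω l).1 0 (fun E' hE' => ?_)
      hD hDD
    rcases (hω l).2.1 _ h2 (fun h => h) E' hE' with h3 | ⟨s, -, hs0, h3⟩
    · exact Or.inl h3
    · right
      simpa using h3
  · intro l
    exact mul_ne_zero (h0 l) hηM
  · have e1 : (fun l : Fin a => ω l.succ D1 * eta θ D1 ^ (Nat.card G * m) /
        (ω 0 D1 * eta θ D1 ^ (Nat.card G * m))) = fun l => ω l.succ D1 / ω 0 D1 := by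
      funext l
      rw [mul_div_mul_right _ _ hηM]
    rw [e1]
    exact hind

/-- Kodaira dimension: from the quotient to the cover. -/
theorem kod_up [IsAlgClosed k] [Algebra.EssFiniteType k L] (htr : Algebra.trdeg k L = n) {a : ℕ}
    (hkod : KodTr k (fixedField G) n a) : KodTr k L n a := by
  obtain ⟨m, hm, ω, hω, D1, h0, hind⟩ := hkod
  have hfd := fd_fixed G
  have halgK := Pool.Agent.W721.PG.EFF2.alg_fixed G
  obtain ⟨hnK, z, hz⟩ := Pool.Agent.W721.PG.EFF2.exists_basis (fixedField G) n htr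
  choose ext hext hext2 hext3 using pEXT k (fixedField G) L n hnK
  choose E hE using fun j => exists_dual _ hz j
  have hdual : ∀ i j, E i (z j) = if i = j then 1 else 0 := by
    intro i j
    rw [hE i j]
    by_cases hij : i = j
    · rw [if_pos hij, if_pos hij.symm]
    · rw [if_neg hij, if_neg (Ne.symm hij)]
  have hp := fun l => pPULL k (fixedField G) L n hnK
    (fun y hy => fin_over_adjoin n (fixedField G) y hy) (fun _ => False) {1} m 0 z E hz hdual
    (ω l) (hω l)
  have hpl : ∀ l, ω l D1 = (Matrix.of fun i j => D1 i (z j)).det ^ m * ω l E := by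
    intro l
    have h1 : D1 = fun i => ∑ b, (Matrix.of fun i j => D1 i (z j)) i b • E b := by
      funext i
      apply Derivation.ext
      intro f
      have h2 := der_zero (D1 i - ∑ b, (Matrix.of fun i j => D1 i (z j)) i b • E b) z hz (fun j => by
        rw [Derivation.sub_apply, Pool.Agent.W721.PG.EFF2.der_sum, Finset.sum_eq_single j]
        · rw [hdual, if_pos rfl, mul_one, Matrix.of_apply, sub_self]
        · intro b _ hb
          rw [hdual, if_neg hb, mul_zero]
        · intro hj
          exact absurd (Finset.mem_univ _) hj) f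
      rw [Derivation.sub_apply] at h2
      exact sub_eq_zero.1 h2
    conv_lhs => rw [h1]
    exact (hω l).1 _ E
  have hE0 : ∀ l, ω l E ≠ 0 := by
    intro l h1
    apply h0 l
    rw [hpl, h1, mul_zero]
  have hdet : (Matrix.of fun i j => D1 i (z j)).det ^ m ≠ 0 := by
    intro h1
    apply h0 0
    rw [hpl, h1, zero_mul]
  refine ⟨m, hm, fun l D => (Matrix.of fun a b => D a (algebraMap (fixedField G) L (z b))).det ^ m *
    algebraMap (fixedField G) L (ω l E), fun l => ?_, fun j => ext (E j), fun l => ?_, ?_⟩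
  · have h1 := hp l
    rw [bdUp_false] at h1
    simpa using h1
  · have h1 : (Matrix.of fun a b => ext (E a) (algebraMap (fixedField G) L (z b))) = 1 := by
      ext i j
      rw [Matrix.of_apply, hext, hdual, Matrix.one_apply]
      split_ifs <;> simp
    simp only []
    rw [h1, Matrix.det_one, one_pow, one_mul]
    exact (map_ne_zero _).2 (hE0 l)
  · have h1 : (Matrix.of fun a b => ext (E a) (algebraMap (fixedField G) L (z b))) = 1 := by
      ext i j
      rw [Matrix.of_apply, hext, hdual, Matrix.one_apply]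
      split_ifs <;> simp
    simp only []
    rw [h1]
    have h2 : (fun l : Fin a => (1 : Matrix (Fin n) (Fin n) L).det ^ m *
        algebraMap (fixedField G) L (ω l.succ E) /
        ((1 : Matrix (Fin n) (Fin n) L).det ^ m * algebraMap (fixedField G) L (ω 0 E))) =
        fun l => (fixedField G).val (ω l.succ D1 / ω 0 D1) := by
      funext l
      rw [Matrix.det_one, one_pow, one_mul, one_mul, hpl, hpl, mul_div_mul_left _ _ hdet]
      exact (map_div₀ (algebraMap (fixedField G) L) _ _).symm
    rw [h2]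
    exact (AlgHom.algebraicIndependent_iff (fixedField G).val (Subtype.val_injective)).2 hind

end data

end

end Pool.Agent.Y173.QA
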