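import Pool.Agent.Y173.QA.Str2

/-! Lower bound for the Kodaira dimension of the quotient. -/

set_option autoImplicit false
set_option linter.overlappingInstances false
set_option linter.unusedSectionVars false

open FF IntermediateField Pool.Agent.W619.PQ Pool.Agent.W619.PL Pool.Agent.W619.TW
  Pool.Agent.W603.LV Pool.Agent.W619.Y

namespace Pool.Agent.Y173.QA

variable {k : Type} [Field k] [CharZero k] {L : Type} [Field L] [Algebra k L]

theorem det_updateRow_one {n : ℕ} (i : Fin n) (b : Fin n → L) :
    (Matrix.updateRow (1 : Matrix (Fin n) (Fin n) L) i b).det = b i := by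
  have h1 := congrFun (congrFun (congrArg DFunLike.coe
    (Matrix.cramer_one (n := Fin n) (α := L))) b) i
  rw [Matrix.cramer_apply] at h1
  rw [← Matrix.det_transpose, ← Matrix.updateCol_transpose, Matrix.transpose_one]
  exact h1

theorem eta_update {n : ℕ} {θ : Fin n → Derivation k L L →ₗ[L] L}
    {P : Fin n → Derivation k L L} (hP1 : ∀ i j, θ i (P j) = if i = j then 1 else 0)
    (τ : Derivation k L L →ₗ[L] L) (i : Fin n) : eta (Function.update θ i τ) P = τ (P i) := by
  unfold eta
  have h1 : (Matrix.of fun l j => (Function.update θ i τ) l (P j)) =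
      Matrix.updateRow (1 : Matrix (Fin n) (Fin n) L) i (fun j => τ (P j)) := by
    ext l j
    by_cases hl : l = i
    · subst hl
      rw [Matrix.of_apply, Function.update_self, Matrix.updateRow_self]
    · rw [Matrix.of_apply, Function.update_of_ne hl, Matrix.updateRow_ne hl, hP1,
        Matrix.one_apply]
  rw [h1, det_updateRow_one]

theorem kodB [IsAlgClosed k] (G : Subgroup (L ≃ₐ[k] L)) [Finite G]
    (V : Submodule k (Derivation k L L →ₗ[L] L)) {n : ℕ} (htr : Algebra.trdeg k L = n)
    (hreg : ∀ θ ∈ V, IsRegForm n θ)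
    (hstab : ∀ g ∈ G, ∀ θ ∈ V, ∃ θ' ∈ V, IsImage g θ θ')
    (hRT : ReidTai n G V 0)
    {θ : Fin n → Derivation k L L →ₗ[L] L} (hθ : ∀ i, θ i ∈ V)
    {P : Fin n → Derivation k L L} (hP1 : ∀ i j, θ i (P j) = if i = j then 1 else 0)
    {a : ℕ} {t : Fin a → L} (ht : AlgebraicIndependent k t)
    (htS : ∀ j, ∃ τ ∈ V, ∃ i, t j = τ (P i)) :
    KodTr k (fixedField G) n a := by
  choose τ hτ i hi using htS
  let Ψ : Fin (a + 1) → (Fin n → Derivation k L L →ₗ[L] L) :=
    Fin.cons θ (fun j => Function.update θ (i j) (τ j))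
  have hΨ : ∀ l j, Ψ l j ∈ V := by
    intro l
    refine Fin.cases (fun j => hθ j) (fun l j => ?_) l
    change (Function.update θ (i l) (τ l)) j ∈ V
    by_cases hj : j = i l
    · subst hj
      rw [Function.update_self]
      exact hτ l
    · rw [Function.update_of_ne hj]
      exact hθ j
  have h0 : eta (Ψ 0) P = 1 := by
    change eta θ P = 1
    unfold eta
    have h1 : (Matrix.of fun i j => θ i (P j)) = 1 := by
      ext i j
      rw [Matrix.of_apply, hP1, Matrix.one_apply]
    rw [h1, Matrix.det_one]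
  have hs : ∀ l : Fin a, eta (Ψ l.succ) P = t l := by
    intro l
    change eta (Function.update θ (i l) (τ l)) P = t l
    rw [eta_update hP1, hi]
  refine kod_descent G htr (m := 1) le_rfl (fun l D => eta (Ψ l) D) (fun l => eta_pluri _) ?_ P
    ?_ ?_
  · intro v hv
    obtain ⟨w, e, hwv, hg⟩ := exists_rot G v hv
    refine ⟨w, e, hwv, fun D D' hD hDD l g => ?_⟩
    obtain ⟨h1, h2, h, ζ, hord, hζ, hrot⟩ := hg g
    rw [← ge_comp]
    exact est_eta G htr hreg hstab hRT h1 h2 hord hζ hrot (hΨ l) hD hDD
  · intro l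
    refine Fin.cases ?_ (fun l => ?_) l
    · rw [h0]
      exact one_ne_zero
    · rw [hs]
      exact ht.ne_zero l
  · have e1 : (fun l : Fin a => eta (Ψ l.succ) P / eta (Ψ 0) P) = t := by
      funext l
      rw [hs, h0, div_one]
    rw [e1]
    exact ht

end Pool.Agent.Y173.QA
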