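import Mathlib

/-! Dual bases out of a separating family of linear functions. -/

set_option autoImplicit false

namespace Pool.Agent.Y173.QA

theorem exists_dual_family {K N : Type*} [Field K] [AddCommGroup N] [Module K N]
    [FiniteDimensional K N] {ι : Type*} {r : ℕ} (hr : Module.finrank K N = r)
    (φ : ι → Module.Dual K N) (hφ : ∀ x, (∀ l, φ l x = 0) → x = 0) :
    ∃ (J : Fin r → ι) (D : Fin r → N), (∀ i j, φ (J j) (D i) = if i = j then 1 else 0) ∧
      ∀ x, x = ∑ j, φ (J j) x • D j := by
  classical
  have hspan : Submodule.span K (Set.range φ) = ⊤ := by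
    by_contra hne
    obtain ⟨f, hf0, hf⟩ := Submodule.exists_le_ker_of_lt_top _ (lt_top_iff_ne_top.2 hne)
    obtain ⟨x, rfl⟩ := (Module.evalEquiv K N).surjective f
    apply hf0
    have hx : x = 0 := by
      apply hφ
      intro l
      have h1 : φ l ∈ Submodule.span K (Set.range φ) := Submodule.subset_span ⟨l, rfl⟩
      have h2 := hf h1
      rw [LinearMap.mem_ker] at h2
      exact h2
    rw [hx, map_zero]
  have hdual : Module.finrank K (Module.Dual K N) = r := by
    rw [Subspace.dual_finrank_eq, hr]
  obtain ⟨f, hf1, hf2, hf3⟩ := Submodule.exists_fun_fin_finrank_span_eq K (Set.range φ)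
  replace hf2 := hf2.trans hspan
  have hcard : Module.finrank K (Submodule.span K (Set.range φ)) = r := by
    rw [hspan, finrank_top, hdual]
  obtain ⟨g, hg⟩ : ∃ g : Fin r → Module.Dual K N, g = f ∘ (finCongr hcard.symm) := ⟨_, rfl⟩
  have hg1 : ∀ i, ∃ l, φ l = g i := by
    intro i
    rw [hg]
    exact hf1 _
  have hg2 : Submodule.span K (Set.range g) = ⊤ := by
    rw [hg, Set.range_comp, Equiv.range_eq_univ, Set.image_univ, hf2]
  have hg3 : LinearIndependent K g := by
    rw [hg]
    exact hf3.comp _ (finCongr hcard.symm).injective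
  choose J hJ using hg1
  let c : Module.Basis (Fin r) K (Module.Dual K N) := Module.Basis.mk hg3 (by rw [hg2])
  have hc : ∀ i, c i = g i := fun i => Module.Basis.mk_apply hg3 _ i
  let D : Fin r → N := fun i => (Module.evalEquiv K N).symm (c.dualBasis i)
  have hD : ∀ i j, φ (J j) (D i) = if i = j then 1 else 0 := by
    intro i j
    rw [hJ j, ← hc j]
    have h1 : (Module.evalEquiv K N) (D i) (c j) = c j (D i) := rfl
    rw [← h1, LinearEquiv.apply_symm_apply, Module.Basis.dualBasis_apply_self]
    by_cases hij : i = j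
    · rw [if_pos hij, if_pos hij.symm]
    · rw [if_neg hij, if_neg (Ne.symm hij)]
  refine ⟨J, D, hD, fun x => ?_⟩
  have h1 : ∀ j, g j (x - ∑ j, φ (J j) x • D j) = 0 := by
    intro j
    rw [map_sub, map_sum, Finset.sum_eq_single j]
    · rw [map_smul, ← hJ j, hD, if_pos rfl, smul_eq_mul, mul_one, sub_self]
    · intro b _ hb
      rw [map_smul, ← hJ j, hD, if_neg hb, smul_zero]
    · intro h
      exact absurd (Finset.mem_univ _) h
  have h2 : ∀ f : Module.Dual K N, f (x - ∑ j, φ (J j) x • D j) = 0 := by
    intro f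
    have hf : f ∈ Submodule.span K (Set.range g) := by rw [hg2]; trivial
    induction hf using Submodule.span_induction with
    | mem y hy =>
      obtain ⟨j, rfl⟩ := hy
      exact h1 j
    | zero => rfl
    | add y z _ _ hy hz => rw [LinearMap.add_apply, hy, hz, add_zero]
    | smul a y _ hy => rw [LinearMap.smul_apply, hy, smul_zero]
  exact sub_eq_zero.1 (hφ _ fun l => h2 (φ l))

end Pool.Agent.Y173.QA
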