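import Pool.Agent.Y173.QA.NumUp

/-! Kodaira dimension and numerical dimension agree for the quotient and the cover. -/

set_option autoImplicit false
set_option linter.overlappingInstances false
set_option linter.unusedSectionVars false

universe u v

open FF IntermediateField Pool.Agent.W619.PQ Pool.Agent.W619.PL Pool.Agent.W619.TW
  Pool.Agent.W603.LV Pool.Agent.W619.Y Pool.Agent.W672.PG

namespace Pool.Agent.Y173.QA

section

variable {k : Type v} {L : Type u} [Field k] [CharZero k] [Field L] [Algebra k L]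

theorem sec_eta {n : ℕ} {θ : Fin n → Derivation k L L →ₗ[L] L} (hθ : ∀ i, IsRegForm n (θ i)) :
    IsSec k L n (fun _ => False) {1} 1 0 (eta θ) := by
  refine ⟨eta_pluri θ, fun v hv _ D hD => ?_, fun v _ hv => hv.elim⟩
  exact Pool.Agent.W721.PG.EFF2.dom_of_reg (eta_reg hθ hv hD)

theorem transfer [IsAlgClosed k] [Algebra.EssFiniteType k L] {n : ℕ}
    (hn : Algebra.trdeg k L = n) (G : Subgroup (L ≃ₐ[k] L)) [Finite G]
    (V : Submodule k (Derivation k L L →ₗ[L] L)) (hreg : ∀ θ ∈ V, IsRegForm n θ)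
    (hstab : ∀ g ∈ G, ∀ θ ∈ V, ∃ θ' ∈ V, IsImage g θ θ')
    (hgen : ∃ (θ : Fin n → Derivation k L L →ₗ[L] L) (D : Fin n → Derivation k L L),
      (∀ i, θ i ∈ V) ∧ (Matrix.of fun i j => θ i (D j)).det ≠ 0)
    (hRT : ReidTai n G V 1) :
    KodTr k (fixedField G) n 0 ∧ ∀ a, (KodTr k (fixedField G) n a ↔ KodTr k L n a) ∧
      (NumLe k (fixedField G) n (fun _ => False) a ↔ NumLe k L n (fun _ => False) a) := by
  obtain ⟨θ, D0, hθ, hD0⟩ := hgen
  have h0 : KodTr k L n 0 := by
    refine ⟨1, le_rfl, fun _ => eta θ, fun _ => sec_eta fun i => hreg _ (hθ i), D0,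
      fun _ => hD0, ?_⟩
    exact algebraicIndependent_empty_type
  refine ⟨kod_down G hn hreg hstab hRT hθ hD0 h0, fun a => ⟨⟨kod_up G hn,
    kod_down G hn hreg hstab hRT hθ hD0⟩, ⟨num_up G hn hreg hstab hRT hθ hD0,
    (down n hn G).2.2 a⟩⟩⟩

end

end Pool.Agent.Y173.QA
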