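import Mathlib

/-! Polynomials in the first variables. -/

set_option autoImplicit false

open MvPolynomial

namespace Pool.Agent.Y173.QA

variable {k : Type*} [Field k] {a r : ℕ}

/-- the polynomial involves only the first `a` variables -/
def Vert (p : MvPolynomial (Fin (a + r)) k) : Prop :=
  ∃ q : MvPolynomial (Fin a) k, p = rename (Fin.castAdd r) q

theorem Vert.mul {p q : MvPolynomial (Fin (a + r)) k} (hp : Vert p) (hq : Vert q) :
    Vert (p * q) := by
  obtain ⟨p', rfl⟩ := hp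
  obtain ⟨q', rfl⟩ := hq
  exact ⟨p' * q', by rw [map_mul]⟩

theorem vert_C (c : k) : Vert (C c : MvPolynomial (Fin (a + r)) k) := ⟨C c, by rw [rename_C]⟩

theorem vert_one : Vert (1 : MvPolynomial (Fin (a + r)) k) := ⟨1, by rw [map_one]⟩

theorem degreeOf_notMem {σ : Type*} {p : MvPolynomial σ k} {i : σ} (h : i ∉ p.vars) :
    degreeOf i p = 0 := by
  classical
  rw [degreeOf_def]
  exact Multiset.count_eq_zero.2 fun h1 => h (by rw [vars_def]; exact Multiset.mem_toFinset.2 h1)

theorem mem_vars_of {σ : Type*} {p : MvPolynomial σ k} {i : σ} (h : i ∈ p.vars) :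
    degreeOf i p ≠ 0 := by
  classical
  rw [vars_def, Multiset.mem_toFinset] at h
  rw [degreeOf_def]
  exact (Multiset.count_pos.2 h).ne'

theorem degreeOf_vert {p : MvPolynomial (Fin (a + r)) k} (hp : Vert p) (l : Fin r) :
    degreeOf (Fin.natAdd a l) p = 0 := by
  classical
  obtain ⟨q, rfl⟩ := hp
  apply degreeOf_notMem
  intro h
  have h1 := vars_rename (Fin.castAdd r) q h
  rw [Finset.mem_image] at h1
  obtain ⟨j, -, hj⟩ := h1
  have h2 := congrArg Fin.val hj
  rw [Fin.val_castAdd, Fin.val_natAdd] at h2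
  have := j.2
  omega

theorem exists_of_not_vert {p : MvPolynomial (Fin (a + r)) k} (hp : ¬ Vert p) :
    ∃ l : Fin r, degreeOf (Fin.natAdd a l) p ≠ 0 := by
  classical
  by_contra hcon
  push Not at hcon
  apply hp
  obtain ⟨q, hq⟩ := exists_rename_eq_of_vars_subset_range p (Fin.castAdd r)
    (Fin.castAdd_injective a r) (by
      intro i hi
      refine Fin.addCases (fun j _ => ⟨j, rfl⟩) (fun l hl => ?_) i hi
      exact absurd (hcon l) (mem_vars_of hl))
  exact ⟨q, hq.symm⟩

theorem not_dvd_of_degreeOf {σ : Type*} {p q : MvPolynomial σ k} {i : σ} (hp : degreeOf i p ≠ 0)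
    (hq : degreeOf i q = 0) (hq0 : q ≠ 0) : ¬ p ∣ q := by
  rintro ⟨c, rfl⟩
  have hp0 : p ≠ 0 := left_ne_zero_of_mul hq0
  have hc0 : c ≠ 0 := right_ne_zero_of_mul hq0
  rw [degreeOf_mul_eq hp0 hc0] at hq
  omega

theorem not_dvd_vert {p q : MvPolynomial (Fin (a + r)) k} {l : Fin r}
    (hp : degreeOf (Fin.natAdd a l) p ≠ 0) (hq : Vert q) (hq0 : q ≠ 0) : ¬ p ∣ q :=
  not_dvd_of_degreeOf hp (degreeOf_vert hq l) hq0

theorem not_dvd_succAbove {m : ℕ} {p : MvPolynomial (Fin (m + 1)) k} {b : Fin (m + 1)}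
    (hp : degreeOf b p ≠ 0) {q : MvPolynomial (Fin m) k} (hq : q ≠ 0) :
    ¬ p ∣ rename b.succAbove q := by
  classical
  refine not_dvd_of_degreeOf hp (degreeOf_notMem fun h => ?_)
    ((map_ne_zero_iff _ (rename_injective _ Fin.succAbove_right_injective)).2 hq)
  have h1 := vars_rename b.succAbove q h
  rw [Finset.mem_image] at h1
  obtain ⟨j, -, hj⟩ := h1
  exact Fin.succAbove_ne b j hj

/-- the vertical part of a polynomial -/
theorem exists_vert_part {Q : MvPolynomial (Fin (a + r)) k} (hQ : Q ≠ 0) :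
    ∃ r0 Q' : MvPolynomial (Fin (a + r)) k, Vert r0 ∧ Q = r0 * Q' ∧
      ∀ p, Irreducible p → Vert p → ¬ p ∣ Q' := by
  classical
  induction Q using WfDvdMonoid.induction_on_irreducible with
  | zero => exact absurd rfl hQ
  | unit u hu =>
    refine ⟨1, u, vert_one, (one_mul u).symm, fun p hp _ hpu => hp.not_isUnit ?_⟩
    exact isUnit_of_dvd_unit hpu hu
  | mul c i hc hi ih =>
    obtain ⟨r0, Q', h1, h2, h3⟩ := ih hc
    by_cases hv : Vert i
    · exact ⟨i * r0, Q', hv.mul h1, by rw [h2, mul_assoc], h3⟩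
    · refine ⟨r0, i * Q', h1, by rw [h2]; ring, fun p hp hpv hdvd => ?_⟩
      rcases hp.prime.dvd_or_dvd hdvd with h4 | h4
      · apply hv
        have h5 : Associated p i := hp.associated_of_dvd hi h4
        obtain ⟨u, hu⟩ := h5
        obtain ⟨c', -, hc'⟩ := MvPolynomial.isUnit_iff_eq_C_of_isReduced.1 u.isUnit
        rw [← hu, hc']
        exact hpv.mul (vert_C c')
      · exact h3 p hp hpv h4

end Pool.Agent.Y173.QA
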