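import Pool.Agent.Y173.QA.Pl
import Pool.Agent.Y173.QA.Vt
import Pool.Agent.W602.GT.Dich

/-! Noether normalization of an affine chart over the field of the base coordinates. -/

set_option autoImplicit false
set_option linter.overlappingInstances false
set_option linter.unusedSectionVars false

open FF IntermediateField Pool.Agent.W619.PQ Pool.Agent.W619.PL Pool.Agent.W619.TW
  Pool.Agent.W603.LV Pool.Agent.W619.Y Pool.Agent.TH122.AB

namespace Pool.Agent.Y173.QA

variable (k : Type) [Field k] [CharZero k] {L : Type} [Field L] [Algebra k L]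

/-- The functions `x` are a Noether normalization over the field of the `t` of the algebra generated
by `B`. -/
structure Chart {a r : ℕ} (t : Fin a → L) (B : Set L) (x : Fin r → L) : Prop where
  bas : IsTranscendenceBasis k (Fin.append t x)
  mem : ∀ l, x l ∈ Algebra.adjoin (IntermediateField.adjoin k (Set.range t)) B
  int : ∀ b ∈ B, IsIntegral (Algebra.adjoin (IntermediateField.adjoin k (Set.range t))
    (Set.range x)) b

variable {k}

theorem exists_chart {a r : ℕ} (htr : Algebra.trdeg k L = (a + r : ℕ)) {t : Fin a → L}
    (ht : AlgebraicIndependent k t) {B : Set L} (hB : B.Finite)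
    (htop : IntermediateField.adjoin k B = ⊤) : ∃ x : Fin r → L, Chart k t B x := by
  classical
  let F0 : IntermediateField k L := IntermediateField.adjoin k (Set.range t)
  let R : Subalgebra F0 L := Algebra.adjoin F0 B
  have hfg : Algebra.FiniteType F0 R := by
    rw [← Subalgebra.fg_iff_finiteType]
    exact Subalgebra.fg_def.2 ⟨B, hB, rfl⟩
  obtain ⟨s, g, ginj, gint⟩ := exists_integral_inj_algHom_of_fg F0 R
  let x : Fin s → L := fun l => (g (MvPolynomial.X l) : L)
  have hcomp : (MvPolynomial.aeval x : MvPolynomial (Fin s) F0 →ₐ[F0] L) = R.val.comp g := by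
    apply MvPolynomial.algHom_ext
    intro l
    rw [MvPolynomial.aeval_X]
    rfl
  have hx : AlgebraicIndependent F0 x := by
    change Function.Injective (MvPolynomial.aeval x : MvPolynomial (Fin s) F0 →ₐ[F0] L)
    rw [hcomp]
    exact Subtype.val_injective.comp ginj
  have hint : ∀ b ∈ B, IsIntegral (Algebra.adjoin F0 (Set.range x)) b := by
    intro b hb
    obtain ⟨p, hp, hpb⟩ := gint ⟨b, Algebra.subset_adjoin hb⟩
    let φ : MvPolynomial (Fin s) F0 →ₐ[F0] Algebra.adjoin F0 (Set.range x) :=
      MvPolynomial.aeval fun l => ⟨x l, Algebra.subset_adjoin ⟨l, rfl⟩⟩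
    have hφ : ∀ q, ((φ q : Algebra.adjoin F0 (Set.range x)) : L) = (g q : L) := by
      intro q
      have h1 : ((Algebra.adjoin F0 (Set.range x)).val.comp φ) = R.val.comp g := by
        apply MvPolynomial.algHom_ext
        intro l
        change ((φ (MvPolynomial.X l) : Algebra.adjoin F0 (Set.range x)) : L) = x l
        rw [MvPolynomial.aeval_X]
      exact DFunLike.congr_fun h1 q
    refine ⟨p.map φ.toRingHom, hp.map _, ?_⟩
    rw [Polynomial.eval₂_map]
    have h2 := congrArg (fun z : R => (z : L)) hpb
    simp only [ZeroMemClass.coe_zero] at h2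
    rw [← h2]
    change _ = R.val.toRingHom (Polynomial.eval₂ g.toRingHom (⟨b, Algebra.subset_adjoin hb⟩ : R) p)
    rw [Polynomial.hom_eval₂]
    have h3 : (algebraMap (Algebra.adjoin F0 (Set.range x)) L).comp φ.toRingHom =
        R.val.toRingHom.comp g.toRingHom := by
      apply RingHom.ext
      intro q
      exact hφ q
    rw [h3]
    rfl
  -- independence over `k`
  have hA0 : (Algebra.adjoin k (Set.range t) : Set L) ⊆ F0 :=
    IntermediateField.algebra_adjoin_le_adjoin k _
  have hxA : AlgebraicIndependent (Algebra.adjoin k (Set.range t)) x := by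
    let iA : Algebra (Algebra.adjoin k (Set.range t)) F0 :=
      (Subalgebra.inclusion (show Algebra.adjoin k (Set.range t) ≤ F0.toSubalgebra from
        IntermediateField.algebra_adjoin_le_adjoin k _)).toRingHom.toAlgebra
    have hT : IsScalarTower (Algebra.adjoin k (Set.range t)) F0 L :=
      IsScalarTower.of_algebraMap_eq fun z => rfl
    refine AlgebraicIndependent.restrictScalars (K := F0) ?_ hx
    intro z z' h
    exact Subtype.ext (congrArg (fun y : F0 => (y : L)) h)
  have hsum : AlgebraicIndependent k (Sum.elim x t) :=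
    AlgebraicIndependent.sumElim_iff.2 ⟨ht, hxA⟩
  -- algebraicity
  let E : IntermediateField k L := IntermediateField.adjoin k (Set.range (Sum.elim x t))
  have hF0E : F0 ≤ E := by
    apply IntermediateField.adjoin.mono
    rintro _ ⟨j, rfl⟩
    exact ⟨Sum.inr j, rfl⟩
  have hxE : ∀ l, x l ∈ E := fun l => IntermediateField.subset_adjoin k _ ⟨Sum.inl l, rfl⟩
  have hBE : ∀ b ∈ B, IsAlgebraic E b := by
    intro b hb
    have h1 := hint b hb
    have h2 : ∀ z ∈ Algebra.adjoin F0 (Set.range x), z ∈ E := by
      intro z hz
      induction hz using Algebra.adjoin_induction with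
      | mem z hz =>
        obtain ⟨l, rfl⟩ := hz
        exact hxE l
      | algebraMap c => exact hF0E c.2
      | add y z _ _ hy hz => exact E.add_mem hy hz
      | mul y z _ _ hy hz => exact E.mul_mem hy hz
    let ψ : Algebra.adjoin F0 (Set.range x) →+* E :=
      { toFun := fun z => ⟨z, h2 z z.2⟩
        map_one' := rfl
        map_mul' := fun _ _ => rfl
        map_zero' := rfl
        map_add' := fun _ _ => rfl }
    obtain ⟨p, hp, hpb⟩ := h1
    refine IsIntegral.isAlgebraic ⟨p.map ψ, hp.map _, ?_⟩
    rw [Polynomial.eval₂_map]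
    exact hpb
  have halg : Algebra.IsAlgebraic E L := by
    refine ⟨fun z => ?_⟩
    have hz : z ∈ IntermediateField.adjoin k B := by rw [htop]; trivial
    have hle : IntermediateField.adjoin k B ≤
        (_root_.algebraicClosure E L).restrictScalars k := by
      rw [IntermediateField.adjoin_le_iff]
      intro b hb
      exact mem_algebraicClosure_iff.2 (hBE b hb)
    exact mem_algebraicClosure_iff.1 (hle hz)
  have hbas : IsTranscendenceBasis k (Sum.elim x t) :=
    isTranscendenceBasis_iff_algebraicIndependent_isAlgebraic.2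
      ⟨hsum, Pool.Agent.W602.GT.alg_adjoin halg⟩
  have hcard := hbas.cardinalMk_eq_trdeg
  rw [htr, Cardinal.mk_sum] at hcard
  simp only [Cardinal.mk_fin, Cardinal.lift_natCast] at hcard
  have hs : s = r := by
    have h1 : s + a = a + r := by exact_mod_cast hcard
    omega
  subst hs
  refine ⟨x, ?_, fun l => (g (MvPolynomial.X l)).2, hint⟩
  refine (isTranscendenceBasis_equiv' ((Equiv.sumComm _ _).trans finSumFinEquiv) ?_).1 hbas
  funext z
  rcases z with z | z <;> simp

end Pool.Agent.Y173.QA
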