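import Pool.Agent.Y173.QA.Kod

/-! The numerical dimension of the quotient and of the cover. -/

set_option autoImplicit false
set_option linter.overlappingInstances false
set_option linter.unusedSectionVars false

universe u v

open FF IntermediateField Pool.Agent.W619.PQ Pool.Agent.W619.PL Pool.Agent.W619.TW
  Pool.Agent.W603.LV Pool.Agent.W619.Y Pool.Agent.W672.PG

namespace Pool.Agent.Y173.QA

section dom

variable {k : Type v} {L : Type u} [Field k] [Field L] [Algebra k L]

theorem dom_add {w : Place k L} {S : Finset L} {j : ℕ} {f g : L} (hf : Dom w S j f)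
    (hg : Dom w S j g) : Dom w S j (f + g) := by
  by_cases hf0 : f = 0
  · rwa [hf0, zero_add]
  by_cases hg0 : g = 0
  · rwa [hg0, add_zero]
  by_cases hfg : f + g = 0
  · exact Or.inl hfg
  obtain ⟨s, hs, hs0, h1⟩ := hf.resolve_left hf0
  obtain ⟨t, ht, ht0, h2⟩ := hg.resolve_left hg0
  have h3 := w.ord_add hf0 hg0 hfg
  rcases le_total ((j : ℤ) * w.ord s) (j * w.ord t) with h4 | h4
  · exact Or.inr ⟨s, hs, hs0, (le_min h1 (h4.trans h2)).trans h3⟩
  · exact Or.inr ⟨t, ht, ht0, (le_min (h4.trans h1) h2).trans h3⟩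

theorem dom_smul {w : Place k L} {S : Finset L} {j : ℕ} {f : L} (hf : Dom w S j f) (c : k) :
    Dom w S j (c • f) := by
  by_cases hc : c = 0
  · left; rw [hc, zero_smul]
  rcases hf with hf | ⟨s, hs, hs0, h1⟩
  · left; rw [hf, smul_zero]
  · by_cases hf0 : f = 0
    · left; rw [hf0, smul_zero]
    right
    refine ⟨s, hs, hs0, ?_⟩
    rw [Algebra.smul_def, w.ord_mul ((map_ne_zero _).2 hc) hf0, w.ord_const hc, zero_add]
    exact h1

theorem sec_zero {n m j : ℕ} {Bd : Place k L → Prop} {S : Finset L} :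
    IsSec k L n Bd S m j 0 := by
  refine ⟨fun A D => ?_, fun v _ _ D _ => Or.inl rfl, fun v _ _ D _ => Or.inl rfl⟩
  simp

theorem sec_add {n m j : ℕ} {Bd : Place k L → Prop} {S : Finset L}
    {ω ω' : (Fin n → Derivation k L L) → L} (h : IsSec k L n Bd S m j ω)
    (h' : IsSec k L n Bd S m j ω') : IsSec k L n Bd S m j (ω + ω') := by
  refine ⟨fun A D => ?_, fun v hv hB D hD => dom_add (h.2.1 v hv hB D hD) (h'.2.1 v hv hB D hD),
    fun v hv hB D hD => dom_add (h.2.2 v hv hB D hD) (h'.2.2 v hv hB D hD)⟩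
  rw [Pi.add_apply, Pi.add_apply, h.1 A D, h'.1 A D, mul_add]

theorem sec_smul {n m j : ℕ} {Bd : Place k L → Prop} {S : Finset L}
    {ω : (Fin n → Derivation k L L) → L} (h : IsSec k L n Bd S m j ω) (c : k) :
    IsSec k L n Bd S m j (c • ω) := by
  refine ⟨fun A D => ?_, fun v hv hB D hD => dom_smul (h.2.1 v hv hB D hD) c,
    fun v hv hB D hD => dom_smul (h.2.2 v hv hB D hD) c⟩
  rw [Pi.smul_apply, Pi.smul_apply, h.1 A D, mul_smul_comm]

/-- the space of sections -/
def secSub (n m j : ℕ) (Bd : Place k L → Prop) (S : Finset L) :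
    Submodule k ((Fin n → Derivation k L L) → L) where
  carrier := {ω | IsSec k L n Bd S m j ω}
  zero_mem' := sec_zero
  add_mem' := fun h h' => sec_add h h'
  smul_mem' := fun c _ h => sec_smul h c

/-- the order of a root of a monic polynomial -/
theorem root_ge {K : Type*} [Field K] [Algebra k K] [Algebra K L] {v : Place k K} {w : Place k L}
    {e : ℕ} (hwv : Over w v e) {p : Polynomial K} (hp : p.Monic) {c : L}
    (hc : Polynomial.aeval c p = 0) {T : ℤ} (hT : T ≤ 0)
    (hcoef : ∀ i < p.natDegree, Ge v T (p.coeff i)) : Ge w (e * T) c := by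
  by_cases hc0 : c = 0
  · exact Or.inl hc0
  right
  by_contra hlt
  push Not at hlt
  have hneg : w.ord c < 0 := lt_of_lt_of_le hlt (mul_nonpos_of_nonneg_of_nonpos (by positivity) hT)
  have h1 : c ^ p.natDegree = -∑ i ∈ Finset.range p.natDegree,
      algebraMap K L (p.coeff i) * c ^ i := by
    rw [Polynomial.aeval_eq_sum_range, Finset.sum_range_succ, hp.coeff_natDegree, one_smul] at hc
    rw [eq_neg_iff_add_eq_zero, add_comm, ← hc]
    congr 1
    refine Finset.sum_congr rfl fun i _ => ?_
    rw [Algebra.smul_def]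
  have h2 : Ge w (e * T + (p.natDegree - 1) * w.ord c) (c ^ p.natDegree) := by
    rw [h1]
    refine (Ge.sum _ _ fun i hi => ?_).neg
    have h3 : Ge w (e * T) (algebraMap K L (p.coeff i)) := by
      rcases hcoef i (Finset.mem_range.1 hi) with h4 | h4
      · left; rw [h4, map_zero]
      · right
        rw [hwv.2]
        exact mul_le_mul_of_nonneg_left h4 (by positivity)
    have h4 : Ge w (i * w.ord c) (c ^ i) := Ge.pow (Or.inr le_rfl) i
    refine (h3.mul h4).mono ?_
    have h5 : (i : ℤ) ≤ p.natDegree - 1 := by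
      have := Finset.mem_range.1 hi
      omega
    have h6 : ((p.natDegree : ℤ) - 1) * w.ord c ≤ i * w.ord c :=
      mul_le_mul_of_nonpos_right h5 hneg.le
    linarith
  have h3 := h2.resolve_left (pow_ne_zero _ hc0)
  rw [w.ord_pow] at h3
  linarith

end dom

section tr

variable {k : Type v} {L : Type u} [Field k] [CharZero k] [Field L] [Algebra k L]
  (G : Subgroup (L ≃ₐ[k] L)) [Finite G]

open scoped Classical in
/-- the trace to the fixed field -/
noncomputable def trG (x : L) : fixedField G :=
  letI := Fintype.ofFinite G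
  ⟨∑ g : G, (g : L ≃ₐ[k] L) x, fun h => by
    change (h : L ≃ₐ[k] L) (∑ g : G, (g : L ≃ₐ[k] L) x) = ∑ g : G, (g : L ≃ₐ[k] L) x
    rw [map_sum]
    exact Fintype.sum_equiv (Equiv.mulLeft h) _ _ (fun g => rfl)⟩

theorem trG_coe [Fintype G] (x : L) : ((trG G x : fixedField G) : L) =
    ∑ g : G, (g : L ≃ₐ[k] L) x := by
  unfold trG
  refine Finset.sum_congr (Finset.ext fun g => ?_) fun _ _ => rfl
  exact ⟨fun _ => Finset.mem_univ _, fun _ => @Finset.mem_univ _ (Fintype.ofFinite G) _⟩

theorem trG_add (x y : L) : trG G (x + y) = trG G x + trG G y := by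
  have := Fintype.ofFinite G
  apply Subtype.ext
  rw [IntermediateField.coe_add, trG_coe, trG_coe, trG_coe, ← Finset.sum_add_distrib]
  exact Finset.sum_congr rfl fun g _ => map_add _ _ _

theorem trG_mul (c : fixedField G) (x : L) : trG G ((c : L) * x) = c * trG G x := by
  have := Fintype.ofFinite G
  apply Subtype.ext
  rw [IntermediateField.coe_mul, trG_coe, trG_coe, Finset.mul_sum]
  refine Finset.sum_congr rfl fun g _ => ?_
  rw [map_mul]
  congr 1
  exact c.2 g

theorem trG_smul (c : k) (x : L) : trG G (c • x) = c • trG G x := by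
  have h1 := trG_mul G (algebraMap k (fixedField G) c) x
  rw [Algebra.smul_def, Algebra.smul_def]
  exact h1

theorem trG_sum {ι : Type*} (s : Finset ι) (f : ι → L) :
    trG G (∑ i ∈ s, f i) = ∑ i ∈ s, trG G (f i) := by
  classical
  induction s using Finset.induction_on with
  | empty =>
    have h1 := trG_mul G 0 (0 : L)
    simpa using h1
  | insert a s ha ih => rw [Finset.sum_insert ha, Finset.sum_insert ha, trG_add, ih]

/-- the trace form is nondegenerate -/
theorem trG_nondeg {r : ℕ} (b : Module.Basis (Fin r) (fixedField G) L) {x : L}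
    (hx : ∀ j, trG G (b j * x) = 0) : x = 0 := by
  have := Fintype.ofFinite G
  have h1 : ∀ y : L, trG G (y * x) = 0 := by
    intro y
    rw [← b.sum_repr y, Finset.sum_mul, trG_sum]
    refine Finset.sum_eq_zero fun j _ => ?_
    have h2 : b.repr y j • b j * x = ((b.repr y j : fixedField G) : L) * (b j * x) := by
      rw [← mul_assoc]
      rfl
    rw [h2, trG_mul, hx, mul_zero]
  have hinj : Function.Injective (fun g : G => ((g : L ≃ₐ[k] L) : L →* L)) := by
    intro g g' h
    apply Subtype.ext
    ext z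
    exact DFunLike.congr_fun h z
  have h2 := (linearIndependent_monoidHom L L).comp _ hinj
  rw [Fintype.linearIndependent_iff] at h2
  have h3 := h2 (fun g => (g : L ≃ₐ[k] L) x) (by
    funext y
    have h4 := congrArg (fun z : fixedField G => (z : L)) (h1 y)
    simp only [trG_coe, ZeroMemClass.coe_zero] at h4
    rw [Finset.sum_apply, Pi.zero_apply, ← h4]
    refine Finset.sum_congr rfl fun g _ => ?_
    rw [map_mul, mul_comm]
    rfl) 1
  simpa using h3

end tr

end Pool.Agent.Y173.QA
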