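import Pool.Agent.Y173.QA.Num

/-! The numerical dimension of the cover is at most the one of the quotient. -/

set_option autoImplicit false
set_option linter.overlappingInstances false
set_option linter.unusedSectionVars false

universe u v

open FF IntermediateField Pool.Agent.W619.PQ Pool.Agent.W619.PL Pool.Agent.W619.TW
  Pool.Agent.W603.LV Pool.Agent.W619.Y Pool.Agent.W672.PG

namespace Pool.Agent.Y173.QA

section

variable {k : Type v} {L : Type u} [Field k] [CharZero k] [Field L] [Algebra k L]

/-- counting through finitely many linear maps with trivial common kernel -/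
theorem count_le {N r C : ℕ} {F : Type*} [AddCommGroup F] [Module k F]
    {X : Type*} [AddCommGroup X] [Module k X] {ω : Fin N → X} (hω : LinearIndependent k ω)
    (τ : Fin r → X →ₗ[k] F) (hτ : ∀ x ∈ Submodule.span k (Set.range ω), (∀ j, τ j x = 0) → x = 0)
    (hC : ∀ j (d : ℕ) (y : Fin d → F), LinearIndependent k y →
      (∀ i, ∃ x ∈ Submodule.span k (Set.range ω), τ j x = y i) → d ≤ C) :
    N ≤ r * C := by
  classical
  let W := Submodule.span k (Set.range ω)
  have hW : FiniteDimensional k W := FiniteDimensional.span_of_finite k (Set.finite_range ω)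
  have hN : Module.finrank k W = N := by
    rw [finrank_span_eq_card hω, Fintype.card_fin]
  let T : W →ₗ[k] (∀ j : Fin r, W.map (τ j)) := LinearMap.pi fun j =>
    ((τ j).comp W.subtype).codRestrict (W.map (τ j)) fun x => ⟨x, x.2, rfl⟩
  have hT : Function.Injective T := by
    rw [← LinearMap.ker_eq_bot, LinearMap.ker_eq_bot']
    intro x hx
    apply Subtype.ext
    refine hτ x x.2 fun j => ?_
    have h1 := congrFun hx j
    exact congrArg Subtype.val h1
  have h1 := LinearMap.finrank_le_finrank_of_injective hT
  rw [hN, Module.finrank_pi_fintype] at h1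
  refine h1.trans ?_
  have h2 : ∀ j, Module.finrank k (W.map (τ j)) ≤ C := by
    intro j
    let b := Module.finBasis k (W.map (τ j))
    refine hC j _ (fun i => (b i : F)) ?_ ?_
    · exact b.linearIndependent.map' (W.map (τ j)).subtype (Submodule.ker_subtype _)
    · intro i
      obtain ⟨x, hx, h⟩ := (b i).2
      exact ⟨x, hx, h⟩
  refine (Finset.sum_le_sum fun j _ => h2 j).trans ?_
  rw [Finset.sum_const, Finset.card_univ, Fintype.card_fin, smul_eq_mul]

theorem num_up [IsAlgClosed k] (G : Subgroup (L ≃ₐ[k] L)) [Finite G]
    {V : Submodule k (Derivation k L L →ₗ[L] L)} {n : ℕ} (htr : Algebra.trdeg k L = n)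
    (hreg : ∀ θ ∈ V, IsRegForm n θ)
    (hstab : ∀ g ∈ G, ∀ θ ∈ V, ∃ θ' ∈ V, IsImage g θ θ')
    (hRT : ReidTai n G V 1)
    {θ : Fin n → Derivation k L L →ₗ[L] L} (hθ : ∀ i, θ i ∈ V)
    {D0 : Fin n → Derivation k L L} (hD0 : eta θ D0 ≠ 0) {a : ℕ}
    (hnum : NumLe k (fixedField G) n (fun _ => False) a) : NumLe k L n (fun _ => False) a := by
  classical
  intro S
  have hfd := fd_fixed G
  have halgK := Pool.Agent.W721.PG.EFF2.alg_fixed G
  have hfint := Fintype.ofFinite G
  obtain ⟨hnK, z, hz⟩ := Pool.Agent.W721.PG.EFF2.exists_basis (fixedField G) n htr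
  choose ext hext hext2 hext3 using pEXT k (fixedField G) L n hnK
  have hfix : ∀ (g : G) (f : fixedField G), (g : L ≃ₐ[k] L) (algebraMap (fixedField G) L f) =
      algebraMap (fixedField G) L f := fun g f => f.2 g
  have hzL : IsTranscendenceBasis k (fun j => (z j : L)) := hz.algebraMap_comp
  choose E hE using fun j => exists_dual _ hz j
  have hdual : ∀ i j, ext (E i) (z j : L) = if i = j then 1 else 0 := by
    intro i j
    have h1 := hext (E i) (z j)
    change ext (E i) (z j : L) = _ at h1
    rw [h1, hE i j]
    by_cases hij : i = j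
    · rw [if_pos hij, if_pos hij.symm, map_one]
    · rw [if_neg hij, if_neg (Ne.symm hij), map_zero]
  let r := Module.finrank (fixedField G) L
  let b : Module.Basis (Fin r) (fixedField G) L := Module.finBasis (fixedField G) L
  let coefs : L → Finset (fixedField G) := fun c =>
    (Finset.range (minpoly (fixedField G) c).natDegree).image (minpoly (fixedField G) c).coeff
  let S' : Finset (fixedField G) := insert 1 (S.biUnion fun s =>
    Finset.univ.biUnion fun j => coefs (b j * s))
  obtain ⟨C, hC⟩ := hnum S'
  refine ⟨r * (C * (1 + Nat.card G) ^ a), fun m N hm hind => ?_⟩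
  obtain ⟨ω, hω, hsec⟩ := hind
  let M := Nat.card G * m
  -- the trace maps
  let τ : Fin r → ((Fin n → Derivation k L L) → L) →ₗ[k]
      ((Fin n → Derivation k (fixedField G) (fixedField G)) → fixedField G) := fun j =>
    { toFun := fun ω D => trG G (b j * (ω (fun i => ext (D i)) * eta θ (fun i => ext (D i)) ^ M))
      map_add' := by
        intro ω ω'
        funext D
        rw [Pi.add_apply, Pi.add_apply, ← trG_add]
        congr 1
        ring
      map_smul' := by
        intro c ω
        funext D
        rw [Pi.smul_apply, Pi.smul_apply, RingHom.id_apply, ← trG_smul]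
        congr 1
        rw [smul_mul_assoc, mul_smul_comm] }
  have hWsec : ∀ x ∈ Submodule.span k (Set.range ω), IsSec k L n (fun _ => False) S m 1 x := by
    intro x hx
    have h1 : Submodule.span k (Set.range ω) ≤ secSub n m 1 (fun _ => False) S := by
      rw [Submodule.span_le]
      rintro _ ⟨l, rfl⟩
      exact hsec l
    exact h1 hx
  have hηE : eta θ (fun i => ext (E i)) ≠ 0 := by
    have h1 := pluri_zero (K := fixedField G) (eta_pluri θ) hzL hdual D0
    rw [h1] at hD0
    exact right_ne_zero_of_mul hD0
  have hker : ∀ x ∈ Submodule.span k (Set.range ω), (∀ j, τ j x = 0) → x = 0 := by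
    intro x hx h0
    have h1 : x (fun i => ext (E i)) * eta θ (fun i => ext (E i)) ^ M = 0 := by
      refine trG_nondeg G b fun j => ?_
      exact congrFun (h0 j) E
    have h2 : x (fun i => ext (E i)) = 0 :=
      (mul_eq_zero.1 h1).resolve_right (pow_ne_zero _ hηE)
    funext D
    rw [pluri_zero (K := fixedField G) (hWsec x hx).1 hzL hdual D, h2, mul_zero]
    rfl
  have hsecK : ∀ j, ∀ x ∈ Submodule.span k (Set.range ω),
      IsSec k (fixedField G) n (fun _ => False) S' (m + M) 1 (τ j x) := by
    intro j x hx
    have hxs := hWsec x hx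
    refine ⟨?_, ?_, fun v _ hv => hv.elim⟩
    · intro X D
      change trG G (b j * (x (fun i => ext (∑ l, X i l • D l)) *
        eta θ (fun i => ext (∑ l, X i l • D l)) ^ M)) = X.det ^ (m + M) *
          trG G (b j * (x (fun i => ext (D i)) * eta θ (fun i => ext (D i)) ^ M))
      have e1 : ∀ j, ext (∑ l, X j l • D l) = ∑ l, (algebraMap (fixedField G) L (X j l)) •
          ext (D l) := by
        intro j
        symm
        apply hext2
        intro f
        rw [Pool.Agent.W721.PG.EFF2.der_sum, Pool.Agent.W721.PG.EFF2.der_sum, map_sum]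
        refine Finset.sum_congr rfl fun l _ => ?_
        rw [hext, map_mul]
      have e3 : (X.map (algebraMap (fixedField G) L)).det =
          algebraMap (fixedField G) L X.det := by
        rw [RingHom.map_det]
        rfl
      have e4 := pluri_mul hxs.1 (pluri_pow (eta_pluri θ) M)
        (X.map (algebraMap (fixedField G) L)) (fun i => ext (D i))
      rw [one_mul, e3] at e4
      simp only [e1]
      change x (fun i => ∑ l, algebraMap (fixedField G) L (X i l) • ext (D l)) *
        eta θ (fun i => ∑ l, algebraMap (fixedField G) L (X i l) • ext (D l)) ^ M =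
          (algebraMap (fixedField G) L X.det) ^ (m + M) *
            (x (fun i => ext (D i)) * eta θ (fun i => ext (D i)) ^ M) at e4
      rw [e4, ← trG_mul]
      congr 1
      rw [IntermediateField.coe_pow]
      change _ = (algebraMap (fixedField G) L X.det) ^ (m + M) * _
      ring
    · intro v hv _ D hD
      -- the minimal order
      obtain ⟨t, ht, htmin⟩ := Finset.exists_min_image (S'.filter (· ≠ 0)) v.ord
        ⟨1, by simp [S']⟩
      rw [Finset.mem_filter] at ht
      have hT : v.ord t ≤ 0 := by
        have h1 := htmin 1 (by simp [S'])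
        rwa [v.ord_one] at h1
      have hcoef : ∀ s ∈ S, ∀ j, ∀ i < (minpoly (fixedField G) (b j * s)).natDegree,
          Ge v (v.ord t) ((minpoly (fixedField G) (b j * s)).coeff i) := by
        intro s hs j i hi
        by_cases h0 : (minpoly (fixedField G) (b j * s)).coeff i = 0
        · exact Or.inl h0
        right
        refine htmin _ (Finset.mem_filter.2 ⟨?_, h0⟩)
        refine Finset.mem_insert_of_mem (Finset.mem_biUnion.2 ⟨s, hs,
          Finset.mem_biUnion.2 ⟨j, Finset.mem_univ j, ?_⟩⟩)
        exact Finset.mem_image_of_mem _ (Finset.mem_range.2 hi)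
      obtain ⟨w, e, hwv, hg⟩ := exists_rot G v hv
      have key : Ge w (e * v.ord t) (algebraMap (fixedField G) L (τ j x D)) := by
        change Ge w (e * v.ord t) ((trG G (b j * (x (fun i => ext (D i)) *
          eta θ (fun i => ext (D i)) ^ M)) : fixedField G) : L)
        rw [trG_coe]
        refine Ge.sum _ _ fun g _ => ?_
        obtain ⟨h1, h2, h, ζ, hord, hζ, hrot⟩ := hg g
        rw [← ge_comp, ← mul_assoc]
        refine est_strict G htr hreg hstab hRT h1 h2 hord hζ hrot hθ
          (pluri_smul hxs.1 (b j)) _ (fun E' hE' => ?_) hD (fun j f => hext (D j) f)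
        rcases hxs.2.1 _ h2 (fun h => h) E' hE' with h3 | ⟨s, hs, hs0, h3⟩
        · left; simp only [h3, mul_zero]
        · by_cases h4 : x E' = 0
          · left; simp only [h4, mul_zero]
          have hint : IsIntegral (fixedField G) (b j * s) :=
            (Algebra.IsAlgebraic.isAlgebraic _).isIntegral
          have h5 := root_ge h1 (minpoly.monic hint) (minpoly.aeval _ _) hT (hcoef s hs j)
          have hbj : b j ≠ 0 := b.ne_zero j
          have h6 := h5.resolve_left (mul_ne_zero hbj hs0)
          right
          rw [Place.ord_mul _ hbj hs0] at h6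
          rw [Place.ord_mul _ hbj h4]
          push_cast at h3
          linarith
      by_cases h0 : τ j x D = 0
      · exact Or.inl h0
      right
      refine ⟨t, ht.1, ht.2, ?_⟩
      have h1 := key.resolve_left ((map_ne_zero _).2 h0)
      rw [hwv.2] at h1
      have h2 : (0 : ℤ) < e := by exact_mod_cast hwv.1
      have h3 := le_of_mul_le_mul_left h1 h2
      simpa using h3
  have hmM : 1 ≤ m + M := by omega
  have hcount := count_le (C := C * (m + M) ^ a) hω τ hker (fun j d y hy hy' => by
    refine hC (m + M) d hmM ⟨y, hy, fun i => ?_⟩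
    obtain ⟨x, hx, hxy⟩ := hy' i
    rw [← hxy]
    exact hsecK j x hx)
  refine hcount.trans (le_of_eq ?_)
  have h1 : m + M = (1 + Nat.card G) * m := by simp only [M]; ring
  rw [h1, mul_pow]
  ring

end

end Pool.Agent.Y173.QA
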