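import Pool.Agent.Y173.QA.Str1
import Pool.Agent.W602.GT.KPick
import Pool.Agent.TH756.PN.Cl

/-! Places over the irreducible polynomials in a transcendence basis. -/

set_option autoImplicit false
set_option linter.overlappingInstances false
set_option linter.unusedSectionVars false

open FF IntermediateField Pool.Agent.W619.PQ Pool.Agent.W619.PL Pool.Agent.W619.TW
  Pool.Agent.W603.LV Pool.Agent.W619.Y Pool.Agent.TH122.AB MvPolynomial

namespace Pool.Agent.Y173.QA

variable {k : Type} [Field k] [CharZero k] {L : Type} [Field L] [Algebra k L]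

/-- the place `P` lies over the place of the irreducible polynomial `p` in `Z` -/
def Adic {d : ℕ} (Z : Fin d → L) (p : MvPolynomial (Fin d) k) (P : Place k L) : Prop :=
  ∀ f : MvPolynomial (Fin d) k, f ≠ 0 →
    0 ≤ P.ord (aeval Z f) ∧ (P.ord (aeval Z f) = 0 ↔ ¬ p ∣ f)

theorem exists_adicP {d : ℕ} {Z : Fin d → L} (hZ : IsTranscendenceBasis k Z)
    (hfd : FiniteDimensional (IntermediateField.adjoin k (Set.range Z)) L)
    {p : MvPolynomial (Fin d) k} (hp : Irreducible p) : ∃ P : Place k L, Adic Z p P := by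
  obtain ⟨K', iF, iA, iK, hT, G, hfin, iG, hT1, hT2, hfd', X, hX, hXZ, hbas⟩ :=
    Pool.Agent.TH756.PN.exists_closure hZ hfd
  obtain ⟨v, hv1, hv2⟩ := exists_adic hX hp
  obtain ⟨w, e, I, hwv, -, -⟩ := exists_inertia G v
  obtain ⟨P, e1, e2, h1, h2, -⟩ := Pool.Agent.TH756.PN.exists_restr (K := L) hwv
  refine ⟨P, fun f hf => ?_⟩
  have hXZ' : (fun j => algebraMap (fixedField G) L (X j)) = Z := funext hXZ
  have hae : algebraMap (fixedField G) L (aeval X f) = aeval Z f := by
    rw [← hXZ']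
    exact (MvPolynomial.aeval_algebraMap_apply L X f).symm
  rw [← hae, h2.2]
  obtain ⟨h3, h4⟩ := hv2 f hf
  have h5 : (0 : ℤ) < e2 := by exact_mod_cast h2.1
  refine ⟨mul_nonneg h5.le h3, ?_⟩
  rw [← h4]
  constructor
  · intro h6
    rcases mul_eq_zero.1 h6 with h7 | h7
    · omega
    · exact h7
  · intro h6
    rw [h6, mul_zero]

/-- derivatives at a pole -/
theorem pole_der {P : Place k L} {s : L} (hs : P.ord s = 1) {E : Derivation k L L}
    (hE : Pres P E) (hEs : E s = 1) {z : L} (hz : P.ord z < 0) :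
    ¬ P.Reg (E z) := by
  have hs0 : s ≠ 0 := by
    rintro rfl
    rw [P.ord_zero] at hs
    norm_num at hs
  have hz0 : z ≠ 0 := by
    rintro rfl
    rw [P.ord_zero] at hz
    exact lt_irrefl _ hz
  intro hreg
  obtain ⟨p, hp⟩ : ∃ p : ℕ, P.ord z = -(p + 1 : ℕ) := by
    obtain ⟨q, hq⟩ := Int.eq_ofNat_of_zero_le (show 0 ≤ -P.ord z - 1 by omega)
    exact ⟨q, by push_cast; omega⟩
  -- `E (z s ^ (p + 1))` is regular
  have h1 : Ge P 0 (E (z * s ^ (p + 1))) := by
    apply hE
    right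
    rw [P.ord_mul hz0 (pow_ne_zero _ hs0), P.ord_pow, hs, hp]
    push_cast
    omega
  rw [E.leibniz, E.leibniz_pow, hEs] at h1
  simp only [smul_eq_mul, nsmul_eq_mul, mul_one, Nat.add_sub_cancel] at h1
  have h2 : Ge P 0 (s ^ (p + 1) * E z) := by
    have h3 : Ge P 0 (s ^ (p + 1)) := Or.inr (by rw [P.ord_pow, hs]; positivity)
    have h4 : Ge P 0 (E z) := hreg
    simpa using h3.mul h4
  have h3 := h1.sub h2
  have h4 : z * (((p + 1 : ℕ) : L) * s ^ p) + s ^ (p + 1) * E z - s ^ (p + 1) * E z =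
      ((p + 1 : ℕ) : L) * (z * s ^ p) := by ring
  rw [h4] at h3
  have hcast : ((p + 1 : ℕ) : L) ≠ 0 := by
    have hcL : CharZero L := charZero_of_injective_algebraMap (algebraMap k L).injective
    exact Nat.cast_ne_zero.2 (by omega)
  have hcast' : ((p + 1 : ℕ) : L) = algebraMap k L ((p + 1 : ℕ) : k) := by
    rw [map_natCast]
  have h5 := h3.resolve_left (mul_ne_zero hcast (mul_ne_zero hz0 (pow_ne_zero _ hs0)))
  rw [P.ord_mul hcast (mul_ne_zero hz0 (pow_ne_zero _ hs0)), P.ord_mul hz0 (pow_ne_zero _ hs0),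
    P.ord_pow, hs, hp, hcast', P.ord_const (Nat.cast_ne_zero.2 (by omega))] at h5
  push_cast at h5
  omega

/-- polynomials in the other variables are units at the place of a variable -/
theorem not_dvd_rename {m : ℕ} {q : MvPolynomial (Fin m) k} (hq : q ≠ 0) :
    ¬ (MvPolynomial.X 0 : MvPolynomial (Fin (m + 1)) k) ∣ rename Fin.succ q := by
  rintro ⟨g, hg⟩
  apply hq
  have h1 := congrArg (aeval (Fin.cons 0 (MvPolynomial.X : Fin m → MvPolynomial (Fin m) k) :
    Fin (m + 1) → MvPolynomial (Fin m) k)) hg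
  rw [map_mul, aeval_X, Fin.cons_zero, zero_mul, aeval_rename] at h1
  have h2 : ((Fin.cons 0 (MvPolynomial.X : Fin m → MvPolynomial (Fin m) k) :
    Fin (m + 1) → MvPolynomial (Fin m) k) ∘ Fin.succ) = MvPolynomial.X := by
    funext i
    simp
  rw [h2, aeval_X_left, AlgHom.id_apply] at h1
  exact h1

/-- **A place at which `h` has a pole, and a regular vector field there which kills the `y`.** -/
theorem exists_pole {m : ℕ} (htr : Algebra.trdeg k L = (m + 1 : ℕ))
    (hfin : ∀ y : Fin (m + 1) → L, IsTranscendenceBasis k y →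
      FiniteDimensional (IntermediateField.adjoin k (Set.range y)) L)
    {h : L} {y : Fin m → L} (hh : IsTranscendenceBasis k (Fin.cons h⁻¹ y : Fin (m + 1) → L)) :
    ∃ (P : Place k L) (s : L) (E : Derivation k L L), IsDivisorial P (m + 1) ∧ P.ord s = 1 ∧
      P.ord h < 0 ∧ Pres P E ∧ E s = 1 ∧ (∀ i, E (y i) = 0) := by
  obtain ⟨P, hP⟩ := exists_adicP hh (hfin _ hh)
    ((MvPolynomial.X_prime (R := k) (i := (0 : Fin (m + 1)))).irreducible)
  have hy : ∀ q : MvPolynomial (Fin m) k, q ≠ 0 →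
      aeval y q ≠ 0 ∧ P.ord (aeval y q) = 0 := by
    intro q hq
    have h0 : rename Fin.succ q ≠ 0 := by
      intro h1
      exact not_dvd_rename hq (by rw [h1]; exact dvd_zero _)
    have h1 : aeval (Fin.cons h⁻¹ y : Fin (m + 1) → L) (rename Fin.succ q) = aeval y q := by
      rw [aeval_rename]
      congr 1
    have h2 := (hP _ h0).2.2 (not_dvd_rename hq)
    rw [h1] at h2
    refine ⟨?_, h2⟩
    rw [← h1]
    intro h3
    exact h0 ((injective_iff_map_eq_zero _).1 hh.1 _ h3)
  obtain ⟨s, hs0, hs⟩ := P.surj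
  obtain ⟨-, E, hE1, hE2⟩ := frame_of htr hfin P hs hy
  refine ⟨P, s, E 0, ⟨y, hy⟩, hs, ?_, hE2 0, ?_, fun i => ?_⟩
  · have h1 := hP (MvPolynomial.X 0) (X_ne_zero _)
    rw [aeval_X, Fin.cons_zero, P.ord_inv] at h1
    rcases lt_or_eq_of_le h1.1 with h2 | h2
    · omega
    · exact absurd (dvd_refl _) (h1.2.1 h2.symm)
  · have h1 := hE1 0 0
    rw [Fin.cons_zero, if_pos rfl] at h1
    exact h1
  · have h1 := hE1 0 i.succ
    rw [Fin.cons_succ, if_neg (Fin.succ_ne_zero i).symm] at h1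
    exact h1

end Pool.Agent.Y173.QA
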