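import Pool.Agent.Y173.QA.Fr
import Pool.Agent.Y173.QA.DefsB
import Pool.Agent.Y173.QA.LinAlg

/-! Closed 1-forms: dual frames and the constants of the distribution. -/

set_option autoImplicit false
set_option linter.overlappingInstances false
set_option linter.unusedSectionVars false

universe u v

open FF IntermediateField Pool.Agent.W619.PQ Pool.Agent.W619.PL Pool.Agent.W619.TW
  Pool.Agent.W603.LV Pool.Agent.W619.Y

namespace Pool.Agent.Y173.QA

section

variable {k : Type v} {L : Type u} [Field k] [CharZero k] [Field L] [Algebra k L]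

theorem exists_tb {n : ℕ} (hn : Algebra.trdeg k L = n) :
    ∃ z : Fin n → L, IsTranscendenceBasis k z := by
  have halg : Algebra.IsAlgebraic (⊤ : IntermediateField k L) L :=
    ⟨fun x => isAlgebraic_algebraMap (⟨x, trivial⟩ : (⊤ : IntermediateField k L))⟩
  obtain ⟨-, z, hz⟩ := Pool.Agent.W721.PG.EFF2.exists_basis (⊤ : IntermediateField k L) n hn
  exact ⟨fun j => (z j : L), hz.algebraMap_comp⟩

theorem der_expand {ι : Type*} [Fintype ι] [DecidableEq ι] {z : ι → L}
    (hz : IsTranscendenceBasis k z) {E : ι → Derivation k L L}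
    (hE : ∀ i j, E i (z j) = if i = j then 1 else 0) (D : Derivation k L L) :
    D = ∑ b, D (z b) • E b := by
  apply Derivation.ext
  intro f
  have h2 := der_zero (D - ∑ b, D (z b) • E b) z hz (fun j => by
    rw [Derivation.sub_apply, Pool.Agent.W721.PG.EFF2.der_sum, Finset.sum_eq_single j]
    · rw [hE, if_pos rfl, mul_one, sub_self]
    · intro b _ hb
      rw [hE, if_neg hb, mul_zero]
    · intro hj
      exact absurd (Finset.mem_univ _) hj) f
  rw [Derivation.sub_apply] at h2
  exact sub_eq_zero.1 h2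

theorem exists_duals {ι : Type*} [DecidableEq ι] {z : ι → L} (hz : IsTranscendenceBasis k z) :
    ∃ E : ι → Derivation k L L, ∀ i j, E i (z j) = if i = j then 1 else 0 := by
  choose E hE using fun j => exists_dual z hz j
  refine ⟨E, fun i j => ?_⟩
  rw [hE i j]
  by_cases hij : i = j
  · rw [if_pos hij, if_pos hij.symm]
  · rw [if_neg hij, if_neg (Ne.symm hij)]

/-- the dual frame of vector fields -/
theorem dual_frame {n : ℕ} (hn : Algebra.trdeg k L = n)
    {θ : Fin n → Derivation k L L →ₗ[L] L} {D0 : Fin n → Derivation k L L}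
    (hD0 : eta θ D0 ≠ 0) : ∃ P : Fin n → Derivation k L L,
      (∀ i j, θ i (P j) = if i = j then 1 else 0) ∧ ∀ D, D = ∑ i, θ i D • P i := by
  classical
  obtain ⟨z, hz⟩ := exists_tb hn
  obtain ⟨E, hE⟩ := exists_duals hz
  set M : Matrix (Fin n) (Fin n) L := Matrix.of fun i j => θ i (D0 j) with hM
  have hMdet : M.det ≠ 0 := hD0
  have hMu : IsUnit M.det := isUnit_iff_ne_zero.2 hMdet
  let P : Fin n → Derivation k L L := fun j => ∑ l, M⁻¹ l j • D0 l
  have hP : ∀ i j, θ i (P j) = if i = j then 1 else 0 := by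
    intro i j
    have h1 := congrFun (congrFun (Matrix.mul_nonsing_inv M hMu) i) j
    rw [Matrix.mul_apply, Matrix.one_apply] at h1
    rw [← h1, map_sum]
    refine Finset.sum_congr rfl fun l _ => ?_
    rw [map_smul, smul_eq_mul, mul_comm]
    rfl
  refine ⟨P, hP, fun D => ?_⟩
  have hzero : ∀ X : Derivation k L L, (∀ i, θ i X = 0) → X = 0 := by
    intro X hX
    have h1 : D0 = fun j => ∑ b, (Matrix.of fun j b => D0 j (z b)) j b • E b := by
      funext j
      exact der_expand hz hE (D0 j)
    have h2 : eta θ D0 = (Matrix.of fun j b => D0 j (z b)).det ^ 1 * eta θ E := by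
      conv_lhs => rw [h1]
      exact eta_pluri θ _ E
    have h3 : eta θ E ≠ 0 := by
      intro h3
      apply hD0
      rw [h2, h3, mul_zero]
    have h4 : (Matrix.of fun i b => θ i (E b)).mulVec (fun b => X (z b)) = 0 := by
      funext i
      have h5 := hX i
      rw [der_expand hz hE X, map_sum] at h5
      rw [Pi.zero_apply, ← h5, Matrix.mulVec, dotProduct]
      refine Finset.sum_congr rfl fun b _ => ?_
      rw [map_smul, smul_eq_mul, mul_comm]
      rfl
    have h5 : (fun b => X (z b)) = 0 := Matrix.eq_zero_of_mulVec_eq_zero h3 h4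
    rw [der_expand hz hE X]
    refine Finset.sum_eq_zero fun b _ => ?_
    rw [show X (z b) = 0 from congrFun h5 b, zero_smul]
  have h1 : D - ∑ i, θ i D • P i = 0 := by
    apply hzero
    intro i
    rw [map_sub, map_sum, Finset.sum_eq_single i]
    · rw [map_smul, hP, if_pos rfl, smul_eq_mul, mul_one, sub_self]
    · intro b _ hb
      rw [map_smul, hP, if_neg (Ne.symm hb), smul_zero]
    · intro h
      exact absurd (Finset.mem_univ _) h
  exact sub_eq_zero.1 h1

/-- expansion of the forms in the frame -/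
theorem form_expand {n : ℕ} {θ : Fin n → Derivation k L L →ₗ[L] L}
    {P : Fin n → Derivation k L L} (hP : ∀ D, D = ∑ i, θ i D • P i)
    (τ : Derivation k L L →ₗ[L] L) (D : Derivation k L L) : τ D = ∑ i, θ i D * τ (P i) := by
  conv_lhs => rw [hP D]
  rw [map_sum]
  exact Finset.sum_congr rfl fun i _ => by rw [map_smul, smul_eq_mul]

/-- the structure equation -/
theorem star {n : ℕ} {θ : Fin n → Derivation k L L →ₗ[L] L} (hθ : ∀ i, IsClosedForm (θ i))
    {P : Fin n → Derivation k L L} (hP : ∀ D, D = ∑ i, θ i D • P i)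
    {τ : Derivation k L L →ₗ[L] L} (hτ : IsClosedForm τ) (D D' : Derivation k L L) :
    ∑ i, D (τ (P i)) * θ i D' = ∑ i, D' (τ (P i)) * θ i D := by
  have h1 := hτ D D'
  rw [form_expand hP τ ⁅D, D'⁆, form_expand hP τ D, form_expand hP τ D', map_sum, map_sum] at h1
  have h2 : ∀ i, θ i ⁅D, D'⁆ * τ (P i) = D (θ i D') * τ (P i) - D' (θ i D) * τ (P i) := by
    intro i
    rw [hθ i D D', sub_mul]
  have h3 : ∀ (X Y : Derivation k L L) i, X (θ i Y * τ (P i)) =
      θ i Y * X (τ (P i)) + τ (P i) * X (θ i Y) := by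
    intro X Y i
    rw [X.leibniz, smul_eq_mul, smul_eq_mul]
  simp only [h2, h3] at h1
  rw [Finset.sum_sub_distrib, Finset.sum_add_distrib, Finset.sum_add_distrib] at h1
  have h4 : ∀ X Y : Derivation k L L, ∑ i, τ (P i) * X (θ i Y) = ∑ i, X (θ i Y) * τ (P i) :=
    fun X Y => Finset.sum_congr rfl fun i _ => mul_comm _ _
  have h5 : ∀ X Y : Derivation k L L, ∑ i, X (τ (P i)) * θ i Y = ∑ i, θ i Y * X (τ (P i)) :=
    fun X Y => Finset.sum_congr rfl fun i _ => mul_comm _ _
  rw [h4, h4] at h1
  rw [h5, h5]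
  linear_combination -h1

end

/-- an element on which all derivations vanish is constant -/
theorem const_of_all {k L : Type} [Field k] [CharZero k] [IsAlgClosed k] [Field L] [Algebra k L]
    {z : L} (hz : ∀ D : Derivation k L L, D z = 0) : ∃ c : k, z = algebraMap k L c := by
  classical
  by_contra hcon
  have htr : Transcendental k z := by
    intro halg
    apply hcon
    have h1 := halg.isIntegral
    have h2 := IsAlgClosed.degree_eq_one_of_irreducible k (minpoly.irreducible h1)
    obtain ⟨c, hc⟩ := minpoly.degree_eq_one_iff.mp h2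
    exact ⟨c, hc.symm⟩
  have hs : AlgebraicIndepOn k id ({z} : Set L) := by
    let _ : Unique ({z} : Set L) := Set.uniqueSingleton z
    exact algebraicIndependent_unique_type_iff.2 htr
  obtain ⟨B, hzB, hB⟩ := exists_isTranscendenceBasis_superset hs
  obtain ⟨E, hE⟩ := exists_duals hB
  have h1 := hE ⟨z, hzB rfl⟩ ⟨z, hzB rfl⟩
  rw [if_pos rfl] at h1
  have h2 := hz (E ⟨z, hzB rfl⟩)
  change E _ z = 1 at h1
  rw [h2] at h1
  exact zero_ne_one h1

end Pool.Agent.Y173.QA
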